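import Pool.Agent.helper45.Cor.Rect

/-!
# Corona project, part 1: values on Whitney boxes versus averages on a line (module CO-Apx)

`F : ℂ → E` is holomorphic on the upper half plane, `‖F‖ ≤ K`; `avl η F l I` is the average of `F`
over the interval `[I 2^-l, (I+1) 2^-l] + iη`.

## `avl_mart`, `norm_avl_le`: additivity of the integral (the integrand is continuous), norm bound.

## `good_apx`
Put `δ = 2^-(n+m)`, `Q =` the closed rectangle `[t0, t1] × [η, η + (V+2) 2^-n]` with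
`t0 = (j-V) 2^-n`, `t1 = (j+1+V) 2^-n`; it lies in `HP`.  Let `z = x + iy ∈ box (n, j)`, so
`j 2^-n ≤ x ≤ (j+1) 2^-n`, `2^-n ≤ y ≤ 2·2^-n`; put `y' = y - η`, so `(3/4) 2^-n ≤ y' ≤ 2·2^-n`, and
`z* = x + i (2η - y)` (reflection of `z` in the line `Im = η`, outside `Q`: `Im z* < η`).
Let `G = F - c`, `‖G‖ ≤ 2K`.  By `rInt_cauchy` for `G` and `z`, and since
`ζ ↦ (ζ - z*)⁻¹ • G ζ` is holomorphic near `Q` (`rInt_cauchy` of `ζ ↦ (ζ - z) (ζ - z*)⁻¹ • G ζ`, or
Mathlib's `Complex.integral_boundary_rect_eq_zero_of_differentiableOn`), or in one step: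
apply `rInt_cauchy` to `ζ ↦ (ζ - z*)⁻¹ • G ζ`:
  `G z = (z - z*) / (2πi) * rInt (ζ ↦ ((ζ - z)(ζ - z*))⁻¹ • G ζ)`, `z - z* = 2iy'`.
* bottom side: for `ζ = t + iη`, `(ζ - z)(ζ - z*) = (t-x)² + y'²` (real), so this side contributes
  `∫_{t0}^{t1} P(t) G(t + iη) dt` with `P(t) = (1/π) y' / ((t-x)² + y'²)`.
  For `|t - t'| ≤ δ`: `P t ≤ (1+κ) P t'` with `1 + κ = (1 + δ/y')²` (because
  `|t' + iη - z| ≤ |t + iη - z| + δ` and `|t + iη - z| ≥ y'`), so `|P t - P t'| ≤ κ P t`, and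
  `δ/y' ≤ (4/3) 2^-m`, `κ ≤ 5·2^-m`.
  On the interval of `I'` (left end `t'`), `2^m (j-V) ≤ I' < 2^m (j+1+V)`:
  `∫ P G = P(t') ∫ G + ∫ (P - P(t')) G`, `‖∫ G‖ = δ ‖avl η F (n+m) I' - c‖ ≤ δ ε₁`,
  `δ P(t') ≤ (1+κ) ∫ P`; so `‖∫ P G‖ ≤ ((1+κ) ε₁ + 2K κ) ∫ P`.  Sum over `I'`; `∫_{t0}^{t1} P ≤ 1`
  (antiderivative `(1/π) arctan ((t-x)/y')`).  Total `≤ (1 + 5/2^m) ε₁ + 10 K/2^m`.
* the three other sides: there `|ζ - z| ≥ V 2^-n` and `|ζ - z*| ≥ V 2^-n`, so the integrand has norm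
  `≤ (1/(2π)) · 2y' · 2K / (V² 4^-n) ≤ (4K/π) 2^n / V²`; total length `(4V+5) 2^-n ≤ 5V 2^-n`
  (`V ≥ 5`); total `≤ 20 K / (π V) ≤ 7 K / V`.

## `osc_cell`
Cauchy estimate `‖F'(w)‖ ≤ K / Im w ≤ K 2^n` on the (convex) cell
(`Complex.norm_deriv_le_of_forall_mem_sphere_norm_le` with radius `r < Im w`, then `r → Im w`), mean value
inequality (`Convex.norm_image_sub_le_of_norm_deriv_le`), `|z - z'| ≤ 2 · 2^-(n+m)`.
(Alternatively: Schwarz' lemma.)
-/

namespace Cor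

open Set
open scoped Classical

noncomputable section

variable {E : Type*} [NormedAddCommGroup E] [NormedSpace ℂ E]

/-- average of `F` over the dyadic interval `(l, I)` of the line `Im = η` -/
def avl (η : ℝ) (F : ℂ → E) (l : ℕ) (I : ℤ) : E :=
  (2 : ℝ) ^ l • ∫ t in ((I : ℝ) / 2 ^ l)..(((I : ℝ) + 1) / 2 ^ l), F (t + η * Complex.I)

theorem CO_isOpen_HP : IsOpen HP := isOpen_lt continuous_const Complex.continuous_im

theorem CO_line_mem {η : ℝ} (hη : 0 < η) (t : ℝ) : (t : ℂ) + η * Complex.I ∈ HP := by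
  change 0 < ((t : ℂ) + η * Complex.I).im
  simp [hη]

theorem CO_cont {F : ℂ → E} (hF : DifferentiableOn ℂ F HP) {η : ℝ} (hη : 0 < η) :
    Continuous fun t : ℝ => F (t + η * Complex.I) := by
  have h1 : Continuous fun t : ℝ => (t : ℂ) + η * Complex.I := by fun_prop
  exact hF.continuousOn.comp_continuous h1 fun t => CO_line_mem hη t

theorem avl_mart [CompleteSpace E] {F : ℂ → E} (hF : DifferentiableOn ℂ F HP) {η : ℝ} (hη : 0 < η)
    (l : ℕ) (I : ℤ) :
    avl η F l I = (1 / 2 : ℝ) • (avl η F (l + 1) (2 * I) + avl η F (l + 1) (2 * I + 1)) := by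
  have hc := CO_cont hF hη
  have hl : (2 : ℝ) ^ l ≠ 0 := pow_ne_zero _ two_ne_zero
  have e1 : ((2 * I : ℤ) : ℝ) / 2 ^ (l + 1) = (I : ℝ) / 2 ^ l := by
    push_cast
    rw [pow_succ]
    field_simp
  have e2 : (((2 * I : ℤ) : ℝ) + 1) / 2 ^ (l + 1) = ((2 * I + 1 : ℤ) : ℝ) / 2 ^ (l + 1) := by
    push_cast
    rfl
  have e3 : (((2 * I + 1 : ℤ) : ℝ) + 1) / 2 ^ (l + 1) = ((I : ℝ) + 1) / 2 ^ l := by
    push_cast
    rw [pow_succ]
    field_simp
    ring
  unfold avl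
  rw [e1, e2, e3, ← smul_add, intervalIntegral.integral_add_adjacent_intervals
    (hc.intervalIntegrable _ _) (hc.intervalIntegrable _ _), smul_smul]
  congr 1
  rw [pow_succ]
  ring

theorem norm_avl_le {F : ℂ → E} {K : ℝ} (hK : ∀ z ∈ HP, ‖F z‖ ≤ K) {η : ℝ}
    (hη : 0 < η) (l : ℕ) (I : ℤ) : ‖avl η F l I‖ ≤ K := by
  have hl : (0 : ℝ) < 2 ^ l := pow_pos two_pos _
  have h1 : ‖∫ t in ((I : ℝ) / 2 ^ l)..(((I : ℝ) + 1) / 2 ^ l), F (t + η * Complex.I)‖ ≤
      K * |((I : ℝ) + 1) / 2 ^ l - (I : ℝ) / 2 ^ l| :=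
    intervalIntegral.norm_integral_le_of_norm_le_const fun t _ => hK _ (CO_line_mem hη t)
  have h2 : ((I : ℝ) + 1) / 2 ^ l - (I : ℝ) / 2 ^ l = 1 / 2 ^ l := by
    field_simp
    ring
  rw [h2, abs_of_pos (by positivity)] at h1
  unfold avl
  rw [norm_smul, Real.norm_eq_abs, abs_of_pos hl]
  calc (2 : ℝ) ^ l * ‖∫ t in ((I : ℝ) / 2 ^ l)..(((I : ℝ) + 1) / 2 ^ l), F (t + η * Complex.I)‖
      ≤ 2 ^ l * (K * (1 / 2 ^ l)) := mul_le_mul_of_nonneg_left h1 hl.le
    _ = K := by field_simp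

/-! ### The kernel -/

/-- the kernel `1 / ((s - x) ^ 2 + y ^ 2)` -/
def CO_R (x y s : ℝ) : ℝ := ((s - x) ^ 2 + y ^ 2)⁻¹

theorem CO_R_den {x y : ℝ} (hy : 0 < y) (s : ℝ) : 0 < (s - x) ^ 2 + y ^ 2 := by positivity

theorem CO_R_pos {x y : ℝ} (hy : 0 < y) (s : ℝ) : 0 < CO_R x y s := inv_pos.2 (CO_R_den hy s)

theorem CO_R_cont {x y : ℝ} (hy : 0 < y) : Continuous (CO_R x y) := by
  unfold CO_R
  exact Continuous.inv₀ (by fun_prop) fun s => (CO_R_den hy s).ne'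

theorem CO_R_int {x y : ℝ} (hy : 0 < y) (a b : ℝ) :
    ∫ s in a..b, CO_R x y s ≤ Real.pi / y := by
  have hd : ∀ s, HasDerivAt (fun s : ℝ => y⁻¹ * Real.arctan ((s - x) / y)) (CO_R x y s) s := by
    intro s
    have h1 : HasDerivAt (fun s : ℝ => (s - x) / y) (1 / y) s :=
      ((hasDerivAt_id' s).sub_const x).div_const y
    have h2 := (h1.arctan).const_mul y⁻¹
    refine h2.congr_deriv ?_
    unfold CO_R
    have h3 := CO_R_den hy s (x := x)
    field_simp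
    ring
  have hpy : Real.pi / y = y⁻¹ * Real.pi := div_eq_inv_mul _ _
  rw [intervalIntegral.integral_eq_sub_of_hasDerivAt (fun s _ => hd s)
    ((CO_R_cont hy).intervalIntegrable _ _), ← mul_sub, hpy]
  refine mul_le_mul_of_nonneg_left ?_ (inv_nonneg.2 hy.le)
  have h1 := Real.arctan_lt_pi_div_two ((b - x) / y)
  have h2 := Real.neg_pi_div_two_lt_arctan ((a - x) / y)
  linarith

theorem CO_R_le {x y : ℝ} (hy : 0 < y) {s t e κ : ℝ} (he : 0 ≤ e) (hd : |s - t| ≤ e * y)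
    (hκ : (1 + e) ^ 2 ≤ 1 + κ) : CO_R x y s ≤ (1 + κ) * CO_R x y t := by
  have h1 : (t - x) ^ 2 + y ^ 2 ≤ (1 + e) ^ 2 * ((s - x) ^ 2 + y ^ 2) := by
    have h2 : |t - x| ≤ |s - x| + e * y := by
      have h3 : t - x = (s - x) - (s - t) := by ring
      rw [h3]
      exact (abs_sub _ _).trans (by linarith)
    have h4 : (t - x) ^ 2 ≤ (|s - x| + e * y) ^ 2 := by
      rw [← sq_abs (t - x)]
      exact pow_le_pow_left₀ (abs_nonneg _) h2 2
    have h5 : (s - x) ^ 2 = |s - x| ^ 2 := (sq_abs _).symm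
    rw [h5]
    have h6 := abs_nonneg (s - x)
    nlinarith [mul_nonneg he (sq_nonneg (|s - x| - y)), mul_nonneg (sq_nonneg e) (sq_nonneg |s - x|),
      mul_nonneg he (mul_nonneg h6 hy.le), mul_nonneg he (sq_nonneg y), mul_nonneg he (sq_nonneg |s-x|)]
  unfold CO_R
  have h7 := CO_R_den hy s (x := x)
  have h8 := CO_R_den hy t (x := x)
  rw [← div_eq_mul_inv, inv_eq_one_div, div_le_div_iff₀ h7 h8, one_mul]
  exact h1.trans (mul_le_mul_of_nonneg_right hκ h7.le)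

/-- One small interval: the kernel is almost constant. -/
theorem CO_cell {x y : ℝ} (hy : 0 < y) {e κ ε C a b : ℝ} (he : 0 ≤ e) (hκ : (1 + e) ^ 2 ≤ 1 + κ)
    (hab : a ≤ b) (hd : b - a ≤ e * y) {f : ℝ → E} (hf : Continuous f)
    (hC : ∀ s, ‖f s‖ ≤ C) (hε : 0 ≤ ε) (hav : ‖∫ s in a..b, f s‖ ≤ (b - a) * ε) :
    ‖∫ s in a..b, CO_R x y s • f s‖ ≤
      ((1 + κ) * ε + C * κ) * ∫ s in a..b, CO_R x y s := by
  have hRc := CO_R_cont (x := x) hy
  have hκ0 : 0 ≤ κ := by nlinarith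
  have hC0 : 0 ≤ C := (norm_nonneg _).trans (hC a)
  have hR0 : 0 < CO_R x y a := CO_R_pos hy a
  have hle1 : ∀ s ∈ Set.Icc a b, CO_R x y a ≤ (1 + κ) * CO_R x y s := fun s hs =>
    CO_R_le hy he (by
      rw [abs_sub_comm, abs_of_nonneg (by linarith [hs.1])]
      linarith [hs.2]) hκ
  have hle2 : ∀ s ∈ Set.Icc a b, CO_R x y s ≤ (1 + κ) * CO_R x y a := fun s hs =>
    CO_R_le hy he (by
      rw [abs_of_nonneg (by linarith [hs.1])]
      linarith [hs.2]) hκ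
  have hdiff : ∀ s ∈ Set.Icc a b, |CO_R x y s - CO_R x y a| ≤ κ * CO_R x y s := by
    intro s hs
    have h1 := hle1 s hs
    have h2 := hle2 s hs
    have h3 : 0 < CO_R x y s := CO_R_pos hy s
    rw [abs_le]
    constructor
    · nlinarith
    · rcases le_total (CO_R x y s) (CO_R x y a) with h4 | h4
      · nlinarith
      · nlinarith
  have hint : (∫ s in a..b, CO_R x y s • f s) =
      CO_R x y a • (∫ s in a..b, f s) + ∫ s in a..b, (CO_R x y s - CO_R x y a) • f s := by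
    have i1 : IntervalIntegrable (fun s => CO_R x y a • f s) MeasureTheory.volume a b :=
      (hf.const_smul _).intervalIntegrable _ _
    have i2 : IntervalIntegrable (fun s => (CO_R x y s - CO_R x y a) • f s)
        MeasureTheory.volume a b :=
      ((hRc.sub continuous_const).smul hf).intervalIntegrable _ _
    rw [← intervalIntegral.integral_smul, ← intervalIntegral.integral_add i1 i2]
    refine intervalIntegral.integral_congr fun s _ => ?_
    rw [← add_smul]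
    congr 1
    ring
  have h1 : ‖CO_R x y a • (∫ s in a..b, f s)‖ ≤ (1 + κ) * ε * ∫ s in a..b, CO_R x y s := by
    rw [norm_smul, Real.norm_eq_abs, abs_of_pos hR0]
    have h2 : (b - a) * CO_R x y a ≤ (1 + κ) * ∫ s in a..b, CO_R x y s := by
      rw [← intervalIntegral.integral_const_mul, ← smul_eq_mul,
        ← intervalIntegral.integral_const]
      exact intervalIntegral.integral_mono_on hab (continuous_const.intervalIntegrable _ _)
        ((hRc.const_mul _).intervalIntegrable _ _) hle1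
    calc CO_R x y a * ‖∫ s in a..b, f s‖ ≤ CO_R x y a * ((b - a) * ε) :=
          mul_le_mul_of_nonneg_left hav hR0.le
      _ = ((b - a) * CO_R x y a) * ε := by ring
      _ ≤ ((1 + κ) * ∫ s in a..b, CO_R x y s) * ε := mul_le_mul_of_nonneg_right h2 hε
      _ = (1 + κ) * ε * ∫ s in a..b, CO_R x y s := by ring
  have h3 : ‖∫ s in a..b, (CO_R x y s - CO_R x y a) • f s‖ ≤
      C * κ * ∫ s in a..b, CO_R x y s := by
    rw [← intervalIntegral.integral_const_mul]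
    refine (intervalIntegral.norm_integral_le_integral_norm hab).trans ?_
    refine intervalIntegral.integral_mono_on hab
      (((hRc.sub continuous_const).smul hf).norm.intervalIntegrable _ _)
      ((hRc.const_mul _).intervalIntegrable _ _) fun s hs => ?_
    rw [norm_smul, Real.norm_eq_abs]
    calc |CO_R x y s - CO_R x y a| * ‖f s‖ ≤ (κ * CO_R x y s) * C :=
          mul_le_mul (hdiff s hs) (hC s) (norm_nonneg _)
            (mul_nonneg hκ0 (CO_R_pos hy s).le)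
      _ = C * κ * CO_R x y s := by ring
  rw [hint]
  refine (norm_add_le _ _).trans ((add_le_add h1 h3).trans (le_of_eq ?_))
  ring

/-- Many small intervals. -/
theorem CO_cells {x y : ℝ} (hy : 0 < y) {e κ ε C δ : ℝ} (he : 0 ≤ e) (hκ : (1 + e) ^ 2 ≤ 1 + κ)
    (hδ : 0 ≤ δ) (hd : δ ≤ e * y) {f : ℝ → E} (hf : Continuous f)
    (hC : ∀ s, ‖f s‖ ≤ C) (hε : 0 ≤ ε) (N₀ : ℤ) (M : ℕ)
    (hav : ∀ k < M, ‖∫ s in (((N₀ : ℝ) + k) * δ)..(((N₀ : ℝ) + k + 1) * δ), f s‖ ≤ δ * ε) :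
    ‖∫ s in ((N₀ : ℝ) * δ)..(((N₀ : ℝ) + M) * δ), CO_R x y s • f s‖ ≤
      ((1 + κ) * ε + C * κ) * ∫ s in ((N₀ : ℝ) * δ)..(((N₀ : ℝ) + M) * δ), CO_R x y s := by
  have hRc := CO_R_cont (x := x) hy
  have h1 : ∀ g : ℝ → E, Continuous g →
      ∑ k ∈ Finset.range M, ∫ s in (((N₀ : ℝ) + k) * δ)..(((N₀ : ℝ) + k + 1) * δ), g s =
        ∫ s in ((N₀ : ℝ) * δ)..(((N₀ : ℝ) + M) * δ), g s := by
    intro g hg
    have h2 := intervalIntegral.sum_integral_adjacent_intervals (f := g)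
      (μ := MeasureTheory.volume) (a := fun k : ℕ => ((N₀ : ℝ) + k) * δ) (n := M)
      (fun k _ => hg.intervalIntegrable _ _)
    simp only [Nat.cast_zero, add_zero, Nat.cast_add, Nat.cast_one, ← add_assoc] at h2
    exact h2
  have h1' : ∑ k ∈ Finset.range M,
      ∫ s in (((N₀ : ℝ) + k) * δ)..(((N₀ : ℝ) + k + 1) * δ), CO_R x y s =
        ∫ s in ((N₀ : ℝ) * δ)..(((N₀ : ℝ) + M) * δ), CO_R x y s := by
    have h2 := intervalIntegral.sum_integral_adjacent_intervals (f := CO_R x y)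
      (μ := MeasureTheory.volume) (a := fun k : ℕ => ((N₀ : ℝ) + k) * δ) (n := M)
      (fun k _ => hRc.intervalIntegrable _ _)
    simp only [Nat.cast_zero, add_zero, Nat.cast_add, Nat.cast_one, ← add_assoc] at h2
    exact h2
  rw [← h1 (fun s => CO_R x y s • f s) (hRc.smul hf), ← h1', Finset.mul_sum]
  refine (norm_sum_le _ _).trans (Finset.sum_le_sum fun k hk => ?_)
  have h3 : ((N₀ : ℝ) + k + 1) * δ - ((N₀ : ℝ) + k) * δ = δ := by ring
  refine CO_cell hy he hκ ?_ ?_ hf hC hε ?_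
  · linarith
  · rw [h3]
    exact hd
  · rw [h3]
    exact hav k (Finset.mem_range.1 hk)

/-- The norm of the integral along an edge. -/
theorem CO_eInt_le {p d : ℂ} {s C : ℝ} (hd : ‖d‖ = 1) (hs : 0 ≤ s) {f : ℂ → E}
    (hC : ∀ t ∈ Set.Icc 0 s, ‖f (p + d * t)‖ ≤ C) : ‖eInt p d s f‖ ≤ C * s := by
  unfold eInt
  rw [norm_smul, hd, one_mul]
  have h1 := intervalIntegral.norm_integral_le_of_norm_le_const (a := 0) (b := s)
    (f := fun t : ℝ => f (p + d * t)) (C := C) fun t ht => by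
      rw [Set.uIoc_of_le hs] at ht
      exact hC t ⟨ht.1.le, ht.2⟩
  rw [sub_zero, abs_of_nonneg hs] at h1
  exact h1

theorem good_apx [CompleteSpace E] {F : ℂ → E} (hF : DifferentiableOn ℂ F HP) {K : ℝ}
    (hK : ∀ z ∈ HP, ‖F z‖ ≤ K) {η ε₁ : ℝ} {n m V j : ℕ} {c : E} (hc : ‖c‖ ≤ K) (hη : 0 < η)
    (hη' : η ≤ (1 / 2) ^ n / 4) (hV : 5 ≤ V) (hε : 0 ≤ ε₁)
    (hav : ∀ I' ∈ Finset.Ico ((2 : ℤ) ^ m * ((j : ℤ) - V)) ((2 : ℤ) ^ m * ((j : ℤ) + 1 + V)),
      ‖avl η F (n + m) I' - c‖ ≤ ε₁) {z : ℂ} (hz : z ∈ box (n, j)) :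
    ‖F z - c‖ ≤ (1 + 5 / 2 ^ m) * ε₁ + 10 * K / 2 ^ m + 7 * K / V := by
  obtain ⟨hz1, hz2, hz3, hz4⟩ := hz
  obtain ⟨L, hL⟩ : ∃ L : ℝ, L = (1 / 2) ^ n := ⟨_, rfl⟩
  have hlen : len (n, j) = L := hL.symm
  rw [hlen] at hz1 hz2 hz3 hz4
  rw [← hL] at hη'
  simp only at hz1 hz2
  have hL0 : 0 < L := by rw [hL]; positivity
  have hK0 : 0 ≤ K := (norm_nonneg c).trans hc
  have hV0 : (5 : ℝ) ≤ V := by exact_mod_cast hV
  obtain ⟨y, hy⟩ : ∃ y : ℝ, y = z.im - η := ⟨_, rfl⟩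
  have hy1 : 3 / 4 * L ≤ y := by rw [hy]; linarith
  have hy2 : y ≤ 2 * L := by rw [hy]; linarith
  have hy0 : 0 < y := by linarith
  obtain ⟨zs, hzs⟩ : ∃ zs : ℂ, zs = ⟨z.re, η - y⟩ := ⟨_, rfl⟩
  have hzsr : zs.re = z.re := by rw [hzs]
  have hzsi : zs.im = η - y := by rw [hzs]
  obtain ⟨G, hGdef⟩ : ∃ G : ℂ → E, G = fun ζ => F ζ - c := ⟨_, rfl⟩
  have hG : ∀ ζ ∈ HP, ‖G ζ‖ ≤ 2 * K := by
    intro ζ hζ
    rw [hGdef]
    refine (norm_sub_le _ _).trans ?_
    linarith [hK ζ hζ]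
  have hGd : DifferentiableOn ℂ G HP := by
    rw [hGdef]
    exact hF.sub_const c
  obtain ⟨p, hp⟩ : ∃ p : ℂ, p = ⟨((j : ℝ) - V) * L, η⟩ := ⟨_, rfl⟩
  have hpr : p.re = ((j : ℝ) - V) * L := by rw [hp]
  have hpi : p.im = η := by rw [hp]
  obtain ⟨w, hw⟩ : ∃ w : ℝ, w = (2 * V + 1) * L := ⟨_, rfl⟩
  obtain ⟨h, hh⟩ : ∃ h : ℝ, h = (V + 2) * L := ⟨_, rfl⟩
  have hw0 : 0 ≤ w := by rw [hw]; positivity
  have hh0 : 0 ≤ h := by rw [hh]; positivity
  have hVL : 0 < V * L := by positivity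
  -- distances
  have d1 : V * L ≤ z.re - p.re := by rw [hpr]; linarith
  have d2 : V * L ≤ p.re + w - z.re := by rw [hpr, hw]; linarith
  have d3 : V * L ≤ p.im + h - z.im := by rw [hpi, hh]; linarith
  have hO : IsOpen {ζ : ℂ | 0 < ζ.im ∧ η - y < ζ.im} :=
    (isOpen_lt continuous_const Complex.continuous_im).inter
      (isOpen_lt continuous_const Complex.continuous_im)
  have hcau := rInt_cauchy (p := p) (w := w) (h := h) (f := fun ζ => (ζ - zs)⁻¹ • G ζ) hO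
    (fun ζ hζ => ⟨by linarith [hζ.2.2.1], by linarith [hζ.2.2.1]⟩)
    (by
      refine DifferentiableOn.smul ?_ (hGd.mono fun ζ hζ => hζ.1)
      refine DifferentiableOn.inv (by fun_prop) ?_
      intro ζ hζ h0
      rw [sub_eq_zero] at h0
      have := hζ.2
      rw [h0, hzsi] at this
      exact lt_irrefl _ this) (z := z)
    ⟨by linarith, by linarith, by rw [hpi]; linarith, by linarith⟩
  have hzz : z - zs = 2 * (y : ℂ) * Complex.I := by
    apply Complex.ext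
    · simp [hzsr]
    · simp [hzsi, hy]
      ring
  have hyC : (y : ℂ) ≠ 0 := Complex.ofReal_ne_zero.2 hy0.ne'
  have hpiC : (Real.pi : ℂ) ≠ 0 := Complex.ofReal_ne_zero.2 Real.pi_ne_zero
  have hGz : G z = ((y / Real.pi : ℝ) : ℂ) •
      rInt p w h (fun ζ => (ζ - z)⁻¹ • (ζ - zs)⁻¹ • G ζ) := by
    rw [hcau, smul_smul, smul_smul, hzz]
    have h1 : ((y / Real.pi : ℝ) : ℂ) * (2 * Real.pi * Complex.I) * (2 * (y : ℂ) * Complex.I)⁻¹ =
        1 := by
      push_cast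
      field_simp
    rw [h1, one_smul]
  -- the three sides
  obtain ⟨B, hB⟩ : ∃ B : ℝ, B = (V * L)⁻¹ * ((V * L)⁻¹ * (2 * K)) := ⟨_, rfl⟩
  have hB0 : 0 ≤ B := by rw [hB]; positivity
  have hpt : ∀ ζ ∈ HP, V * L ≤ ‖ζ - z‖ → V * L ≤ ‖ζ - zs‖ →
      ‖(ζ - z)⁻¹ • (ζ - zs)⁻¹ • G ζ‖ ≤ B := by
    intro ζ hζ h1 h2
    rw [norm_smul, norm_smul, norm_inv, norm_inv, hB]
    have h3 := inv_anti₀ hVL h1
    have h4 := inv_anti₀ hVL h2
    have h5 : ‖ζ - zs‖⁻¹ * ‖G ζ‖ ≤ (V * L)⁻¹ * (2 * K) :=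
      mul_le_mul h4 (hG ζ hζ) (norm_nonneg _) (inv_nonneg.2 hVL.le)
    exact mul_le_mul h3 h5 (mul_nonneg (inv_nonneg.2 (norm_nonneg _)) (norm_nonneg _))
      (inv_nonneg.2 hVL.le)
  have hright : ‖eInt (p + w) Complex.I h (fun ζ => (ζ - z)⁻¹ • (ζ - zs)⁻¹ • G ζ)‖ ≤ B * h := by
    refine CO_eInt_le Complex.norm_I hh0 fun t ht => hpt _ ?_ ?_ ?_
    · change 0 < (p + w + Complex.I * t).im
      simp [hpi]
      linarith [ht.1]
    · refine le_trans ?_ (Complex.abs_re_le_norm _)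
      refine le_trans ?_ (le_abs_self _)
      simp
      linarith
    · refine le_trans ?_ (Complex.abs_re_le_norm _)
      refine le_trans ?_ (le_abs_self _)
      simp [hzsr]
      linarith
  have hleft : ‖eInt p Complex.I h (fun ζ => (ζ - z)⁻¹ • (ζ - zs)⁻¹ • G ζ)‖ ≤ B * h := by
    refine CO_eInt_le Complex.norm_I hh0 fun t ht => hpt _ ?_ ?_ ?_
    · change 0 < (p + Complex.I * t).im
      simp [hpi]
      linarith [ht.1]
    · refine le_trans ?_ (Complex.abs_re_le_norm _)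
      refine le_trans ?_ (neg_le_abs _)
      simp
      linarith
    · refine le_trans ?_ (Complex.abs_re_le_norm _)
      refine le_trans ?_ (neg_le_abs _)
      simp [hzsr]
      linarith
  have htop : ‖eInt (p + Complex.I * h) 1 w (fun ζ => (ζ - z)⁻¹ • (ζ - zs)⁻¹ • G ζ)‖ ≤ B * w := by
    refine CO_eInt_le norm_one hw0 fun t ht => hpt _ ?_ ?_ ?_
    · change 0 < (p + Complex.I * h + 1 * t).im
      simp [hpi]
      linarith
    · refine le_trans ?_ (Complex.abs_im_le_norm _)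
      refine le_trans ?_ (le_abs_self _)
      simp
      linarith
    · refine le_trans ?_ (Complex.abs_im_le_norm _)
      refine le_trans ?_ (le_abs_self _)
      simp [hzsi, hpi]
      rw [hpi] at d3
      linarith
  -- the bottom side
  obtain ⟨δ, hδ⟩ : ∃ δ : ℝ, δ = L / 2 ^ m := ⟨_, rfl⟩
  have h2m : (0 : ℝ) < 2 ^ m := pow_pos two_pos m
  have hδ0 : 0 < δ := by rw [hδ]; positivity
  have hδ2 : δ = 1 / 2 ^ (n + m) := by
    rw [hδ, hL, pow_add, one_div_pow]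
    field_simp
  have hgc : Continuous fun s : ℝ => G (s + η * Complex.I) := CO_cont hGd hη
  have hbot : eInt p 1 w (fun ζ => (ζ - z)⁻¹ • (ζ - zs)⁻¹ • G ζ) =
      ∫ s in p.re..(p.re + w), CO_R z.re y s • G (s + η * Complex.I) := by
    unfold eInt
    rw [one_smul]
    have h1 : ∀ t : ℝ, (fun ζ => (ζ - z)⁻¹ • (ζ - zs)⁻¹ • G ζ) (p + 1 * (t : ℂ)) =
        (fun s : ℝ => CO_R z.re y s • G (s + η * Complex.I)) (p.re + t) := by
      intro t
      have h2 : p + 1 * (t : ℂ) = ((p.re + t : ℝ) : ℂ) + η * Complex.I := by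
        apply Complex.ext
        · simp
        · simp [hpi]
      simp only [h2]
      rw [smul_smul, ← mul_inv]
      have h3 : (((p.re + t : ℝ) : ℂ) + η * Complex.I - z) *
          (((p.re + t : ℝ) : ℂ) + η * Complex.I - zs) =
          (((p.re + t - z.re) ^ 2 + y ^ 2 : ℝ) : ℂ) := by
        apply Complex.ext
        · simp [hzsr, hzsi, hy, pow_two]
          ring
        · simp [hzsr, hzsi, hy, pow_two]
          ring
      rw [h3, ← Complex.ofReal_inv, Complex.coe_smul]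
      rfl
    simp only [h1]
    rw [intervalIntegral.integral_comp_add_left
      (fun s : ℝ => CO_R z.re y s • G (s + η * Complex.I)) p.re, add_zero]
  obtain ⟨N₀, hN₀⟩ : ∃ N₀ : ℤ, N₀ = 2 ^ m * ((j : ℤ) - V) := ⟨_, rfl⟩
  obtain ⟨M, hM⟩ : ∃ M : ℕ, M = 2 ^ m * (2 * V + 1) := ⟨_, rfl⟩
  have hend0 : p.re = (N₀ : ℝ) * δ := by
    rw [hpr, hN₀, hδ]
    push_cast
    field_simp
  have hend1 : p.re + w = ((N₀ : ℝ) + M) * δ := by
    rw [hpr, hw, hN₀, hM, hδ]
    push_cast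
    field_simp
  have hcell : ∀ k < M, ‖∫ s in (((N₀ : ℝ) + k) * δ)..(((N₀ : ℝ) + k + 1) * δ),
      G (s + η * Complex.I)‖ ≤ δ * ε₁ := by
    intro k hk
    have hmem : N₀ + (k : ℤ) ∈ Finset.Ico ((2 : ℤ) ^ m * ((j : ℤ) - V))
        ((2 : ℤ) ^ m * ((j : ℤ) + 1 + V)) := by
      rw [Finset.mem_Ico, ← hN₀]
      constructor
      · have : (0 : ℤ) ≤ k := Nat.cast_nonneg k
        linarith
      · have h1 : (k : ℤ) < M := by exact_mod_cast hk
        have h2 : (2 : ℤ) ^ m * ((j : ℤ) + 1 + V) = N₀ + M := by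
          rw [hN₀, hM]
          push_cast
          ring
        rw [h2]
        linarith
    have h1 := hav _ hmem
    have h2 : (((N₀ + (k : ℤ) : ℤ)) : ℝ) / 2 ^ (n + m) = ((N₀ : ℝ) + k) * δ := by
      rw [hδ2]
      push_cast
      ring
    have h3 : ((((N₀ + (k : ℤ) : ℤ)) : ℝ) + 1) / 2 ^ (n + m) = ((N₀ : ℝ) + k + 1) * δ := by
      rw [hδ2]
      push_cast
      ring
    unfold avl at h1
    rw [h2, h3] at h1
    have hFc := CO_cont hF hη
    have h4 : ∫ s in (((N₀ : ℝ) + k) * δ)..(((N₀ : ℝ) + k + 1) * δ), G (s + η * Complex.I) =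
        δ • ((2 : ℝ) ^ (n + m) • (∫ s in (((N₀ : ℝ) + k) * δ)..(((N₀ : ℝ) + k + 1) * δ),
          F (s + η * Complex.I)) - c) := by
      have h5 : δ * 2 ^ (n + m) = 1 := by
        rw [hδ2]
        field_simp
      rw [smul_sub, smul_smul, h5, one_smul, hGdef]
      rw [intervalIntegral.integral_sub (hFc.intervalIntegrable _ _)
        (continuous_const.intervalIntegrable _ _), intervalIntegral.integral_const]
      congr 2
      ring
    rw [h4, norm_smul, Real.norm_eq_abs, abs_of_pos hδ0]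
    exact mul_le_mul_of_nonneg_left h1 hδ0.le
  have hu0 : (0 : ℝ) < 1 / 2 ^ m := by positivity
  have hu1 : (1 : ℝ) / 2 ^ m ≤ 1 := by
    rw [div_le_one h2m]
    exact one_le_pow₀ one_le_two
  have hcells := CO_cells (x := z.re) (y := y) hy0 (e := 4 / 3 * (1 / 2 ^ m))
    (κ := 5 * (1 / 2 ^ m)) (ε := ε₁) (C := 2 * K) (δ := δ) (by positivity)
    (by nlinarith) hδ0.le
    (by
      rw [hδ, div_eq_mul_one_div]
      nlinarith) hgc (fun s => hG _ (CO_line_mem hη s)) hε N₀ M hcell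
  rw [← hend0, ← hend1] at hcells
  have hRint := CO_R_int (x := z.re) hy0 p.re (p.re + w)
  obtain ⟨A, hA⟩ : ∃ A : ℝ, A = (1 + 5 * (1 / 2 ^ m)) * ε₁ + 2 * K * (5 * (1 / 2 ^ m)) := ⟨_, rfl⟩
  have hA0 : 0 ≤ A := by rw [hA]; positivity
  rw [← hA] at hcells
  have hbotn : ‖eInt p 1 w (fun ζ => (ζ - z)⁻¹ • (ζ - zs)⁻¹ • G ζ)‖ ≤ A * (Real.pi / y) := by
    rw [hbot]
    exact hcells.trans (mul_le_mul_of_nonneg_left hRint hA0)
  -- conclusion
  have hr : ‖rInt p w h (fun ζ => (ζ - z)⁻¹ • (ζ - zs)⁻¹ • G ζ)‖ ≤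
      A * (Real.pi / y) + B * h + B * w + B * h := by
    unfold rInt
    refine (norm_sub_le _ _).trans (add_le_add ?_ hleft)
    refine (norm_sub_le _ _).trans (add_le_add ?_ htop)
    exact (norm_add_le _ _).trans (add_le_add hbotn hright)
  have hyp : 0 ≤ y / Real.pi := div_nonneg hy0.le Real.pi_pos.le
  have hfin : ‖G z‖ ≤ y / Real.pi * (A * (Real.pi / y) + B * h + B * w + B * h) := by
    rw [hGz, norm_smul, Complex.norm_real, Real.norm_eq_abs, abs_of_nonneg hyp]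
    exact mul_le_mul_of_nonneg_left hr hyp
  have hsplit : y / Real.pi * (A * (Real.pi / y) + B * h + B * w + B * h) =
      A + y / Real.pi * (B * (2 * h + w)) := by
    have h1 : y / Real.pi * (Real.pi / y) = 1 := by
      have := Real.pi_ne_zero
      field_simp
    calc y / Real.pi * (A * (Real.pi / y) + B * h + B * w + B * h) =
        A * (y / Real.pi * (Real.pi / y)) + y / Real.pi * (B * (2 * h + w)) := by ring
      _ = _ := by rw [h1, mul_one]
  have hside : y / Real.pi * (B * (2 * h + w)) ≤ 7 * K / V := by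
    have h1 : 2 * h + w ≤ 5 * (V * L) := by
      rw [hh, hw]
      nlinarith
    have h2 : y / Real.pi ≤ 2 * L / 3 := by
      rw [div_le_div_iff₀ Real.pi_pos (by norm_num)]
      nlinarith [Real.pi_gt_three]
    have h3 : B * (2 * h + w) ≤ B * (5 * (V * L)) := mul_le_mul_of_nonneg_left h1 hB0
    have h4 : y / Real.pi * (B * (2 * h + w)) ≤ 2 * L / 3 * (B * (5 * (V * L))) :=
      mul_le_mul h2 h3 (mul_nonneg hB0 (by linarith)) (by positivity)
    refine h4.trans ?_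
    have hVpos : (0 : ℝ) < V := by linarith
    have h5 : 2 * L / 3 * (B * (5 * (V * L))) = 20 / 3 * K / V := by
      rw [hB]
      field_simp
      ring
    rw [h5]
    gcongr
    norm_num
  have hGz' : ‖F z - c‖ = ‖G z‖ := by rw [hGdef]
  rw [hGz']
  refine hfin.trans ?_
  rw [hsplit, hA]
  have h9 : (1 + 5 * (1 / 2 ^ m)) * ε₁ + 2 * K * (5 * (1 / 2 ^ m)) =
      (1 + 5 / 2 ^ m) * ε₁ + 10 * K / 2 ^ m := by ring
  rw [h9]
  linarith

theorem osc_cell {F : ℂ → E} (hF : DifferentiableOn ℂ F HP) {K : ℝ} (hK : ∀ z ∈ HP, ‖F z‖ ≤ K)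
    {m n a b : ℕ} {z z' : ℂ} (hz : z ∈ cell m n a b) (hz' : z' ∈ cell m n a b) :
    ‖F z - F z'‖ ≤ 2 * K / 2 ^ m := by
  have hL : (0 : ℝ) < (1 / 2) ^ n := by positivity
  have hcs : 0 < cs m n := by unfold cs; positivity
  have him : ∀ w ∈ cell m n a b, (1 / 2 : ℝ) ^ n ≤ w.im := by
    intro w hw
    have h1 := hw.2.2.1
    have h2 : 0 ≤ (b : ℝ) * cs m n := mul_nonneg (Nat.cast_nonneg _) hcs.le
    linarith
  have hconv : Convex ℝ (cell m n a b) := by
    have h1 := ((convex_halfSpace_re_ge ((a : ℝ) * cs m n)).inter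
      (convex_halfSpace_re_le (((a : ℝ) + 1) * cs m n))).inter
      ((convex_halfSpace_im_ge ((1 / 2) ^ n + (b : ℝ) * cs m n)).inter
      (convex_halfSpace_im_le ((1 / 2) ^ n + ((b : ℝ) + 1) * cs m n)))
    refine (convex_iff_forall_pos.2 ?_)
    intro u hu v hv α β hα hβ hαβ
    have h2 := convex_iff_forall_pos.1 h1 (x := u) ⟨⟨hu.1, hu.2.1⟩, hu.2.2.1, hu.2.2.2⟩ (y := v)
      ⟨⟨hv.1, hv.2.1⟩, hv.2.2.1, hv.2.2.2⟩ hα hβ hαβ
    exact ⟨h2.1.1, h2.1.2, h2.2.1, h2.2.2⟩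
  have hs2 : 0 < Real.sqrt 2 := Real.sqrt_pos.2 two_pos
  have hs2' : Real.sqrt 2 * Real.sqrt 2 = 2 := Real.mul_self_sqrt two_pos.le
  have h1s : 1 < Real.sqrt 2 := by
    rw [Real.lt_sqrt (by norm_num)]
    norm_num
  set r : ℝ := (1 / 2) ^ n / Real.sqrt 2 with hr
  have hr0 : 0 < r := div_pos hL hs2
  have hrL : r < (1 / 2) ^ n := div_lt_self hL h1s
  have hball : ∀ w ∈ cell m n a b, Metric.closedBall w r ⊆ HP := by
    intro w hw u hu
    have h1 := him w hw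
    rw [mem_closedBall_iff_norm] at hu
    have h2 := (Complex.abs_im_le_norm (u - w)).trans hu
    rw [Complex.sub_im, abs_le] at h2
    change 0 < u.im
    linarith [h2.1]
  have hder : ∀ w ∈ cell m n a b, ‖deriv F w‖ ≤ K / r := by
    intro w hw
    refine Complex.norm_deriv_le_of_forall_mem_sphere_norm_le hr0 ?_ ?_
    · refine DifferentiableOn.diffContOnCl ?_
      exact hF.mono (Metric.closure_ball_subset_closedBall.trans (hball w hw))
    · intro u hu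
      exact hK u (hball w hw (Metric.sphere_subset_closedBall hu))
  have hdiff : ∀ w ∈ cell m n a b, DifferentiableAt ℂ F w := by
    intro w hw
    exact hF.differentiableAt (CO_isOpen_HP.mem_nhds (hball w hw (Metric.mem_closedBall_self hr0.le)))
  have hmv := hconv.norm_image_sub_le_of_norm_deriv_le hdiff hder hz' hz
  have hdist : ‖z - z'‖ ≤ Real.sqrt 2 * cs m n := by
    refine (Complex.norm_le_sqrt_two_mul_max _).trans ?_
    refine mul_le_mul_of_nonneg_left (max_le ?_ ?_) hs2.le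
    · rw [Complex.sub_re, abs_le]
      constructor
      · linarith [hz.1, hz'.2.1]
      · linarith [hz.2.1, hz'.1]
    · rw [Complex.sub_im, abs_le]
      constructor
      · linarith [hz.2.2.1, hz'.2.2.2]
      · linarith [hz.2.2.2, hz'.2.2.1]
  have hK0 : 0 ≤ K := (norm_nonneg _).trans (hK z (hball z hz (Metric.mem_closedBall_self hr0.le)))
  refine hmv.trans ?_
  calc K / r * ‖z - z'‖ ≤ K / r * (Real.sqrt 2 * cs m n) :=
        mul_le_mul_of_nonneg_left hdist (div_nonneg hK0 hr0.le)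
    _ = 2 * K / 2 ^ m := by
      rw [hr]
      unfold cs
      rw [pow_add, div_div_eq_mul_div]
      have h3 : K * Real.sqrt 2 / (1 / 2) ^ n * (Real.sqrt 2 * ((1 / 2) ^ n * (1 / 2) ^ m)) =
          K * (Real.sqrt 2 * Real.sqrt 2) * (1 / 2) ^ m * ((1 / 2) ^ n / (1 / 2) ^ n) := by ring
      rw [h3, hs2', div_self hL.ne', one_div, inv_pow]
      ring

end

end Cor
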