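import Mathlib

/-!
# Corona project, part 1: packing of the jumps of a stopped function (module CO-Jump)

`b : ℕ → ℤ → T` is any function on the nodes `(l, I)` of the dyadic forest (parent of `(l+1, I)`:
`(l, I / 2)`) and `S l I` says that `(l + 1, I)` is a stop: outside the stops `b` is inherited from the
parent (`hb`).  The stops satisfy a packing condition with constant `Q` (`hS`).

## Proof of `jump_pack`
Fix `l, I, V`, and put for `j : ℕ`
`R j = Icc (2^j (I-V)) (2^j (I+1+V))`, `X j = {x ∈ R j | b (l+j) (x-1) ≠ b (l+j) x}`,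
`O j = {x ∈ R j | 2^j ∣ x}` (old points; `#(O j) = 2V + 2`), `W j = X j \ O j` (new points),
`s j = #{K ∈ Ico (2^(j+1) (I-V)) (2^(j+1) (I+1+V)) | S (l+j) K}`.
(1) `W 0 = ∅`.
(2) `#(W (j+1)) ≤ #(W j) + 2 s j`: let `x ∈ W (j+1)`.  As `2^(j+1) ∤ x`, `x` is strictly between the
ends of `R (j+1)`, so `x` and `x - 1` belong to the half open interval of `s j`.  If neither of them
is a stop then `b (l+j) (x/2) = b (l+j+1) x ≠ b (l+j+1) (x-1) = b (l+j) ((x-1)/2)`, so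
`x/2 ≠ (x-1)/2`, so `x = 2x'` is even and `x' ∈ W j` (`(x-1)/2 = x' - 1`).  So `W (j+1)` is contained
in the image of `W j` under `x' ↦ 2x'`, the stops of `s j`, and the stops of `s j` shifted by `1`.
(3) Hence `#(W j) ≤ 2 ∑_{i < j} s i`, and
`∑_{j<d} 2^-j #(X j) ≤ ∑_{j<d} 2^-j (2V+2) + ∑_{j<d} 2^-j 2 ∑_{i<j} s i ≤ (4V+4) + 2 ∑_{i<d} s i ∑_{i<j} 2^-j
≤ (4V+4) + 4 ∑_{i<d} 2^-(i+1) s i`, using `∑_{j>i} 2^-j ≤ 2^-i = 2 · 2^-(i+1)`.
(4) The interval of `s i` is the disjoint union of the `2V+1` intervals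
`Ico (2^(i+1) I') (2^(i+1) (I'+1))`, `I' = I-V, ..., I+V`; so
`∑_{i<d} 2^-(i+1) s i ≤ (2V+1) Q` by `hS`.
-/

namespace Cor

open Finset
open scoped Classical

noncomputable section

/-- The new jump points at depth `j`. -/
def CO_W {T : Type*} (b : ℕ → ℤ → T) (l : ℕ) (I : ℤ) (V : ℕ) (j : ℕ) : Finset ℤ :=
  (Icc ((2 : ℤ) ^ j * (I - V)) ((2 : ℤ) ^ j * (I + 1 + V))).filter
    (fun x => b (l + j) (x - 1) ≠ b (l + j) x ∧ ¬ ((2 : ℤ) ^ j ∣ x))

/-- The stops below `I` (with `V` neighbours) at depth `j`. -/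
def CO_S (S : ℕ → ℤ → Prop) (l : ℕ) (I : ℤ) (V : ℕ) (j : ℕ) : Finset ℤ :=
  (Ico ((2 : ℤ) ^ (j + 1) * (I - V)) ((2 : ℤ) ^ (j + 1) * (I + 1 + V))).filter (S (l + j))

lemma CO_W_zero {T : Type*} (b : ℕ → ℤ → T) (l : ℕ) (I : ℤ) (V : ℕ) :
    CO_W b l I V 0 = ∅ := by
  apply Finset.filter_eq_empty_iff.2
  intro x _ h
  exact h.2 (by simp)

lemma CO_W_succ {T : Type*} {b : ℕ → ℤ → T} {S : ℕ → ℤ → Prop}
    (hb : ∀ l I, ¬ S l I → b (l + 1) I = b l (I / 2)) (l : ℕ) (I : ℤ) (V : ℕ) (j : ℕ) :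
    CO_W b l I V (j + 1) ⊆ (CO_W b l I V j).image (fun x => 2 * x) ∪
      (CO_S S l I V j ∪ (CO_S S l I V j).image (fun x => x + 1)) := by
  intro x hx
  rw [CO_W, mem_filter, mem_Icc] at hx
  obtain ⟨⟨h1, h2⟩, h3, h4⟩ := hx
  have h1' : (2 : ℤ) ^ (j + 1) * (I - V) < x := by
    rcases h1.lt_or_eq with h | h
    · exact h
    · exact absurd ⟨_, h.symm⟩ h4
  have h2' : x < (2 : ℤ) ^ (j + 1) * (I + 1 + V) := by
    rcases h2.lt_or_eq with h | h
    · exact h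
    · exact absurd ⟨_, h⟩ h4
  by_cases hs : S (l + j) x
  · refine mem_union_right _ (mem_union_left _ ?_)
    rw [CO_S, mem_filter, mem_Ico]
    exact ⟨⟨h1, h2'⟩, hs⟩
  by_cases hs' : S (l + j) (x - 1)
  · refine mem_union_right _ (mem_union_right _ ?_)
    rw [mem_image]
    refine ⟨x - 1, ?_, by ring⟩
    rw [CO_S, mem_filter, mem_Ico]
    exact ⟨⟨by omega, by omega⟩, hs'⟩
  refine mem_union_left _ ?_
  have e1 : b (l + (j + 1)) x = b (l + j) (x / 2) := hb _ _ hs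
  have e2 : b (l + (j + 1)) (x - 1) = b (l + j) ((x - 1) / 2) := hb _ _ hs'
  rw [e1, e2] at h3
  have hne : (x - 1) / 2 ≠ x / 2 := fun h => h3 (by rw [h])
  obtain ⟨y, rfl⟩ : ∃ y, x = 2 * y := ⟨x / 2, by omega⟩
  have hy1 : (2 * y - 1) / 2 = y - 1 := by omega
  have hy2 : 2 * y / 2 = y := by omega
  rw [mem_image]
  refine ⟨y, ?_, rfl⟩
  rw [CO_W, mem_filter, mem_Icc]
  refine ⟨⟨?_, ?_⟩, ?_, ?_⟩
  · have : (2 : ℤ) ^ (j + 1) * (I - V) = 2 * ((2 : ℤ) ^ j * (I - V)) := by ring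
    omega
  · have : (2 : ℤ) ^ (j + 1) * (I + 1 + V) = 2 * ((2 : ℤ) ^ j * (I + 1 + V)) := by ring
    omega
  · rw [hy1, hy2] at h3
    exact h3
  · rintro ⟨c, hc⟩
    exact h4 ⟨c, by rw [hc]; ring⟩

lemma CO_W_card {T : Type*} {b : ℕ → ℤ → T} {S : ℕ → ℤ → Prop}
    (hb : ∀ l I, ¬ S l I → b (l + 1) I = b l (I / 2)) (l : ℕ) (I : ℤ) (V : ℕ) (j : ℕ) :
    ((CO_W b l I V (j + 1)).card : ℝ) ≤ (CO_W b l I V j).card + 2 * (CO_S S l I V j).card := by
  have h := card_le_card (CO_W_succ hb l I V j)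
  have h2 := card_union_le ((CO_W b l I V j).image (fun x => 2 * x))
      (CO_S S l I V j ∪ (CO_S S l I V j).image (fun x => x + 1))
  have h3 := card_union_le (CO_S S l I V j) ((CO_S S l I V j).image (fun x => x + 1))
  have h4 := card_image_le (s := CO_W b l I V j) (f := fun x : ℤ => 2 * x)
  have h5 := card_image_le (s := CO_S S l I V j) (f := fun x : ℤ => x + 1)
  have : (CO_W b l I V (j + 1)).card ≤ (CO_W b l I V j).card + 2 * (CO_S S l I V j).card := by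
    omega
  exact_mod_cast this

lemma CO_W_sum {T : Type*} {b : ℕ → ℤ → T} {S : ℕ → ℤ → Prop}
    (hb : ∀ l I, ¬ S l I → b (l + 1) I = b l (I / 2)) (l : ℕ) (I : ℤ) (V : ℕ) (d : ℕ) :
    ∑ j ∈ range d, (1 / 2 : ℝ) ^ j * ((CO_W b l I V j).card : ℝ) +
      2 * (1 / 2 : ℝ) ^ d * ((CO_W b l I V d).card : ℝ) ≤
      4 * ∑ j ∈ range d, (1 / 2 : ℝ) ^ (j + 1) * ((CO_S S l I V j).card : ℝ) := by
  induction d with
  | zero => simp [CO_W_zero]
  | succ d ih =>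
    rw [sum_range_succ, sum_range_succ]
    have h := CO_W_card hb l I V d
    have hp : (0 : ℝ) < (1 / 2 : ℝ) ^ d := by positivity
    have h' := mul_le_mul_of_nonneg_left h hp.le
    have e : (1 / 2 : ℝ) ^ (d + 1) = (1 / 2 : ℝ) ^ d / 2 := by ring
    rw [e]
    nlinarith [h', ih]

lemma CO_S_card (S : ℕ → ℤ → Prop) (l : ℕ) (I : ℤ) (V : ℕ) (j : ℕ) :
    ((CO_S S l I V j).card : ℝ) ≤ ∑ I' ∈ Icc (I - V) (I + V),
      (((Ico ((2 : ℤ) ^ (j + 1) * I') ((2 : ℤ) ^ (j + 1) * (I' + 1))).filter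
        (S (l + j))).card : ℝ) := by
  have hsub : CO_S S l I V j ⊆ (Icc (I - V) (I + V)).biUnion
      (fun I' => (Ico ((2 : ℤ) ^ (j + 1) * I') ((2 : ℤ) ^ (j + 1) * (I' + 1))).filter
        (S (l + j))) := by
    intro x hx
    rw [CO_S, mem_filter, mem_Ico] at hx
    obtain ⟨⟨h1, h2⟩, h3⟩ := hx
    rw [mem_biUnion]
    have hp : (0 : ℤ) < (2 : ℤ) ^ (j + 1) := by positivity
    have a1 : (2 : ℤ) ^ (j + 1) * (x / 2 ^ (j + 1)) ≤ x := Int.mul_ediv_self_le hp.ne'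
    have a2 : x < (2 : ℤ) ^ (j + 1) * (x / 2 ^ (j + 1) + 1) := by
      have := Int.lt_mul_ediv_self_add (x := x) hp
      linarith [this]
    refine ⟨x / 2 ^ (j + 1), ?_, ?_⟩
    · rw [mem_Icc]
      constructor
      · rw [Int.le_ediv_iff_mul_le hp]
        linarith
      · have : x / 2 ^ (j + 1) < I + 1 + V := by
          rw [Int.ediv_lt_iff_lt_mul hp]
          linarith
        omega
    · rw [mem_filter, mem_Ico]
      exact ⟨⟨a1, a2⟩, h3⟩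
  have h := (card_le_card hsub).trans card_biUnion_le
  exact_mod_cast h

lemma CO_old (j : ℕ) (I : ℤ) (V : ℕ) :
    (((Icc ((2 : ℤ) ^ j * (I - V)) ((2 : ℤ) ^ j * (I + 1 + V))).filter
      (fun x => (2 : ℤ) ^ j ∣ x)).card : ℝ) ≤ 2 * V + 2 := by
  have hsub : (Icc ((2 : ℤ) ^ j * (I - V)) ((2 : ℤ) ^ j * (I + 1 + V))).filter
      (fun x => (2 : ℤ) ^ j ∣ x) ⊆ (Icc (I - V) (I + 1 + V)).image (fun x => (2 : ℤ) ^ j * x) := by
    intro x hx
    rw [mem_filter, mem_Icc] at hx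
    obtain ⟨⟨h1, h2⟩, c, rfl⟩ := hx
    have hp : (0 : ℤ) < (2 : ℤ) ^ j := by positivity
    rw [mem_image]
    refine ⟨c, ?_, rfl⟩
    rw [mem_Icc]
    exact ⟨le_of_mul_le_mul_left h1 hp, le_of_mul_le_mul_left h2 hp⟩
  have h := (card_le_card hsub).trans card_image_le
  have hc : (Icc (I - V : ℤ) (I + 1 + V)).card = 2 * V + 2 := by
    rw [Int.card_Icc]
    omega
  rw [hc] at h
  exact_mod_cast h

theorem jump_pack {T : Type*} {b : ℕ → ℤ → T} {S : ℕ → ℤ → Prop} {Q : ℝ}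
    (hb : ∀ l I, ¬ S l I → b (l + 1) I = b l (I / 2))
    (hS : ∀ (l : ℕ) (I : ℤ) (d : ℕ), ∑ j ∈ range d, (1 / 2 : ℝ) ^ (j + 1) *
      (((Ico (2 ^ (j + 1) * I) (2 ^ (j + 1) * (I + 1))).filter (S (l + j))).card : ℝ) ≤ Q)
    (l : ℕ) (I : ℤ) (V : ℕ) (d : ℕ) :
    ∑ j ∈ range d, (1 / 2 : ℝ) ^ j *
      (((Icc (2 ^ j * (I - V)) (2 ^ j * (I + 1 + V))).filter
        (fun x => b (l + j) (x - 1) ≠ b (l + j) x)).card : ℝ) ≤
        (4 * V + 4) + 4 * (2 * V + 1) * Q := by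
  -- the old points and the new points
  have hX : ∀ j : ℕ, (((Icc ((2 : ℤ) ^ j * (I - V)) (2 ^ j * (I + 1 + V))).filter
        (fun x => b (l + j) (x - 1) ≠ b (l + j) x)).card : ℝ) ≤
        (2 * V + 2) + (CO_W b l I V j).card := by
    intro j
    have hsub : (Icc ((2 : ℤ) ^ j * (I - V)) (2 ^ j * (I + 1 + V))).filter
        (fun x => b (l + j) (x - 1) ≠ b (l + j) x) ⊆
        (Icc ((2 : ℤ) ^ j * (I - V)) ((2 : ℤ) ^ j * (I + 1 + V))).filter
          (fun x => (2 : ℤ) ^ j ∣ x) ∪ CO_W b l I V j := by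
      intro x hx
      rw [mem_filter] at hx
      by_cases hd : (2 : ℤ) ^ j ∣ x
      · exact mem_union_left _ (mem_filter.2 ⟨hx.1, hd⟩)
      · exact mem_union_right _ (mem_filter.2 ⟨hx.1, hx.2, hd⟩)
    have h := (card_le_card hsub).trans (card_union_le _ _)
    have h' : (((Icc ((2 : ℤ) ^ j * (I - V)) (2 ^ j * (I + 1 + V))).filter
        (fun x => b (l + j) (x - 1) ≠ b (l + j) x)).card : ℝ) ≤
        (((Icc ((2 : ℤ) ^ j * (I - V)) ((2 : ℤ) ^ j * (I + 1 + V))).filter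
          (fun x => (2 : ℤ) ^ j ∣ x)).card : ℝ) + ((CO_W b l I V j).card : ℝ) := by
      exact_mod_cast h
    linarith [CO_old j I V]
  have hsum : ∑ j ∈ range d, (1 / 2 : ℝ) ^ j *
      (((Icc ((2 : ℤ) ^ j * (I - V)) (2 ^ j * (I + 1 + V))).filter
        (fun x => b (l + j) (x - 1) ≠ b (l + j) x)).card : ℝ) ≤
      ∑ j ∈ range d, ((1 / 2 : ℝ) ^ j * (2 * V + 2) +
        (1 / 2 : ℝ) ^ j * ((CO_W b l I V j).card : ℝ)) := by
    apply sum_le_sum
    intro j _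
    have hp : (0 : ℝ) ≤ (1 / 2 : ℝ) ^ j := by positivity
    have := mul_le_mul_of_nonneg_left (hX j) hp
    linarith [this]
  rw [sum_add_distrib, ← sum_mul] at hsum
  have hgeo : ∑ j ∈ range d, (1 / 2 : ℝ) ^ j ≤ 2 := by
    have : ∀ d : ℕ, ∑ j ∈ range d, (1 / 2 : ℝ) ^ j + 2 * (1 / 2 : ℝ) ^ d = 2 := by
      intro d
      induction d with
      | zero => simp
      | succ d ih =>
        rw [sum_range_succ]
        have e : (1 / 2 : ℝ) ^ (d + 1) = (1 / 2 : ℝ) ^ d / 2 := by ring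
        rw [e]
        linarith [ih]
    have hp : (0 : ℝ) ≤ (1 / 2 : ℝ) ^ d := by positivity
    linarith [this d]
  have hW := CO_W_sum hb l I V d
  have hp : (0 : ℝ) ≤ 2 * (1 / 2 : ℝ) ^ d * ((CO_W b l I V d).card : ℝ) := by positivity
  have hSs : ∑ j ∈ range d, (1 / 2 : ℝ) ^ (j + 1) * ((CO_S S l I V j).card : ℝ) ≤
      (2 * V + 1) * Q := by
    calc ∑ j ∈ range d, (1 / 2 : ℝ) ^ (j + 1) * ((CO_S S l I V j).card : ℝ)
        ≤ ∑ j ∈ range d, ∑ I' ∈ Icc (I - V) (I + V), (1 / 2 : ℝ) ^ (j + 1) *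
          (((Ico ((2 : ℤ) ^ (j + 1) * I') ((2 : ℤ) ^ (j + 1) * (I' + 1))).filter
            (S (l + j))).card : ℝ) := by
          apply sum_le_sum
          intro j _
          rw [← mul_sum]
          exact mul_le_mul_of_nonneg_left (CO_S_card S l I V j) (by positivity)
      _ = ∑ I' ∈ Icc (I - V) (I + V), ∑ j ∈ range d, (1 / 2 : ℝ) ^ (j + 1) *
          (((Ico ((2 : ℤ) ^ (j + 1) * I') ((2 : ℤ) ^ (j + 1) * (I' + 1))).filter
            (S (l + j))).card : ℝ) := sum_comm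
      _ ≤ ∑ I' ∈ Icc (I - V : ℤ) (I + V), Q := sum_le_sum fun I' _ => hS l I' d
      _ = (2 * V + 1) * Q := by
          rw [sum_const, Int.card_Icc, nsmul_eq_mul]
          have : (I + V + 1 - (I - V) : ℤ).toNat = 2 * V + 1 := by omega
          rw [this]
          push_cast
          ring
  have hV : (∑ j ∈ range d, (1 / 2 : ℝ) ^ j) * (2 * V + 2) ≤ 2 * (2 * V + 2) :=
    mul_le_mul_of_nonneg_right hgeo (by positivity)
  linarith [hsum, hW, hp, hSs, hV]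

end

end Cor
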