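import Pool.Agent.helper30.Cor.Tree
import Pool.Agent.helper30.Cor.Jump
import Pool.Agent.helper30.Cor.Apx

/-!
# Corona project, part 1: `ε`-approximation on the grid of cells (module CO-Contour)

`F = (h_i)`, `a = avl η F`, `η = 2^-N / 4`, `bb = stp ε₁ a`.  A node `(n, j)` is good if `bb (n+m)` is
constant on the window `Ico (2^m (j-V)) (2^m (j+1+V))`.
-/

namespace Cor

open Set
open scoped Classical

noncomputable section

/-! ### nets -/

theorem CO_net (r : ℕ) {K : ℝ} (hK : 0 ≤ K) {δ : ℝ} (hδ : 0 < δ) :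
    ∃ (L : Finset (Fin r → ℂ)) (q : (Fin r → ℂ) → (Fin r → ℂ)), ∀ v : Fin r → ℂ, (∀ i, ‖v i‖ ≤ K) →
      q v ∈ L ∧ ∀ i, ‖v i - q v i‖ < δ := by
  have hc : IsCompact (Metric.closedBall (0 : Fin r → ℂ) K) := isCompact_closedBall _ _
  obtain ⟨t, -, ht, hcov⟩ := hc.finite_cover_balls hδ
  have key : ∀ v : Fin r → ℂ, (∀ i, ‖v i‖ ≤ K) → ∃ w ∈ ht.toFinset, ∀ i, ‖v i - w i‖ < δ := by
    intro v hv
    have : v ∈ Metric.closedBall (0 : Fin r → ℂ) K := by
      rw [mem_closedBall_zero_iff, pi_norm_le_iff_of_nonneg hK]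
      exact hv
    obtain ⟨w, hw, hvw⟩ := mem_iUnion₂.1 (hcov this)
    refine ⟨w, ht.mem_toFinset.2 hw, fun i => ?_⟩
    rw [Metric.mem_ball, dist_eq_norm] at hvw
    exact (norm_le_pi_norm (v - w) i).trans_lt hvw
  choose! q hq1 hq2 using key
  exact ⟨ht.toFinset, q, fun v hv => ⟨hq1 v hv, hq2 v hv⟩⟩

/-! ### constancy on intervals -/

theorem CO_const {T : Type*} {f : ℤ → T} {u v : ℤ} (h : ∀ x, u < x → x < v → f (x - 1) = f x)
    {x : ℤ} (hx : u ≤ x) (hx' : x < v) : f x = f u := by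
  induction x, hx using Int.leInduction with
  | base => rfl
  | succ k hk ih =>
    have h1 := h (k + 1) (by omega) hx'
    rw [add_sub_cancel_right] at h1
    rw [← h1]
    exact ih (by omega)

section Packing

variable {T : Type*}

/-- the node `(n, j)` is good -/
def COGood (b : ℕ → ℤ → T) (m V n j : ℕ) : Prop :=
  ∀ x ∈ Finset.Ico ((2 : ℤ) ^ m * ((j : ℤ) - V)) ((2 : ℤ) ^ m * ((j : ℤ) + 1 + V)),
    b (n + m) x = b (n + m) ((2 : ℤ) ^ m * j)

/-- there is a stop of level `n + m` below the node `(n, j)` -/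
def COHasStop (S : ℕ → ℤ → Prop) (m n j : ℕ) : Prop :=
  ∃ k x, n = k + 1 ∧ x ∈ Finset.Ico ((2 : ℤ) ^ m * j) ((2 : ℤ) ^ m * ((j : ℤ) + 1)) ∧ S (k + m) x

/-- the bad nodes -/
def COGG (b : ℕ → ℤ → T) (S : ℕ → ℤ → Prop) (m V N : ℕ) : Finset Nd :=
  (nodes N).filter (fun p => ¬ COGood b m V p.1 p.2 ∨ COHasStop S m p.1 p.2)

theorem CO_mem_nodes {N : ℕ} {p : Nd} : p ∈ nodes N ↔ p.1 ≤ N ∧ p.2 < 2 ^ p.1 := by
  unfold nodes
  rw [Finset.mem_filter, Finset.mem_product, Finset.mem_range, Finset.mem_range]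
  constructor
  · rintro ⟨⟨h1, -⟩, h2⟩
    exact ⟨by omega, h2⟩
  · rintro ⟨h1, h2⟩
    exact ⟨⟨by omega, h2.trans_le (Nat.pow_le_pow_right (by norm_num) h1)⟩, h2⟩

/-- a bad window contains a jump -/
theorem CO_exists_jump {b : ℕ → ℤ → T} {m V n j : ℕ} (h : ¬ COGood b m V n j) :
    ∃ x, (2 : ℤ) ^ m * ((j : ℤ) - V) < x ∧ x < (2 : ℤ) ^ m * ((j : ℤ) + 1 + V) ∧
      b (n + m) (x - 1) ≠ b (n + m) x := by
  by_contra hc
  push Not at hc
  apply h
  intro x hx
  rw [Finset.mem_Ico] at hx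
  have h2 : (0 : ℤ) < 2 ^ m := by positivity
  rw [CO_const hc hx.1 hx.2, ← CO_const hc (x := (2 : ℤ) ^ m * j)]
  · exact mul_le_mul_of_nonneg_left (by omega) h2.le
  · exact mul_lt_mul_of_pos_left (by omega) h2

theorem CO_pack_A {b : ℕ → ℤ → T} {S : ℕ → ℤ → Prop} (m V N : ℕ) (q : Nd) (i : ℕ) :
    ((((COGG b S m V N).filter (fun p => anc q p)).filter (fun p => p.1 - q.1 = i)).filter
      (fun p => ¬ COGood b m V p.1 p.2)).card ≤ (2 * V + 2) *
      ((Finset.Icc ((2 : ℤ) ^ i * ((2 : ℤ) ^ m * q.2 - ((2 ^ m * (V + 1) : ℕ) : ℤ)))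
        ((2 : ℤ) ^ i * ((2 : ℤ) ^ m * q.2 + 1 + ((2 ^ m * (V + 1) : ℕ) : ℤ)))).filter
        (fun x => b (q.1 + m + i) (x - 1) ≠ b (q.1 + m + i) x)).card := by
  have h2 : (0 : ℤ) < 2 ^ m := by positivity
  have h2i : (1 : ℤ) ≤ 2 ^ i := one_le_pow₀ (by norm_num)
  have hch : ∀ p : Nd, ∃ x : ℤ, ¬ COGood b m V p.1 p.2 →
      ((2 : ℤ) ^ m * ((p.2 : ℤ) - V) < x ∧ x < (2 : ℤ) ^ m * ((p.2 : ℤ) + 1 + V) ∧
      b (p.1 + m) (x - 1) ≠ b (p.1 + m) x) := by
    intro p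
    by_cases hp : COGood b m V p.1 p.2
    · exact ⟨0, fun h => absurd hp h⟩
    · obtain ⟨x, hx⟩ := CO_exists_jump hp
      exact ⟨x, fun _ => hx⟩
  choose X hX using hch
  have hmem : ∀ p, p ∈ (((COGG b S m V N).filter (fun p => anc q p)).filter
      (fun p => p.1 - q.1 = i)).filter (fun p => ¬ COGood b m V p.1 p.2) →
      p.1 = q.1 + i ∧ p.2 / 2 ^ i = q.2 ∧ ¬ COGood b m V p.1 p.2 := by
    intro p hp
    rw [Finset.mem_filter, Finset.mem_filter, Finset.mem_filter] at hp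
    obtain ⟨⟨⟨-, h1, h3⟩, h4⟩, h5⟩ := hp
    refine ⟨by omega, ?_, h5⟩
    rw [h4] at h3
    exact h3
  refine Finset.card_le_mul_card_image_of_maps_to (f := X) ?_ _ ?_
  · intro p hp
    obtain ⟨h1, h3, h5⟩ := hmem p hp
    obtain ⟨hx1, hx2, hx3⟩ := hX p h5
    have e1 : (2 : ℤ) ^ i * q.2 ≤ p.2 := by
      rw [← h3]
      have := Nat.mul_div_le p.2 (2 ^ i)
      exact_mod_cast this
    have e2 : (p.2 : ℤ) + 1 ≤ (2 : ℤ) ^ i * (q.2 + 1) := by
      have := Nat.lt_mul_div_succ p.2 (pow_pos (by norm_num : (0 : ℕ) < 2) i)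
      rw [h3] at this
      exact_mod_cast this
    rw [Finset.mem_filter, Finset.mem_Icc]
    refine ⟨⟨?_, ?_⟩, ?_⟩
    · refine le_trans ?_ hx1.le
      push_cast
      have e3 : (2 : ℤ) ^ i * (2 ^ m * q.2 - 2 ^ m * (V + 1)) =
          2 ^ m * (2 ^ i * q.2 - 2 ^ i * (V + 1)) := by ring
      rw [e3]
      refine mul_le_mul_of_nonneg_left ?_ h2.le
      nlinarith
    · refine le_trans hx2.le ?_
      push_cast
      have e3 : (2 : ℤ) ^ i * (2 ^ m * q.2 + 1 + 2 ^ m * (V + 1)) =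
          2 ^ m * (2 ^ i * (q.2 + 1) + 2 ^ i * V) + 2 ^ i := by ring
      rw [e3]
      have : (2 : ℤ) ^ m * (p.2 + 1 + V) ≤ 2 ^ m * (2 ^ i * (q.2 + 1) + 2 ^ i * V) := by
        refine mul_le_mul_of_nonneg_left ?_ h2.le
        nlinarith
      linarith
    · have : q.1 + m + i = p.1 + m := by omega
      rw [this]
      exact hx3
  · intro x _
    have hinj : ∀ p ∈ ((((COGG b S m V N).filter (fun p => anc q p)).filter
      (fun p => p.1 - q.1 = i)).filter (fun p => ¬ COGood b m V p.1 p.2)).filter (fun p => X p = x),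
      (p.2 : ℤ) ∈ Finset.Icc (x / 2 ^ m - V) (x / 2 ^ m + V) := by
      intro p hp
      rw [Finset.mem_filter] at hp
      obtain ⟨h1, h3, h5⟩ := hmem p hp.1
      obtain ⟨hx1, hx2, hx3⟩ := hX p h5
      rw [hp.2] at hx1 hx2
      rw [Finset.mem_Icc]
      have g1 : (p.2 : ℤ) - V ≤ x / 2 ^ m := by
        rw [Int.le_ediv_iff_mul_le h2]
        linarith
      have g2 : x / 2 ^ m < (p.2 : ℤ) + 1 + V := by
        rw [Int.ediv_lt_iff_lt_mul h2]
        linarith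
      constructor <;> omega
    have := Finset.card_le_card_of_injOn (fun p : Nd => (p.2 : ℤ)) hinj (by
      intro p hp p' hp' he
      have hp := hp
      rw [Finset.mem_coe, Finset.mem_filter] at hp hp'
      obtain ⟨h1, -, -⟩ := hmem p hp.1
      obtain ⟨h1', -, -⟩ := hmem p' hp'.1
      have he' : (p.2 : ℤ) = p'.2 := he
      exact Prod.ext (by omega) (by exact_mod_cast he'))
    refine this.trans ?_
    rw [Int.card_Icc]
    omega

theorem CO_pack_B {b : ℕ → ℤ → T} {S : ℕ → ℤ → Prop} (m V N : ℕ) (q : Nd) (i : ℕ) :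
    ((((COGG b S m V N).filter (fun p => anc q p)).filter (fun p => p.1 - q.1 = i + 1)).filter
      (fun p => COHasStop S m p.1 p.2)).card ≤
      ∑ I ∈ Finset.Ico ((2 : ℤ) ^ m * q.2) ((2 : ℤ) ^ m * (q.2 + 1)),
        ((Finset.Ico ((2 : ℤ) ^ (i + 1) * I) ((2 : ℤ) ^ (i + 1) * (I + 1))).filter
          (S (q.1 + m + i))).card := by
  have h2 : (0 : ℤ) < 2 ^ m := by positivity
  have h2i : (0 : ℤ) < 2 ^ (i + 1) := by positivity
  have hch : ∀ p : Nd, ∃ x : ℤ, COHasStop S m p.1 p.2 →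
      (x ∈ Finset.Ico ((2 : ℤ) ^ m * p.2) ((2 : ℤ) ^ m * ((p.2 : ℤ) + 1)) ∧ S (p.1 - 1 + m) x) := by
    intro p
    by_cases hp : COHasStop S m p.1 p.2
    · obtain ⟨k, x, hk, hx, hs⟩ := hp
      refine ⟨x, fun _ => ⟨hx, ?_⟩⟩
      have : p.1 - 1 + m = k + m := by omega
      rw [this]
      exact hs
    · exact ⟨0, fun h => absurd h hp⟩
  choose X hX using hch
  have hmem : ∀ p, p ∈ (((COGG b S m V N).filter (fun p => anc q p)).filter
      (fun p => p.1 - q.1 = i + 1)).filter (fun p => COHasStop S m p.1 p.2) →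
      p.1 = q.1 + (i + 1) ∧ p.2 / 2 ^ (i + 1) = q.2 ∧ COHasStop S m p.1 p.2 := by
    intro p hp
    rw [Finset.mem_filter, Finset.mem_filter, Finset.mem_filter] at hp
    obtain ⟨⟨⟨-, h1, h3⟩, h4⟩, h5⟩ := hp
    refine ⟨by omega, ?_, h5⟩
    rw [h4] at h3
    exact h3
  refine le_trans (Finset.card_le_card_of_injOn X ?_ ?_) Finset.card_biUnion_le
  · intro p hp
    obtain ⟨h1, h3, h5⟩ := hmem p hp
    obtain ⟨hx1, hx2⟩ := hX p h5
    rw [Finset.mem_Ico] at hx1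
    have e1 : (2 : ℤ) ^ (i + 1) * q.2 ≤ p.2 := by
      rw [← h3]
      have := Nat.mul_div_le p.2 (2 ^ (i + 1))
      exact_mod_cast this
    have e2 : (p.2 : ℤ) + 1 ≤ (2 : ℤ) ^ (i + 1) * (q.2 + 1) := by
      have := Nat.lt_mul_div_succ p.2 (pow_pos (by norm_num : (0 : ℕ) < 2) (i + 1))
      rw [h3] at this
      exact_mod_cast this
    rw [Finset.mem_coe, Finset.mem_biUnion]
    refine ⟨X p / 2 ^ (i + 1), ?_, ?_⟩
    · rw [Finset.mem_Ico]
      constructor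
      · rw [Int.le_ediv_iff_mul_le h2i]
        have : (2 : ℤ) ^ m * q.2 * 2 ^ (i + 1) = 2 ^ m * (2 ^ (i + 1) * q.2) := by ring
        rw [this]
        exact (mul_le_mul_of_nonneg_left e1 h2.le).trans hx1.1
      · rw [Int.ediv_lt_iff_lt_mul h2i]
        have : (2 : ℤ) ^ m * ((q.2 : ℤ) + 1) * 2 ^ (i + 1) = 2 ^ m * (2 ^ (i + 1) * (q.2 + 1)) := by
          ring
        rw [this]
        exact hx1.2.trans_le (mul_le_mul_of_nonneg_left e2 h2.le)
    · rw [Finset.mem_filter, Finset.mem_Ico]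
      refine ⟨⟨?_, ?_⟩, ?_⟩
      · exact Int.mul_ediv_self_le h2i.ne'
      · exact Int.lt_mul_ediv_self_add h2i |>.trans_eq (by ring)
      · have : q.1 + m + i = p.1 - 1 + m := by omega
        rw [this]
        exact hx2
  · intro p hp p' hp' he
    obtain ⟨h1, -, h5⟩ := hmem p hp
    obtain ⟨h1', -, h5'⟩ := hmem p' hp'
    obtain ⟨hx1, -⟩ := hX p h5
    obtain ⟨hx1', -⟩ := hX p' h5'
    rw [Finset.mem_Ico] at hx1 hx1'
    rw [← he] at hx1'
    have g1 : X p / 2 ^ m = p.2 := by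
      apply le_antisymm
      · have := (Int.ediv_lt_iff_lt_mul h2 (a := X p) (b := (p.2 : ℤ) + 1)).2 (by linarith [hx1.2])
        omega
      · exact (Int.le_ediv_iff_mul_le h2).2 (by linarith [hx1.1])
    have g2 : X p / 2 ^ m = p'.2 := by
      apply le_antisymm
      · have := (Int.ediv_lt_iff_lt_mul h2 (a := X p) (b := (p'.2 : ℤ) + 1)).2 (by linarith [hx1'.2])
        omega
      · exact (Int.le_ediv_iff_mul_le h2).2 (by linarith [hx1'.1])
    exact Prod.ext (by omega) (by exact_mod_cast g1.symm.trans g2)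

/-- packing constant -/
def CO_M (m V : ℕ) (Q : ℝ) : ℝ :=
  1 + (2 * V + 2) * ((4 * (2 ^ m * (V + 1)) + 4) + 4 * (2 * (2 ^ m * (V + 1)) + 1) * Q) + 2 ^ m * Q

theorem CO_GG_pack {b : ℕ → ℤ → T} {S : ℕ → ℤ → Prop} {Q : ℝ}
    (hb : ∀ l I, ¬ S l I → b (l + 1) I = b l (I / 2))
    (hS : ∀ (l : ℕ) (I : ℤ) (d : ℕ), ∑ j ∈ Finset.range d, (1 / 2 : ℝ) ^ (j + 1) *
      (((Finset.Ico (2 ^ (j + 1) * I) (2 ^ (j + 1) * (I + 1))).filter (S (l + j))).card : ℝ) ≤ Q)
    (m V N : ℕ) : Pack (CO_M m V Q) (COGG b S m V N) := by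
  constructor
  · intro p hp
    unfold COGG at hp
    rw [Finset.mem_filter, CO_mem_nodes] at hp
    exact hp.1.2
  · intro q hq
    set G' := (COGG b S m V N).filter (fun p => anc q p) with hG'
    have hmaps : ∀ p ∈ G', p.1 - q.1 ∈ Finset.range (N + 1) := by
      intro p hp
      rw [hG', Finset.mem_filter] at hp
      have h1 := hp.1
      unfold COGG at h1
      rw [Finset.mem_filter, CO_mem_nodes] at h1
      rw [Finset.mem_range]
      omega
    have hlen : ∀ i, ∀ p ∈ G'.filter (fun p => p.1 - q.1 = i), len p = len q * (1 / 2) ^ i := by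
      intro i p hp
      rw [Finset.mem_filter, hG', Finset.mem_filter] at hp
      have h1 := hp.1.2.1
      unfold len
      rw [← pow_add]
      congr 1
      omega
    rw [← Finset.sum_fiberwise_of_maps_to hmaps]
    have hfib : ∀ i ∈ Finset.range (N + 1), ∑ p ∈ G'.filter (fun p => p.1 - q.1 = i), len p =
        len q * ((1 / 2) ^ i * ((G'.filter (fun p => p.1 - q.1 = i)).card : ℝ)) := by
      intro i _
      rw [Finset.sum_congr rfl (hlen i), Finset.sum_const, nsmul_eq_mul]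
      ring
    rw [Finset.sum_congr rfl hfib, ← Finset.mul_sum, mul_comm _ (len q)]
    have hlq : 0 ≤ len q := by unfold len; positivity
    refine mul_le_mul_of_nonneg_left ?_ hlq
    rw [Finset.sum_range_succ']
    -- the zeroth term
    have h0 : ((G'.filter (fun p => p.1 - q.1 = 0)).card : ℝ) ≤ 1 := by
      have : G'.filter (fun p => p.1 - q.1 = 0) ⊆ {q} := by
        intro p hp
        rw [Finset.mem_filter, hG', Finset.mem_filter] at hp
        obtain ⟨⟨-, h1, h3⟩, h4⟩ := hp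
        rw [h4, pow_zero, Nat.div_one] at h3
        rw [Finset.mem_singleton]
        exact Prod.ext (by omega) h3
      have := Finset.card_le_card this
      rw [Finset.card_singleton] at this
      exact_mod_cast this
    -- the other terms
    set A : ℕ → ℝ := fun i => ((((Finset.Icc ((2 : ℤ) ^ i * ((2 : ℤ) ^ m * q.2 - ((2 ^ m * (V + 1) : ℕ) : ℤ)))
        ((2 : ℤ) ^ i * ((2 : ℤ) ^ m * q.2 + 1 + ((2 ^ m * (V + 1) : ℕ) : ℤ)))).filter
        (fun x => b (q.1 + m + i) (x - 1) ≠ b (q.1 + m + i) x)).card : ℕ) : ℝ) with hA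
    set B : ℕ → ℝ := fun i => ∑ I ∈ Finset.Ico ((2 : ℤ) ^ m * q.2) ((2 : ℤ) ^ m * (q.2 + 1)),
        (((((Finset.Ico ((2 : ℤ) ^ (i + 1) * I) ((2 : ℤ) ^ (i + 1) * (I + 1))).filter
          (S (q.1 + m + i))).card : ℕ) : ℝ)) with hB
    have hi : ∀ i, ((G'.filter (fun p => p.1 - q.1 = i + 1)).card : ℝ) ≤
        (2 * V + 2) * A (i + 1) + B i := by
      intro i
      have h1 := CO_pack_A (b := b) (S := S) m V N q (i + 1)
      have h2 := CO_pack_B (b := b) (S := S) m V N q i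
      have h3 : (G'.filter (fun p => p.1 - q.1 = i + 1)).card ≤
          ((G'.filter (fun p => p.1 - q.1 = i + 1)).filter (fun p => ¬ COGood b m V p.1 p.2)).card +
          ((G'.filter (fun p => p.1 - q.1 = i + 1)).filter (fun p => COHasStop S m p.1 p.2)).card := by
        rw [← Nat.add_zero (G'.filter (fun p => p.1 - q.1 = i + 1)).card, Nat.add_zero]
        refine le_trans (Finset.card_le_card ?_) (Finset.card_union_le _ _)
        intro p hp
        have hp' := hp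
        rw [Finset.mem_filter, hG', Finset.mem_filter] at hp'
        have h4 := hp'.1.1
        unfold COGG at h4
        rw [Finset.mem_filter] at h4
        rw [Finset.mem_union]
        rcases h4.2 with h5 | h5
        · exact Or.inl (Finset.mem_filter.2 ⟨hp, h5⟩)
        · exact Or.inr (Finset.mem_filter.2 ⟨hp, h5⟩)
      have h4 : ((G'.filter (fun p => p.1 - q.1 = i + 1)).card : ℝ) ≤
          (((2 * V + 2) * ((Finset.Icc ((2 : ℤ) ^ (i + 1) * ((2 : ℤ) ^ m * q.2 - ((2 ^ m * (V + 1) : ℕ) : ℤ)))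
        ((2 : ℤ) ^ (i + 1) * ((2 : ℤ) ^ m * q.2 + 1 + ((2 ^ m * (V + 1) : ℕ) : ℤ)))).filter
        (fun x => b (q.1 + m + (i + 1)) (x - 1) ≠ b (q.1 + m + (i + 1)) x)).card +
          ∑ I ∈ Finset.Ico ((2 : ℤ) ^ m * q.2) ((2 : ℤ) ^ m * (q.2 + 1)),
        ((Finset.Ico ((2 : ℤ) ^ (i + 1) * I) ((2 : ℤ) ^ (i + 1) * (I + 1))).filter
          (S (q.1 + m + i))).card : ℕ) : ℝ) := by
        exact_mod_cast h3.trans (add_le_add h1 h2)
      rw [hA, hB]
      push_cast at h4 ⊢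
      exact h4
    have hjump := jump_pack hb hS (q.1 + m) ((2 : ℤ) ^ m * q.2) (2 ^ m * (V + 1)) (N + 1)
    have hA' : ∑ i ∈ Finset.range N, (1 / 2 : ℝ) ^ (i + 1) * A (i + 1) ≤
        (4 * (2 ^ m * (V + 1)) + 4) + 4 * (2 * (2 ^ m * (V + 1)) + 1) * Q := by
      rw [Finset.sum_range_succ'] at hjump
      push_cast at hjump
      have : 0 ≤ (1 / 2 : ℝ) ^ 0 * A 0 := by rw [hA]; positivity
      rw [hA] at this ⊢
      push_cast at this ⊢
      linarith
    have hB' : ∑ i ∈ Finset.range N, (1 / 2 : ℝ) ^ (i + 1) * B i ≤ 2 ^ m * Q := by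
      rw [hB]
      simp_rw [Finset.mul_sum]
      rw [Finset.sum_comm]
      refine (Finset.sum_le_card_nsmul _ _ Q fun I _ => hS (q.1 + m) I N).trans ?_
      rw [Int.card_Ico, nsmul_eq_mul]
      have : ((2 : ℤ) ^ m * ((q.2 : ℤ) + 1) - (2 : ℤ) ^ m * q.2).toNat = 2 ^ m := by
        have e : (2 : ℤ) ^ m * ((q.2 : ℤ) + 1) - (2 : ℤ) ^ m * q.2 = ((2 ^ m : ℕ) : ℤ) := by
          push_cast; ring
        rw [e, Int.toNat_natCast]
      rw [this]
      push_cast
      exact le_rfl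
    calc ∑ i ∈ Finset.range N, (1 / 2 : ℝ) ^ (i + 1) *
            ((G'.filter (fun p => p.1 - q.1 = i + 1)).card : ℝ) +
          (1 / 2 : ℝ) ^ 0 * ((G'.filter (fun p => p.1 - q.1 = 0)).card : ℝ)
        ≤ ∑ i ∈ Finset.range N, (1 / 2 : ℝ) ^ (i + 1) * ((2 * V + 2) * A (i + 1) + B i) + 1 := by
          refine add_le_add (Finset.sum_le_sum fun i _ => ?_) (by rw [pow_zero, one_mul]; exact h0)
          exact mul_le_mul_of_nonneg_left (hi i) (by positivity)
      _ = (2 * V + 2) * ∑ i ∈ Finset.range N, (1 / 2 : ℝ) ^ (i + 1) * A (i + 1) +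
            ∑ i ∈ Finset.range N, (1 / 2 : ℝ) ^ (i + 1) * B i + 1 := by
          rw [Finset.mul_sum, ← Finset.sum_add_distrib]
          congr 1
          refine Finset.sum_congr rfl fun i _ => ?_
          ring
      _ ≤ CO_M m V Q := by
          unfold CO_M
          have : (2 * (V : ℝ) + 2) * ∑ i ∈ Finset.range N, (1 / 2 : ℝ) ^ (i + 1) * A (i + 1) ≤
            (2 * V + 2) * ((4 * (2 ^ m * (V + 1)) + 4) + 4 * (2 * (2 ^ m * (V + 1)) + 1) * Q) :=
            mul_le_mul_of_nonneg_left hA' (by positivity)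
          linarith

theorem CO_adjG_lab {T' : Type*} {b : ℕ → ℤ → T} {S : ℕ → ℤ → Prop}
    (hb : ∀ l I, ¬ S l I → b (l + 1) I = b l (I / 2)) {m V N : ℕ} (hm : 1 ≤ m) (hV : 1 ≤ V)
    {lab : ℕ → ℕ → ℕ → T'} {q : T → T'}
    (hlab : ∀ n a b', COGood b m V n (a / 2 ^ m) →
      lab n a b' = q (b (n + m) ((2 : ℤ) ^ m * ((a / 2 ^ m : ℕ) : ℤ)))) :
    AdjG m N lab (COGG b S m V N) := by
  have hin : ∀ n a : ℕ, n ≤ N → a < 2 ^ (n + m) → (n, a / 2 ^ m) ∉ COGG b S m V N →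
      COGood b m V n (a / 2 ^ m) ∧ ¬ COHasStop S m n (a / 2 ^ m) := by
    intro n a hn ha hG
    unfold COGG at hG
    rw [Finset.mem_filter, CO_mem_nodes] at hG
    have h1 : a / 2 ^ m < 2 ^ n := by
      rw [Nat.div_lt_iff_lt_mul (by positivity), ← pow_add]
      exact ha
    by_contra hc
    apply hG
    refine ⟨⟨hn, h1⟩, ?_⟩
    by_contra hc'
    push Not at hc'
    exact hc ⟨hc'.1, hc'.2⟩
  have h2 : (0 : ℤ) < 2 ^ m := by positivity
  constructor
  · intro n hn a b' ha hb' hne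
    by_contra hc
    push Not at hc
    obtain ⟨g1, -⟩ := hin n a hn (by omega) hc.1
    obtain ⟨g2, -⟩ := hin n (a + 1) hn ha hc.2
    apply hne
    rw [hlab n a b' g1, hlab n (a + 1) b' g2]
    have h3 : (a + 1) / 2 ^ m = a / 2 ^ m ∨ (a + 1) / 2 ^ m = a / 2 ^ m + 1 := by
      have h4 := Nat.succ_div (a := a) (b := 2 ^ m)
      by_cases h5 : 2 ^ m ∣ a + 1
      · rw [if_pos h5] at h4
        exact Or.inr h4
      · rw [if_neg h5, add_zero] at h4
        exact Or.inl h4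
    rcases h3 with h3 | h3
    · rw [h3]
    · rw [h3]
      congr 1
      symm
      apply g1
      rw [Finset.mem_Ico]
      push_cast
      constructor
      · exact mul_le_mul_of_nonneg_left (by linarith) h2.le
      · refine mul_lt_mul_of_pos_left ?_ h2
        have : (1 : ℤ) ≤ V := by exact_mod_cast hV
        linarith
  · intro n hn a b' ha hb' hne
    by_contra hc
    obtain ⟨g1, -⟩ := hin n a hn ha hc
    exact hne (by rw [hlab n a b' g1, hlab n a (b' + 1) g1])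
  · intro n hn a ha hne
    by_contra hc
    push Not at hc
    obtain ⟨g1, g1'⟩ := hin (n + 1) a hn ha hc.1
    obtain ⟨g2, -⟩ := hin n (a / 2) (by omega) (by
      rw [Nat.div_lt_iff_lt_mul (by norm_num)]
      calc a < 2 ^ (n + 1 + m) := ha
        _ = 2 ^ (n + m) * 2 := by ring) hc.2
    apply hne
    rw [hlab (n + 1) a _ g1, hlab n (a / 2) _ g2]
    congr 1
    set j' := a / 2 ^ m with hj'
    have hj : a / 2 / 2 ^ m = j' / 2 := by
      rw [hj', Nat.div_div_eq_div_mul, Nat.div_div_eq_div_mul, mul_comm]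
    rw [hj] at g2 ⊢
    have e1 : b (n + 1 + m) ((2 : ℤ) ^ m * (j' : ℤ)) = b (n + m) ((2 : ℤ) ^ m * (j' : ℤ) / 2) := by
      have hns : ¬ S (n + m) ((2 : ℤ) ^ m * (j' : ℤ)) := by
        intro hs
        apply g1'
        refine ⟨n, (2 : ℤ) ^ m * (j' : ℤ), rfl, ?_, hs⟩
        rw [Finset.mem_Ico]
        exact ⟨le_rfl, mul_lt_mul_of_pos_left (by linarith) h2⟩
      have := hb (n + m) _ hns
      rw [← this]
      congr 1
      ring
    rw [e1]
    apply g2
    obtain ⟨m', rfl⟩ : ∃ m', m = m' + 1 := ⟨m - 1, by omega⟩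
    have e2 : (2 : ℤ) ^ (m' + 1) * (j' : ℤ) / 2 = 2 ^ m' * j' := by
      rw [pow_succ, mul_comm ((2 : ℤ) ^ m') 2, mul_assoc, Int.mul_ediv_cancel_left _ (by norm_num)]
    rw [e2, Finset.mem_Ico]
    have h3 : 2 * (j' / 2) ≤ j' ∧ j' ≤ 2 * (j' / 2) + 1 := by omega
    have h4 : (2 : ℤ) * ((j' / 2 : ℕ) : ℤ) ≤ j' := by exact_mod_cast h3.1
    have h5 : (j' : ℤ) ≤ 2 * ((j' / 2 : ℕ) : ℤ) + 1 := by exact_mod_cast h3.2
    have h6 : (0 : ℤ) < 2 ^ m' := by positivity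
    have h7 : (1 : ℤ) ≤ V := by exact_mod_cast hV
    constructor
    · calc (2 : ℤ) ^ (m' + 1) * (((j' / 2 : ℕ) : ℤ) - V) = 2 ^ m' * (2 * ((j' / 2 : ℕ) : ℤ) - 2 * V) := by
            ring
        _ ≤ 2 ^ m' * j' := mul_le_mul_of_nonneg_left (by linarith) h6.le
    · calc (2 : ℤ) ^ m' * j' < 2 ^ m' * (2 * ((j' / 2 : ℕ) : ℤ) + 2 + 2 * V) :=
            mul_lt_mul_of_pos_left (by linarith) h6
        _ = (2 : ℤ) ^ (m' + 1) * (((j' / 2 : ℕ) : ℤ) + 1 + V) := by ring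

end Packing

/-! ### cells and boxes -/

theorem CO_cell_sub_box {m n a b : ℕ} (hb : b < 2 ^ m) : cell m n a b ⊆ box (n, a / 2 ^ m) := by
  intro z hz
  obtain ⟨h1, h2, h3, h4⟩ := hz
  have hcs : (1 / 2 : ℝ) ^ n = 2 ^ m * cs m n := by
    unfold cs
    rw [pow_add]
    have : (2 : ℝ) ^ m * (1 / 2) ^ m = 1 := by rw [← mul_pow]; norm_num
    calc (1 / 2 : ℝ) ^ n = (1 / 2) ^ n * ((2 : ℝ) ^ m * (1 / 2) ^ m) := by rw [this, mul_one]
      _ = _ := by ring
  have hpos : 0 < cs m n := by unfold cs; positivity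
  have e1 : (((a / 2 ^ m : ℕ) : ℝ)) * 2 ^ m ≤ a := by
    exact_mod_cast Nat.div_mul_le_self a (2 ^ m)
  have e2 : (a : ℝ) + 1 ≤ (((a / 2 ^ m : ℕ) : ℝ) + 1) * 2 ^ m := by
    have := Nat.lt_div_mul_add (a := a) (b := 2 ^ m) (by positivity)
    have h : a + 1 ≤ (a / 2 ^ m + 1) * 2 ^ m := by
      rw [add_mul, one_mul]; exact this
    exact_mod_cast h
  have e3 : (b : ℝ) + 1 ≤ 2 ^ m := by exact_mod_cast hb
  have hl : len (n, a / 2 ^ m) = 2 ^ m * cs m n := hcs
  refine ⟨?_, ?_, ?_, ?_⟩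
  · show (((a / 2 ^ m : ℕ) : ℝ)) * len (n, a / 2 ^ m) ≤ z.re
    rw [hl]
    calc (((a / 2 ^ m : ℕ) : ℝ)) * (2 ^ m * cs m n) = (((a / 2 ^ m : ℕ) : ℝ)) * 2 ^ m * cs m n := by ring
      _ ≤ a * cs m n := mul_le_mul_of_nonneg_right e1 hpos.le
      _ ≤ z.re := h1
  · show z.re ≤ ((((a / 2 ^ m : ℕ) : ℝ)) + 1) * len (n, a / 2 ^ m)
    rw [hl]
    calc z.re ≤ (a + 1) * cs m n := h2
      _ ≤ ((((a / 2 ^ m : ℕ) : ℝ)) + 1) * 2 ^ m * cs m n := mul_le_mul_of_nonneg_right e2 hpos.le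
      _ = _ := by ring
  · show len (n, a / 2 ^ m) ≤ z.im
    refine le_trans ?_ h3
    show (1 / 2 : ℝ) ^ n ≤ _
    have : 0 ≤ (b : ℝ) * cs m n := by positivity
    linarith
  · show z.im ≤ 2 * len (n, a / 2 ^ m)
    refine h4.trans ?_
    show _ ≤ 2 * (1 / 2 : ℝ) ^ n
    have : ((b : ℝ) + 1) * cs m n ≤ 2 ^ m * cs m n := mul_le_mul_of_nonneg_right e3 hpos.le
    rw [← hcs] at this
    linarith

theorem CO_cc_mem_cell (m n a b : ℕ) : cc m n a b ∈ cell m n a b := by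
  have hpos : 0 < cs m n := by unfold cs; positivity
  refine ⟨le_rfl, ?_, le_rfl, ?_⟩
  · show (a : ℝ) * cs m n ≤ ((a : ℝ) + 1) * cs m n
    nlinarith
  · show (1 / 2 : ℝ) ^ n + (b : ℝ) * cs m n ≤ (1 / 2) ^ n + ((b : ℝ) + 1) * cs m n
    nlinarith

theorem CO_cell_sub_HP {m n a b : ℕ} : cell m n a b ⊆ HP := by
  intro z hz
  obtain ⟨-, -, h3, -⟩ := hz
  have hpos : 0 < cs m n := by unfold cs; positivity
  show 0 < z.im
  have : (0 : ℝ) < (1 / 2) ^ n := by positivity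
  have : 0 ≤ (b : ℝ) * cs m n := by positivity
  linarith

theorem contour_multi (r : ℕ) {ρ : ℝ} (hρ : 0 < ρ) :
    ∃ (m : ℕ) (M : ℝ) (L : Finset (Fin r → ℂ)), 0 ≤ M ∧
      ∀ h : Fin r → ℂ → ℂ, (∀ i, Unit1 (h i)) → ∀ N : ℕ,
        ∃ (lab : ℕ → ℕ → ℕ → (Fin r → ℂ)) (G : Finset Nd), Pack M G ∧ AdjG m N lab G ∧
          ∀ n ≤ N, ∀ a < 2 ^ (n + m), ∀ b < 2 ^ m, lab n a b ∈ L ∧
            ∀ z ∈ cell m n a b, ∀ i, ‖h i z - lab n a b i‖ < ρ := by
  set K : ℝ := (r : ℝ) + 1 with hK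
  have hK0 : 0 < K := by positivity
  set ε : ℝ := ρ / 8 with hε
  have hε0 : 0 < ε := by positivity
  obtain ⟨m, hm⟩ := pow_unbounded_of_one_lt (160 * K / ρ + 8) (by norm_num : (1 : ℝ) < 2)
  obtain ⟨V, hV⟩ := exists_nat_gt (112 * K / ρ + 5)
  obtain ⟨L, q, hq⟩ := CO_net r hK0.le (half_pos hρ)
  have hm8 : (8 : ℝ) < 2 ^ m := by
    have : 0 < 160 * K / ρ := by positivity
    linarith
  have hm1 : 1 ≤ m := by
    by_contra hc
    have : m = 0 := by omega
    rw [this, pow_zero] at hm8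
    norm_num at hm8
  have hV5 : 5 ≤ V := by
    have : 0 < 112 * K / ρ := by positivity
    have : (5 : ℝ) < V := by linarith
    have : 5 < V := by exact_mod_cast this
    omega
  have hVpos : (0 : ℝ) < V := by
    have : (5 : ℝ) ≤ V := by exact_mod_cast hV5
    linarith
  have h2m : (0 : ℝ) < 2 ^ m := by positivity
  have b1 : K / 2 ^ m ≤ ρ / 160 := by
    rw [div_le_div_iff₀ h2m (by norm_num)]
    have : 160 * K / ρ < 2 ^ m := by linarith
    rw [div_lt_iff₀ hρ] at this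
    linarith
  have b2 : K / V ≤ ρ / 112 := by
    rw [div_le_div_iff₀ hVpos (by norm_num)]
    have : 112 * K / ρ < V := by linarith
    rw [div_lt_iff₀ hρ] at this
    linarith
  set Q : ℝ := (2 * K) ^ 2 / ε ^ 2 with hQ
  have hQ0 : 0 ≤ Q := by positivity
  refine ⟨m, CO_M m V Q, L, ?_, ?_⟩
  · unfold CO_M; positivity
  intro h hh N
  set F : ℂ → EuclideanSpace ℂ (Fin r) := fun z => WithLp.toLp 2 (fun i => h i z) with hF
  have hFd : DifferentiableOn ℂ F HP := by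
    rw [differentiableOn_euclidean]
    intro i
    exact (hh i).1
  have hFK : ∀ z ∈ HP, ‖F z‖ ≤ K := by
    intro z hz
    rw [EuclideanSpace.norm_eq]
    have h1 : ∑ i, ‖(F z) i‖ ^ 2 ≤ r := by
      calc ∑ i, ‖(F z) i‖ ^ 2 ≤ ∑ _i : Fin r, (1 : ℝ) := by
            refine Finset.sum_le_sum fun i _ => ?_
            exact pow_le_one₀ (norm_nonneg _) ((hh i).2 z hz)
        _ = r := by simp
    rw [Real.sqrt_le_left hK0.le]
    refine h1.trans ?_
    rw [hK]
    have : (0 : ℝ) ≤ r := Nat.cast_nonneg r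
    nlinarith
  set η : ℝ := (1 / 2) ^ N / 4 with hη
  have hη0 : 0 < η := by positivity
  set av : ℕ → ℤ → EuclideanSpace ℂ (Fin r) := avl η F with hav
  have hmart := avl_mart hFd hη0
  have hbd := norm_avl_le hFK hη0
  set bb : ℕ → ℤ → EuclideanSpace ℂ (Fin r) := stp ε av with hbb
  have hb : ∀ l I, ¬ StopS ε av l I → bb (l + 1) I = bb l (I / 2) := fun l I hs =>
    stp_of_not_stop hs
  have hS := stop_pack hε0 hmart hbd
  set lab : ℕ → ℕ → ℕ → (Fin r → ℂ) := fun n a b =>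
    if COGood bb m V n (a / 2 ^ m) then q (fun i => bb (n + m) ((2 : ℤ) ^ m * ((a / 2 ^ m : ℕ) : ℤ)) i)
    else q (fun i => h i (cc m n a b)) with hlab
  refine ⟨lab, COGG bb (StopS ε av) m V N, CO_GG_pack hb hS m V N, ?_, ?_⟩
  · refine CO_adjG_lab (q := fun v : EuclideanSpace ℂ (Fin r) => q (fun i => v i)) hb hm1 (by omega) ?_
    intro n a b' hg
    rw [hlab]
    simp only [if_pos hg]
  · intro n hn a ha b' hb'
    by_cases hg : COGood bb m V n (a / 2 ^ m)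
    · have hl : lab n a b' = q (fun i => bb (n + m) ((2 : ℤ) ^ m * ((a / 2 ^ m : ℕ) : ℤ)) i) := by
        rw [hlab]
        simp only [if_pos hg]
      set c : EuclideanSpace ℂ (Fin r) := bb (n + m) ((2 : ℤ) ^ m * ((a / 2 ^ m : ℕ) : ℤ)) with hc
      have hcK : ‖c‖ ≤ K := norm_stp_le hbd _ _
      obtain ⟨q1, q2⟩ := hq (fun i => c i) (fun i => (PiLp.norm_apply_le c i).trans hcK)
      rw [hl]
      refine ⟨q1, fun z hz i => ?_⟩
      have hη' : η ≤ (1 / 2) ^ n / 4 := by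
        rw [hη]
        have : (1 / 2 : ℝ) ^ N ≤ (1 / 2) ^ n := pow_le_pow_of_le_one (by norm_num) (by norm_num) hn
        linarith
      have hav' : ∀ I' ∈ Finset.Ico ((2 : ℤ) ^ m * (((a / 2 ^ m : ℕ) : ℤ) - V))
          ((2 : ℤ) ^ m * (((a / 2 ^ m : ℕ) : ℤ) + 1 + V)), ‖avl η F (n + m) I' - c‖ ≤ ε := by
        intro I' hI'
        have h1 := hg I' hI'
        rw [hc, ← h1]
        exact norm_sub_stp_le hε0.le av _ _
      have h1 := good_apx hFd hFK hcK hη0 hη' hV5 hε0.le hav' (CO_cell_sub_box hb' hz)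
      have h2 : ‖h i z - c i‖ ≤ ‖F z - c‖ := PiLp.norm_apply_le (F z - c) i
      have h3 : (1 + 5 / 2 ^ m) * ε ≤ 2 * ε := by
        have : 5 / (2 : ℝ) ^ m ≤ 1 := by
          rw [div_le_one h2m]; linarith
        nlinarith
      have h4 : 10 * K / 2 ^ m = 10 * (K / 2 ^ m) := by ring
      have h5 : 7 * K / V = 7 * (K / V) := by ring
      rw [h4, h5] at h1
      calc ‖h i z - q (fun i => c i) i‖ = ‖(h i z - c i) + (c i - q (fun i => c i) i)‖ := by
            congr 1; ring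
        _ ≤ ‖h i z - c i‖ + ‖c i - q (fun i => c i) i‖ := norm_add_le _ _
        _ < ρ := by
          have := q2 i
          linarith
    · have hl : lab n a b' = q (fun i => h i (cc m n a b')) := by
        rw [hlab]
        simp only [if_neg hg]
      have hcc := CO_cc_mem_cell m n a b'
      have hccHP := CO_cell_sub_HP hcc
      have h1K : (1 : ℝ) ≤ K := by
        rw [hK]
        have : (0 : ℝ) ≤ r := Nat.cast_nonneg r
        linarith
      obtain ⟨q1, q2⟩ := hq (fun i => h i (cc m n a b')) (fun i => ((hh i).2 _ hccHP).trans h1K)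
      rw [hl]
      refine ⟨q1, fun z hz i => ?_⟩
      have h1 := osc_cell hFd hFK hz hcc
      have h2 : ‖h i z - h i (cc m n a b')‖ ≤ ‖F z - F (cc m n a b')‖ :=
        PiLp.norm_apply_le (F z - F (cc m n a b')) i
      have h4 : 2 * K / 2 ^ m = 2 * (K / 2 ^ m) := by ring
      rw [h4] at h1
      calc ‖h i z - q (fun i => h i (cc m n a b')) i‖ =
            ‖(h i z - h i (cc m n a b')) +
              (h i (cc m n a b') - q (fun i => h i (cc m n a b')) i)‖ := by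
            congr 1; ring
        _ ≤ ‖h i z - h i (cc m n a b')‖ +
              ‖h i (cc m n a b') - q (fun i => h i (cc m n a b')) i‖ := norm_add_le _ _
        _ < ρ := by
          have := q2 i
          linarith

end

end Cor
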