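import Pool.Agent.helper30.Cor.Contour

/-!
# Corona project: `ε`-approximation of Hilbert space valued functions (module CO-ContourH)

Same proof as `contour_multi`, without the net: the labels are the values of the stopped martingale
(good boxes) or the values of `F` at the corners of the cells (bad boxes).
-/

namespace Cor

open Set
open scoped Classical

noncomputable section

theorem contour_hilb {E : Type*} [NormedAddCommGroup E] [InnerProductSpace ℂ E] [CompleteSpace E]
    {ρ : ℝ} (hρ : 0 < ρ) {K : ℝ} (hK : 0 ≤ K) :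
    ∃ (m : ℕ) (M : ℝ), 0 ≤ M ∧
      ∀ F : ℂ → E, DifferentiableOn ℂ F HP → (∀ z ∈ HP, ‖F z‖ ≤ K) → ∀ N : ℕ,
        ∃ (lab : ℕ → ℕ → ℕ → E) (G : Finset Nd), Pack M G ∧ AdjG m N lab G ∧
          ∀ n ≤ N, ∀ a < 2 ^ (n + m), ∀ b < 2 ^ m, ∀ z ∈ cell m n a b, ‖F z - lab n a b‖ < ρ := by
  wlog hK0 : 0 < K generalizing K with H
  · obtain ⟨m, M, hM, hm⟩ := H zero_le_one one_pos
    refine ⟨m, M, hM, fun F hF hFK N => hm F hF (fun z hz => ?_) N⟩
    exact (hFK z hz).trans ((not_lt.1 hK0).trans zero_le_one)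
  set ε : ℝ := ρ / 8 with hε
  have hε0 : 0 < ε := by positivity
  obtain ⟨m, hm⟩ := pow_unbounded_of_one_lt (160 * K / ρ + 8) (by norm_num : (1 : ℝ) < 2)
  obtain ⟨V, hV⟩ := exists_nat_gt (112 * K / ρ + 5)
  have hm8 : (8 : ℝ) < 2 ^ m := by
    have : 0 < 160 * K / ρ := by positivity
    linarith
  have hm1 : 1 ≤ m := by
    by_contra hc
    have : m = 0 := by omega
    rw [this, pow_zero] at hm8
    norm_num at hm8
  have hV5 : 5 ≤ V := by
    have : 0 < 112 * K / ρ := by positivity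
    have : (5 : ℝ) < V := by linarith
    have : 5 < V := by exact_mod_cast this
    omega
  have hVpos : (0 : ℝ) < V := by
    have : (5 : ℝ) ≤ V := by exact_mod_cast hV5
    linarith
  have h2m : (0 : ℝ) < 2 ^ m := by positivity
  have b1 : K / 2 ^ m ≤ ρ / 160 := by
    rw [div_le_div_iff₀ h2m (by norm_num)]
    have : 160 * K / ρ < 2 ^ m := by linarith
    rw [div_lt_iff₀ hρ] at this
    linarith
  have b2 : K / V ≤ ρ / 112 := by
    rw [div_le_div_iff₀ hVpos (by norm_num)]
    have : 112 * K / ρ < V := by linarith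
    rw [div_lt_iff₀ hρ] at this
    linarith
  set Q : ℝ := (2 * K) ^ 2 / ε ^ 2 with hQ
  have hQ0 : 0 ≤ Q := by positivity
  refine ⟨m, CO_M m V Q, ?_, ?_⟩
  · unfold CO_M; positivity
  intro F hFd hFK N
  set η : ℝ := (1 / 2) ^ N / 4 with hη
  have hη0 : 0 < η := by positivity
  set av : ℕ → ℤ → E := avl η F with hav
  have hmart := avl_mart hFd hη0
  have hbd := norm_avl_le hFK hη0
  set bb : ℕ → ℤ → E := stp ε av with hbb
  have hb : ∀ l I, ¬ StopS ε av l I → bb (l + 1) I = bb l (I / 2) := fun l I hs =>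
    stp_of_not_stop hs
  letI : InnerProductSpace ℝ E := InnerProductSpace.complexToReal
  have hS := stop_pack hε0 hmart hbd
  set lab : ℕ → ℕ → ℕ → E := fun n a b =>
    if COGood bb m V n (a / 2 ^ m) then bb (n + m) ((2 : ℤ) ^ m * ((a / 2 ^ m : ℕ) : ℤ))
    else F (cc m n a b) with hlab
  refine ⟨lab, COGG bb (StopS ε av) m V N, CO_GG_pack hb hS m V N, ?_, ?_⟩
  · refine CO_adjG_lab (q := id) hb hm1 (by omega) ?_
    intro n a b' hg
    rw [hlab]
    simp only [if_pos hg, id]
  · intro n hn a ha b' hb' z hz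
    by_cases hg : COGood bb m V n (a / 2 ^ m)
    · have hl : lab n a b' = bb (n + m) ((2 : ℤ) ^ m * ((a / 2 ^ m : ℕ) : ℤ)) := by
        rw [hlab]
        simp only [if_pos hg]
      set c : E := bb (n + m) ((2 : ℤ) ^ m * ((a / 2 ^ m : ℕ) : ℤ)) with hc
      have hcK : ‖c‖ ≤ K := norm_stp_le hbd _ _
      rw [hl]
      have hη' : η ≤ (1 / 2) ^ n / 4 := by
        rw [hη]
        have : (1 / 2 : ℝ) ^ N ≤ (1 / 2) ^ n := pow_le_pow_of_le_one (by norm_num) (by norm_num) hn
        linarith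
      have hav' : ∀ I' ∈ Finset.Ico ((2 : ℤ) ^ m * (((a / 2 ^ m : ℕ) : ℤ) - V))
          ((2 : ℤ) ^ m * (((a / 2 ^ m : ℕ) : ℤ) + 1 + V)), ‖avl η F (n + m) I' - c‖ ≤ ε := by
        intro I' hI'
        have h1 := hg I' hI'
        rw [hc, ← h1]
        exact norm_sub_stp_le hε0.le av _ _
      have h1 := good_apx hFd hFK hcK hη0 hη' hV5 hε0.le hav' (CO_cell_sub_box hb' hz)
      have h3 : (1 + 5 / 2 ^ m) * ε ≤ 2 * ε := by
        have : 5 / (2 : ℝ) ^ m ≤ 1 := by
          rw [div_le_one h2m]; linarith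
        nlinarith
      have h4 : 10 * K / 2 ^ m = 10 * (K / 2 ^ m) := by ring
      have h5 : 7 * K / V = 7 * (K / V) := by ring
      rw [h4, h5] at h1
      linarith
    · have hl : lab n a b' = F (cc m n a b') := by
        rw [hlab]
        simp only [if_neg hg]
      rw [hl]
      have h1 := osc_cell hFd hFK hz (CO_cc_mem_cell m n a b')
      have h4 : 2 * K / 2 ^ m = 2 * (K / 2 ^ m) := by ring
      rw [h4] at h1
      linarith

end

end Cor
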