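import Pool.Agent.helper45.Cor.Osgood
import Pool.Agent.helper45.Cor.Disc
import Mathlib

/-!
# Corona project: from a class of generators to the algebra generated by the class and one function

`Ω` is any open subset of `ℂⁿ`.  `𝒢` is a class of functions in `H^∞(Ω)`, closed under subtraction of
constants, such that the corona theorem holds for all families of which all members but one belong
to `𝒢`.  Then it holds for all families in the uniformly closed algebra generated by `𝒢` and one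
arbitrary function `F ∈ H^∞(Ω)`.  Proof: Gelfand theory in the Banach algebra `H^∞(Ω)`.
-/

noncomputable section

open Set Metric Filter Topology
open scoped ENNReal

namespace Cor

variable {n : ℕ}

/-- the Banach algebra `H^∞(Ω)` -/
def HA (Ω : Set (Fin n → ℂ)) : Subalgebra ℂ (lp (fun _ : Ω => ℂ) ⊤) where
  carrier := {x | ∃ g : (Fin n → ℂ) → ℂ, (∀ z : Ω, x z = g z.1) ∧ DifferentiableOn ℂ g Ω}
  mul_mem' := by
    rintro x y ⟨g, hg1, hg2⟩ ⟨g', hg1', hg2'⟩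
    exact ⟨fun z => g z * g' z, fun z => by
      show x z * y z = g z * g' z
      rw [hg1, hg1'], hg2.mul hg2'⟩
  add_mem' := by
    rintro x y ⟨g, hg1, hg2⟩ ⟨g', hg1', hg2'⟩
    exact ⟨fun z => g z + g' z, fun z => by
      show x z + y z = g z + g' z
      rw [hg1, hg1'], hg2.add hg2'⟩
  algebraMap_mem' := by
    intro c
    exact ⟨fun _ => c, fun z => rfl, differentiableOn_const c⟩

/-- uniform limits of bounded holomorphic functions -/
theorem Gel_unif {Ω : Set (Fin n → ℂ)} (hΩ : IsOpen Ω) {G : ℕ → (Fin n → ℂ) → ℂ}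
    {g : (Fin n → ℂ) → ℂ} (hG : ∀ m, DifferentiableOn ℂ (G m) Ω) {C : ℝ}
    (hC : ∀ m, ∀ z ∈ Ω, ‖G m z‖ ≤ C)
    (h : TendstoUniformlyOn G g atTop Ω) : DifferentiableOn ℂ g Ω := by
  intro z hz
  obtain ⟨r, hr, hball⟩ := Metric.isOpen_iff.1 hΩ z hz
  have hsub : Pr (fun i => ball (z i) r) ⊆ Ω := by
    intro w hw
    apply hball
    rw [mem_ball, dist_pi_lt_iff hr]
    intro i
    exact hw i
  have hgC : ∀ w ∈ Ω, ‖g w‖ ≤ C := by
    intro w hw
    refine le_of_tendsto (h.tendsto_at hw).norm ?_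
    exact Eventually.of_forall fun m => hC m w hw
  have hSH : SH (fun i => ball (z i) r) g := by
    refine ⟨⟨C, fun w hw => hgC w (hsub hw)⟩, fun w hw l => ?_⟩
    have h1 : ∀ m, DifferentiableOn ℂ (fun t => G m (Function.update w l t)) (ball (z l) r) :=
      fun m => (SH_of_diff ((hG m).mono hsub) (fun w hw => hC m w (hsub hw))).2 w hw l
    have h2 : TendstoUniformlyOn (fun m t => G m (Function.update w l t))
        (fun t => g (Function.update w l t)) atTop (ball (z l) r) := by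
      have h3 : MapsTo (fun t => Function.update w l t) (ball (z l) r) Ω := by
        intro t ht
        apply hsub
        intro i
        show Function.update w l t i ∈ ball (z i) r
        by_cases hi : i = l
        · subst hi
          simpa using ht
        · rw [Function.update_of_ne hi]
          exact hw i
      exact (h.comp (fun t => Function.update w l t)).mono h3
    exact h2.tendstoLocallyUniformlyOn.differentiableOn (Eventually.of_forall h1) isOpen_ball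
  have h4 := osgood (fun i => isOpen_ball) hSH
  have hopen : IsOpen (Pr (fun i => ball (z i) r)) := by
    have : Pr (fun i => ball (z i) r) = Set.pi univ (fun i => ball (z i) r) := by
      ext w
      simp [Pr]
    rw [this]
    exact isOpen_set_pi finite_univ (fun i _ => isOpen_ball)
  exact (h4.differentiableAt (hopen.mem_nhds (fun i => mem_ball_self hr))).differentiableWithinAt

theorem HA_complete {Ω : Set (Fin n → ℂ)} (hΩ : IsOpen Ω) : CompleteSpace (HA Ω) := by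
  have hcl : IsClosed ((HA Ω : Subalgebra ℂ (lp (fun _ : Ω => ℂ) ⊤)) :
      Set (lp (fun _ : Ω => ℂ) ⊤)) := by
    apply IsSeqClosed.isClosed
    intro x y hx hxy
    choose g hg1 hg2 using hx
    classical
    set G' : (Fin n → ℂ) → ℂ := fun z => if h : z ∈ Ω then y ⟨z, h⟩ else 0 with hG'
    refine ⟨G', fun z => by rw [hG']; simp, ?_⟩
    obtain ⟨C, hC⟩ := (hxy.norm.bddAbove_range)
    have hn : ∀ m, ∀ z (hz : z ∈ Ω), ‖g m z‖ ≤ C := by
      intro m z hz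
      have h1 := hg1 m ⟨z, hz⟩
      rw [← h1]
      refine (lp.norm_apply_le_norm (p := ⊤) (by simp) (x m) _).trans ?_
      exact hC ⟨m, rfl⟩
    refine Gel_unif hΩ (G := g) hg2 hn ?_
    rw [Metric.tendstoUniformlyOn_iff]
    intro ε hε
    have h2 := (tendsto_iff_norm_sub_tendsto_zero.1 hxy).eventually (gt_mem_nhds hε)
    filter_upwards [h2] with m hm z hz
    rw [hG']
    simp only [dif_pos hz]
    rw [dist_comm, dist_eq_norm, ← hg1 m ⟨z, hz⟩]
    refine lt_of_le_of_lt ?_ hm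
    exact lp.norm_apply_le_norm (p := ⊤) (by simp) (x m - y) ⟨z, hz⟩
  exact hcl.completeSpace_coe

/-- the element of `H^∞(Ω)` given by a function -/
theorem HA_mk {Ω : Set (Fin n → ℂ)} {f : (Fin n → ℂ) → ℂ} (hf : HInf Ω f) :
    ∃ x : HA Ω, ∀ z : Ω, (x : lp (fun _ : Ω => ℂ) ⊤) z = f z.1 := by
  obtain ⟨hd, C, hC⟩ := hf
  have hm : Memℓp (fun z : Ω => f z.1) ⊤ := by
    refine memℓp_infty ⟨C, ?_⟩
    rintro _ ⟨z, rfl⟩
    exact hC z.1 z.2
  exact ⟨⟨⟨fun z => f z.1, hm⟩, f, fun z => rfl, hd⟩, fun z => rfl⟩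

/-- evaluation at a point -/
def HA_ev {Ω : Set (Fin n → ℂ)} (z : Ω) : HA Ω →ₐ[ℂ] ℂ where
  toFun x := (x : lp (fun _ : Ω => ℂ) ⊤) z
  map_one' := rfl
  map_mul' _ _ := rfl
  map_zero' := rfl
  map_add' _ _ := rfl
  commutes' _ := rfl

theorem HA_ext {Ω : Set (Fin n → ℂ)} {x y : HA Ω} (h : ∀ z, HA_ev z x = HA_ev z y) : x = y := by
  apply Subtype.ext
  apply lp.ext
  funext z
  exact h z

theorem HA_norm_le {Ω : Set (Fin n → ℂ)} {x : HA Ω} {C : ℝ} (hC : 0 ≤ C)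
    (h : ∀ z, ‖HA_ev z x‖ ≤ C) : ‖x‖ ≤ C :=
  lp.norm_le_of_forall_le hC (f := (x : lp (fun _ : Ω => ℂ) ⊤)) h

theorem HA_ev_le {Ω : Set (Fin n → ℂ)} (x : HA Ω) (z : Ω) : ‖HA_ev z x‖ ≤ ‖x‖ :=
  lp.norm_apply_le_norm (p := ⊤) (by simp) (x : lp (fun _ : Ω => ℂ) ⊤) z

open Classical in
/-- the element of `H^∞(Ω)` given by a function, `0` if the function is not in `H^∞(Ω)` -/
def HX (Ω : Set (Fin n → ℂ)) (f : (Fin n → ℂ) → ℂ) : HA Ω :=
  if h : HInf Ω f then (HA_mk h).choose else 0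

theorem HX_ev {Ω : Set (Fin n → ℂ)} {f : (Fin n → ℂ) → ℂ} (hf : HInf Ω f) (z : Ω) :
    HA_ev z (HX Ω f) = f z.1 := by
  unfold HX
  rw [dif_pos hf]
  exact (HA_mk hf).choose_spec z

theorem HX_fun {Ω : Set (Fin n → ℂ)} (x : HA Ω) :
    ∃ g : (Fin n → ℂ) → ℂ, HInf Ω g ∧ ∀ z : Ω, g z.1 = HA_ev z x := by
  obtain ⟨g, hg1, hg2⟩ := x.2
  refine ⟨g, ⟨hg2, ‖x‖, fun z hz => ?_⟩, fun z => (hg1 z).symm⟩
  have := HA_ev_le x ⟨z, hz⟩
  have h2 : HA_ev (⟨z, hz⟩ : Ω) x = g z := hg1 ⟨z, hz⟩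
  rwa [h2] at this

/-- the algebra generated by a class of functions and one function -/
inductive GAlg (𝒢 : ((Fin n → ℂ) → ℂ) → Prop) (F : (Fin n → ℂ) → ℂ) : ((Fin n → ℂ) → ℂ) → Prop
  | const (c : ℂ) : GAlg 𝒢 F (fun _ => c)
  | base (u : (Fin n → ℂ) → ℂ) (hu : 𝒢 u) : GAlg 𝒢 F u
  | self : GAlg 𝒢 F F
  | add (p q : (Fin n → ℂ) → ℂ) (hp : GAlg 𝒢 F p) (hq : GAlg 𝒢 F q) :
      GAlg 𝒢 F (fun z => p z + q z)
  | mul (p q : (Fin n → ℂ) → ℂ) (hp : GAlg 𝒢 F p) (hq : GAlg 𝒢 F q) :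
      GAlg 𝒢 F (fun z => p z * q z)

theorem HInf_const (Ω : Set (Fin n → ℂ)) (c : ℂ) : HInf Ω (fun _ => c) :=
  ⟨differentiableOn_const c, ‖c‖, fun _ _ => le_rfl⟩

theorem HInf_add {Ω : Set (Fin n → ℂ)} {f g : (Fin n → ℂ) → ℂ} (hf : HInf Ω f) (hg : HInf Ω g) :
    HInf Ω (fun z => f z + g z) := by
  obtain ⟨hf1, C, hC⟩ := hf
  obtain ⟨hg1, D, hD⟩ := hg
  exact ⟨hf1.add hg1, C + D, fun z hz => (norm_add_le _ _).trans (add_le_add (hC z hz) (hD z hz))⟩

theorem HInf_mul {Ω : Set (Fin n → ℂ)} {f g : (Fin n → ℂ) → ℂ} (hf : HInf Ω f) (hg : HInf Ω g) :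
    HInf Ω (fun z => f z * g z) := by
  obtain ⟨hf1, C, hC⟩ := hf
  obtain ⟨hg1, D, hD⟩ := hg
  refine ⟨hf1.mul hg1, C * D, fun z hz => ?_⟩
  rw [norm_mul]
  exact mul_le_mul (hC z hz) (hD z hz) (norm_nonneg _) ((norm_nonneg _).trans (hC z hz))

theorem GAlg_HInf {Ω : Set (Fin n → ℂ)} {𝒢 : ((Fin n → ℂ) → ℂ) → Prop} {F : (Fin n → ℂ) → ℂ}
    (hG : ∀ u, 𝒢 u → HInf Ω u) (hF : HInf Ω F) {p : (Fin n → ℂ) → ℂ} (hp : GAlg 𝒢 F p) :
    HInf Ω p := by
  induction hp with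
  | const c => exact HInf_const Ω c
  | base u hu => exact hG u hu
  | self => exact hF
  | add p q _ _ ihp ihq => exact HInf_add ihp ihq
  | mul p q _ _ ihp ihq => exact HInf_mul ihp ihq

/-- values of a character on a member of the algebra are approximated near the point given by the
values on finitely many generators -/
theorem Gel_ctrl {Ω : Set (Fin n → ℂ)} {𝒢 : ((Fin n → ℂ) → ℂ) → Prop} {F : (Fin n → ℂ) → ℂ}
    (hG : ∀ u, 𝒢 u → HInf Ω u) (hF : HInf Ω F) (χ : HA Ω →ₐ[ℂ] ℂ) {p : (Fin n → ℂ) → ℂ}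
    (hp : GAlg 𝒢 F p) :
    ∃ S : Finset ((Fin n → ℂ) → ℂ), (∀ u ∈ S, 𝒢 u) ∧ ∀ ε > 0, ∃ ρ > 0, ∀ z ∈ Ω,
      (∀ u ∈ S, ‖u z - χ (HX Ω u)‖ < ρ) → ‖F z - χ (HX Ω F)‖ < ρ → ‖p z - χ (HX Ω p)‖ < ε := by
  classical
  induction hp with
  | const c =>
    refine ⟨∅, by simp, fun ε hε => ⟨1, one_pos, fun z _ _ _ => ?_⟩⟩
    have h1 : HX Ω (fun _ : Fin n → ℂ => c) = algebraMap ℂ (HA Ω) c := by
      apply HA_ext
      intro z
      rw [HX_ev (HInf_const Ω c), AlgHom.commutes]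
      rfl
    rw [h1, AlgHom.commutes]
    simpa using hε
  | base u hu =>
    exact ⟨{u}, by simpa using hu, fun ε hε => ⟨ε, hε, fun z _ h _ => h u (by simp)⟩⟩
  | self => exact ⟨∅, by simp, fun ε hε => ⟨ε, hε, fun z _ _ h => h⟩⟩
  | add p q hp hq ihp ihq =>
    obtain ⟨S, hS, H⟩ := ihp
    obtain ⟨S', hS', H'⟩ := ihq
    have h1 : HX Ω (fun z => p z + q z) = HX Ω p + HX Ω q := by
      apply HA_ext
      intro z
      rw [HX_ev (HInf_add (GAlg_HInf hG hF hp) (GAlg_HInf hG hF hq)), map_add,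
        HX_ev (GAlg_HInf hG hF hp), HX_ev (GAlg_HInf hG hF hq)]
    refine ⟨S ∪ S', ?_, fun ε hε => ?_⟩
    · intro u hu
      rcases Finset.mem_union.1 hu with h | h
      · exact hS u h
      · exact hS' u h
    · obtain ⟨ρ, hρ, h2⟩ := H (ε / 2) (half_pos hε)
      obtain ⟨ρ', hρ', h2'⟩ := H' (ε / 2) (half_pos hε)
      refine ⟨min ρ ρ', lt_min hρ hρ', fun z hz h3 h4 => ?_⟩
      have a1 := h2 z hz (fun u hu => (h3 u (Finset.mem_union_left _ hu)).trans_le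
        (min_le_left _ _)) (h4.trans_le (min_le_left _ _))
      have a2 := h2' z hz (fun u hu => (h3 u (Finset.mem_union_right _ hu)).trans_le
        (min_le_right _ _)) (h4.trans_le (min_le_right _ _))
      rw [h1, map_add]
      calc ‖p z + q z - (χ (HX Ω p) + χ (HX Ω q))‖
          = ‖(p z - χ (HX Ω p)) + (q z - χ (HX Ω q))‖ := by congr 1; ring
        _ ≤ _ := norm_add_le _ _
        _ < ε := by linarith
  | mul p q hp hq ihp ihq =>
    obtain ⟨S, hS, H⟩ := ihp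
    obtain ⟨S', hS', H'⟩ := ihq
    have h1 : HX Ω (fun z => p z * q z) = HX Ω p * HX Ω q := by
      apply HA_ext
      intro z
      rw [HX_ev (HInf_mul (GAlg_HInf hG hF hp) (GAlg_HInf hG hF hq)), map_mul,
        HX_ev (GAlg_HInf hG hF hp), HX_ev (GAlg_HInf hG hF hq)]
    refine ⟨S ∪ S', ?_, fun ε hε => ?_⟩
    · intro u hu
      rcases Finset.mem_union.1 hu with h | h
      · exact hS u h
      · exact hS' u h
    · set P := χ (HX Ω p) with hP
      set Q := χ (HX Ω q) with hQ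
      set D : ℝ := ‖P‖ + ‖Q‖ + 1 with hD
      have hD1 : 1 ≤ D := by
        have := norm_nonneg P
        have := norm_nonneg Q
        linarith
      have hD0 : 0 < D := by linarith
      have he : 0 < min 1 (ε / (2 * D)) := lt_min one_pos (by positivity)
      obtain ⟨ρ, hρ, h2⟩ := H _ he
      obtain ⟨ρ', hρ', h2'⟩ := H' _ he
      refine ⟨min ρ ρ', lt_min hρ hρ', fun z hz h3 h4 => ?_⟩
      have a1 := h2 z hz (fun u hu => (h3 u (Finset.mem_union_left _ hu)).trans_le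
        (min_le_left _ _)) (h4.trans_le (min_le_left _ _))
      have a2 := h2' z hz (fun u hu => (h3 u (Finset.mem_union_right _ hu)).trans_le
        (min_le_right _ _)) (h4.trans_le (min_le_right _ _))
      rw [h1, map_mul, ← hP, ← hQ]
      have a3 : ‖q z‖ ≤ ‖Q‖ + 1 := by
        have h5 : ‖q z‖ ≤ ‖q z - Q‖ + ‖Q‖ := by
          have := norm_add_le (q z - Q) Q
          rwa [sub_add_cancel] at this
        have := a2.trans_le (min_le_left _ _)
        linarith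
      have a4 : ‖p z - P‖ < ε / (2 * D) := a1.trans_le (min_le_right _ _)
      have a5 : ‖q z - Q‖ < ε / (2 * D) := a2.trans_le (min_le_right _ _)
      have hε2 : ε / (2 * D) * (2 * D) = ε := by field_simp
      calc ‖p z * q z - P * Q‖ = ‖(p z - P) * q z + P * (q z - Q)‖ := by congr 1; ring
        _ ≤ ‖p z - P‖ * ‖q z‖ + ‖P‖ * ‖q z - Q‖ := by
          refine (norm_add_le _ _).trans ?_
          rw [norm_mul, norm_mul]
        _ ≤ ε / (2 * D) * (‖Q‖ + 1) + ‖P‖ * (ε / (2 * D)) := by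
          refine add_le_add ?_ ?_
          · exact mul_le_mul a4.le a3 (norm_nonneg _) (by positivity)
          · exact mul_le_mul_of_nonneg_left a5.le (norm_nonneg _)
        _ = ε / (2 * D) * D := by rw [hD]; ring
        _ < ε := by nlinarith

theorem gel {Ω : Set (Fin n → ℂ)} (hΩ : IsOpen Ω) {𝒢 : ((Fin n → ℂ) → ℂ) → Prop}
    (hG : ∀ u, 𝒢 u → HInf Ω u) (hsub : ∀ u, 𝒢 u → ∀ c : ℂ, 𝒢 (fun z => u z - c))
    (hcor : ∀ (k : ℕ) (f : Fin k → (Fin n → ℂ) → ℂ) (j₀ : Fin k), (∀ j, HInf Ω (f j)) →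
      (∀ j, j ≠ j₀ → 𝒢 (f j)) → ∀ δ > 0, (∀ z ∈ Ω, δ ≤ ∑ j, ‖f j z‖) →
      ∃ A : Fin k → (Fin n → ℂ) → ℂ, (∀ j, HInf Ω (A j)) ∧ ∀ z ∈ Ω, ∑ j, f j z * A j z = 1)
    {F : (Fin n → ℂ) → ℂ} (hF : HInf Ω F) {k : ℕ} (f : Fin k → (Fin n → ℂ) → ℂ)
    (hf : ∀ j, HInf Ω (f j))
    (hfa : ∀ j, ∀ ε > 0, ∃ p, GAlg 𝒢 F p ∧ ∀ z ∈ Ω, ‖f j z - p z‖ ≤ ε) {δ : ℝ} (hδ : 0 < δ)
    (hb : ∀ z ∈ Ω, δ ≤ ∑ j, ‖f j z‖) :
    ∃ A : Fin k → (Fin n → ℂ) → ℂ, (∀ j, HInf Ω (A j)) ∧ ∀ z ∈ Ω, ∑ j, f j z * A j z = 1 := by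
  classical
  by_contra hno
  have : CompleteSpace (HA Ω) := HA_complete hΩ
  -- the ideal is proper
  set I : Ideal (HA Ω) := Ideal.span (Set.range fun j => HX Ω (f j)) with hI
  have hIne : I ≠ ⊤ := by
    intro htop
    have h1 : (1 : HA Ω) ∈ I := by rw [htop]; trivial
    rw [hI, Ideal.mem_span_range_iff_exists_fun] at h1
    obtain ⟨c, hc⟩ := h1
    choose g hg1 hg2 using fun j => HX_fun (c j)
    refine hno ⟨g, hg1, fun z hz => ?_⟩
    have h2 := congrArg (HA_ev (⟨z, hz⟩ : Ω)) hc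
    rw [map_sum, map_one] at h2
    rw [← h2]
    refine Finset.sum_congr rfl fun j _ => ?_
    rw [map_mul, HX_ev (hf j), hg2 j ⟨z, hz⟩, mul_comm]
  obtain ⟨𝔪, hmax, hle⟩ := Ideal.exists_le_maximal I hIne
  set χ₀ := 𝔪.toCharacterSpace with hχ₀
  set χ : HA Ω →ₐ[ℂ] ℂ := WeakDual.CharacterSpace.equivAlgHom χ₀ with hχ
  have hχf : ∀ j, χ (HX Ω (f j)) = 0 := by
    intro j
    have h1 : HX Ω (f j) ∈ 𝔪 := hle (Ideal.subset_span ⟨j, rfl⟩)
    exact Ideal.toCharacterSpace_apply_eq_zero_of_mem 𝔪 h1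
  have hone : ‖(1 : HA Ω)‖ ≤ 1 := by
    refine HA_norm_le zero_le_one fun z => ?_
    rw [map_one]
    simp
  have hχn : ∀ x : HA Ω, ‖χ x‖ ≤ ‖x‖ := by
    intro x
    have h1 := AlgHom.norm_apply_le_self_mul_norm_one χ x
    have h2 : ‖x‖ * ‖(1 : HA Ω)‖ ≤ ‖x‖ := mul_le_of_le_one_right (norm_nonneg _) hone
    linarith
  -- approximate
  set ε : ℝ := δ / (4 * (k + 1)) with hε
  have hε0 : 0 < ε := by positivity
  choose p hp1 hp2 using fun j => hfa j ε hε0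
  choose S hS1 hS2 using fun j => Gel_ctrl hG hF χ (hp1 j)
  choose ρ hρ0 hρ using fun j => hS2 j ε hε0
  -- common radius
  have hr : ∃ r > 0, ∀ j, r ≤ ρ j := by
    rcases isEmpty_or_nonempty (Fin k) with he | he
    · exact ⟨1, one_pos, fun j => he.elim j⟩
    · obtain ⟨j, hj⟩ := Finite.exists_min ρ
      exact ⟨ρ j, hρ0 j, hj⟩
  obtain ⟨r, hr0, hr⟩ := hr
  set SS : Finset ((Fin n → ℂ) → ℂ) := Finset.univ.biUnion S with hSS
  have hSSG : ∀ u ∈ SS, 𝒢 u := by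
    intro u hu
    obtain ⟨j, -, hj⟩ := Finset.mem_biUnion.1 hu
    exact hS1 j u hj
  -- subtraction of the value of the character
  have hXsub : ∀ u, HInf Ω u → HInf Ω (fun z => u z - χ (HX Ω u)) ∧
      χ (HX Ω (fun z => u z - χ (HX Ω u))) = 0 := by
    intro u hu
    have h1 : HInf Ω (fun z => u z - χ (HX Ω u)) := by
      have := HInf_add hu (HInf_const Ω (-χ (HX Ω u)))
      simpa [sub_eq_add_neg] using this
    refine ⟨h1, ?_⟩
    have h2 : HX Ω (fun z => u z - χ (HX Ω u)) = HX Ω u - algebraMap ℂ (HA Ω) (χ (HX Ω u)) := by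
      apply HA_ext
      intro z
      rw [HX_ev h1, map_sub, HX_ev hu, AlgHom.commutes]
      rfl
    rw [h2, map_sub, AlgHom.commutes]
    simp
  set e := SS.equivFin with he
  set v : Fin (SS.card + 1) → (Fin n → ℂ) → ℂ :=
    Fin.cons F (fun i => ((e.symm i : SS) : (Fin n → ℂ) → ℂ)) with hv
  have hvH : ∀ j, HInf Ω (v j) := by
    intro j
    refine Fin.cases ?_ (fun i => ?_) j
    · rw [hv, Fin.cons_zero]; exact hF
    · rw [hv, Fin.cons_succ]; exact hG _ (hSSG _ (e.symm i).2)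
  obtain ⟨z, hz, hzr⟩ : ∃ z ∈ Ω, ∑ j, ‖v j z - χ (HX Ω (v j))‖ < r := by
    by_contra hc
    push Not at hc
    obtain ⟨A, hA1, hA2⟩ := hcor (SS.card + 1) (fun j z => v j z - χ (HX Ω (v j))) 0
      (fun j => (hXsub _ (hvH j)).1) (fun j hj => by
        obtain ⟨i, rfl⟩ := Fin.exists_succ_eq.2 hj
        have h1 : 𝒢 (v i.succ) := by
          rw [hv, Fin.cons_succ]; exact hSSG _ (e.symm i).2
        exact hsub _ h1 _) r hr0 hc
    have h1 : ∑ j, HX Ω (fun z => v j z - χ (HX Ω (v j))) * HX Ω (A j) = 1 := by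
      apply HA_ext
      intro z
      rw [map_sum, map_one, ← hA2 z.1 z.2]
      refine Finset.sum_congr rfl fun j _ => ?_
      rw [map_mul, HX_ev (hXsub _ (hvH j)).1, HX_ev (hA1 j)]
    have h2 := congrArg χ h1
    rw [map_sum, map_one] at h2
    have h3 : ∑ j, χ (HX Ω (fun z => v j z - χ (HX Ω (v j))) * HX Ω (A j)) = 0 := by
      refine Finset.sum_eq_zero fun j _ => ?_
      rw [map_mul, (hXsub _ (hvH j)).2, zero_mul]
    rw [h3] at h2
    exact zero_ne_one h2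
  have hclose : ∀ j, ‖v j z - χ (HX Ω (v j))‖ < r := fun j =>
    (Finset.single_le_sum (f := fun j => ‖v j z - χ (HX Ω (v j))‖)
      (fun _ _ => norm_nonneg _) (Finset.mem_univ j)).trans_lt hzr
  have hF' : ‖F z - χ (HX Ω F)‖ < r := by
    have := hclose 0
    rwa [hv, Fin.cons_zero] at this
  have hu' : ∀ u ∈ SS, ‖u z - χ (HX Ω u)‖ < r := by
    intro u hu
    have := hclose (e ⟨u, hu⟩).succ
    rw [hv, Fin.cons_succ, Equiv.symm_apply_apply] at this
    exact this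
  have hfj : ∀ j, ‖f j z‖ ≤ 3 * ε := by
    intro j
    have h1 := hρ j z hz (fun u hu => (hu' u (Finset.mem_biUnion.2 ⟨j, Finset.mem_univ _, hu⟩)).trans_le
      (hr j)) (hF'.trans_le (hr j))
    have h2 := hp2 j z hz
    have hpH := GAlg_HInf hG hF (hp1 j)
    have h3 : ‖χ (HX Ω (p j))‖ ≤ ε := by
      have h4 : χ (HX Ω (p j)) = χ (HX Ω (p j) - HX Ω (f j)) := by
        rw [map_sub, hχf j, sub_zero]
      rw [h4]
      refine (hχn _).trans (HA_norm_le hε0.le fun w => ?_)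
      rw [map_sub, HX_ev hpH, HX_ev (hf j), norm_sub_rev]
      exact hp2 j w.1 w.2
    calc ‖f j z‖ = ‖(f j z - p j z) + (p j z - χ (HX Ω (p j))) + χ (HX Ω (p j))‖ := by
          congr 1; ring
      _ ≤ ‖f j z - p j z‖ + ‖p j z - χ (HX Ω (p j))‖ + ‖χ (HX Ω (p j))‖ := norm_add₃_le
      _ ≤ 3 * ε := by linarith
  have h1 := hb z hz
  have h2 : ∑ j, ‖f j z‖ ≤ k * (3 * ε) := by
    refine (Finset.sum_le_sum fun j _ => hfj j).trans ?_
    rw [Finset.sum_const, Finset.card_univ, Fintype.card_fin, nsmul_eq_mul]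
  have h3 : (k : ℝ) * (3 * ε) < δ := by
    have h4 : ε * (4 * (k + 1)) = δ := by rw [hε]; field_simp
    have h5 : (0 : ℝ) ≤ k := Nat.cast_nonneg k
    nlinarith
  linarith

end Cor
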