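import Pool.Agent.helper30.Cor.HUd

/-!
# Corona project: the local form of the Gelfand argument
-/

noncomputable section

open Set Metric

namespace Cor

variable {n : ℕ}

/-- near a character there are points of `Ω` -/
theorem gel_dense {Ω : Set (Fin n → ℂ)} {𝒢 : ((Fin n → ℂ) → ℂ) → Prop}
    (hG : ∀ u, 𝒢 u → HInf Ω u) (hsub : ∀ u, 𝒢 u → ∀ c : ℂ, 𝒢 (fun z => u z - c))
    {N : ℕ} (e : Fin N → (Fin n → ℂ) → ℂ) (he : ∀ i, 𝒢 (e i))
    (hcor : ∀ (k : ℕ) (f : Fin k → (Fin n → ℂ) → ℂ) (j₀ : Fin k), (∀ j, HInf Ω (f j)) →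
      (∀ j, j ≠ j₀ → 𝒢 (f j)) → (∀ i, ∃ j, ∀ z ∈ Ω, f j z = e i z) →
      ∀ δ > 0, (∀ z ∈ Ω, δ ≤ ∑ j, ‖f j z‖) →
      ∃ A : Fin k → (Fin n → ℂ) → ℂ, (∀ j, HInf Ω (A j)) ∧ ∀ z ∈ Ω, ∑ j, f j z * A j z = 1)
    (χ : HA Ω →ₐ[ℂ] ℂ) (hχe : ∀ i, χ (HX Ω (e i)) = 0)
    {F : (Fin n → ℂ) → ℂ} (hF : HInf Ω F) (S : Finset ((Fin n → ℂ) → ℂ)) (hS : ∀ u ∈ S, 𝒢 u)
    {r : ℝ} (hr : 0 < r) :
    ∃ z ∈ Ω, ‖F z - χ (HX Ω F)‖ < r ∧ ∀ u ∈ S, ‖u z - χ (HX Ω u)‖ < r := by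
  classical
  set SS : Finset ((Fin n → ℂ) → ℂ) := S ∪ Finset.univ.image e with hSS
  have hSSG : ∀ u ∈ SS, 𝒢 u := by
    intro u hu
    rcases Finset.mem_union.1 hu with hu | hu
    · exact hS u hu
    · obtain ⟨i, -, rfl⟩ := Finset.mem_image.1 hu
      exact he i
  -- subtraction of the value of the character
  have hXsub : ∀ u, HInf Ω u → HInf Ω (fun z => u z - χ (HX Ω u)) ∧
      χ (HX Ω (fun z => u z - χ (HX Ω u))) = 0 := by
    intro u hu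
    have h1 : HInf Ω (fun z => u z - χ (HX Ω u)) := by
      have := HInf_add hu (HInf_const Ω (-χ (HX Ω u)))
      simpa [sub_eq_add_neg] using this
    refine ⟨h1, ?_⟩
    have h2 : HX Ω (fun z => u z - χ (HX Ω u)) = HX Ω u - algebraMap ℂ (HA Ω) (χ (HX Ω u)) := by
      apply HA_ext
      intro z
      rw [HX_ev h1, map_sub, HX_ev hu, AlgHom.commutes]
      rfl
    rw [h2, map_sub, AlgHom.commutes]
    simp
  set eq := SS.equivFin with heq
  set v : Fin (SS.card + 1) → (Fin n → ℂ) → ℂ :=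
    Fin.cons F (fun i => ((eq.symm i : SS) : (Fin n → ℂ) → ℂ)) with hv
  have hvH : ∀ j, HInf Ω (v j) := by
    intro j
    refine Fin.cases ?_ (fun i => ?_) j
    · rw [hv, Fin.cons_zero]; exact hF
    · rw [hv, Fin.cons_succ]; exact hG _ (hSSG _ (eq.symm i).2)
  obtain ⟨z, hz, hzr⟩ : ∃ z ∈ Ω, ∑ j, ‖v j z - χ (HX Ω (v j))‖ < r := by
    by_contra hc
    push Not at hc
    obtain ⟨A, hA1, hA2⟩ := hcor (SS.card + 1) (fun j z => v j z - χ (HX Ω (v j))) 0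
      (fun j => (hXsub _ (hvH j)).1) (fun j hj => by
        obtain ⟨i, rfl⟩ := Fin.exists_succ_eq.2 hj
        have h1 : 𝒢 (v i.succ) := by
          rw [hv, Fin.cons_succ]; exact hSSG _ (eq.symm i).2
        exact hsub _ h1 _) (fun i => by
        refine ⟨(eq ⟨e i, Finset.mem_union_right _ (Finset.mem_image_of_mem e
          (Finset.mem_univ i))⟩).succ, fun z _ => ?_⟩
        simp only [hv, Fin.cons_succ, Equiv.symm_apply_apply]
        rw [hχe i, sub_zero]) r hr hc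
    have h1 : ∑ j, HX Ω (fun z => v j z - χ (HX Ω (v j))) * HX Ω (A j) = 1 := by
      apply HA_ext
      intro z
      rw [map_sum, map_one, ← hA2 z.1 z.2]
      refine Finset.sum_congr rfl fun j _ => ?_
      rw [map_mul, HX_ev (hXsub _ (hvH j)).1, HX_ev (hA1 j)]
    have h2 := congrArg χ h1
    rw [map_sum, map_one] at h2
    have h3 : ∑ j, χ (HX Ω (fun z => v j z - χ (HX Ω (v j))) * HX Ω (A j)) = 0 := by
      refine Finset.sum_eq_zero fun j _ => ?_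
      rw [map_mul, (hXsub _ (hvH j)).2, zero_mul]
    rw [h3] at h2
    exact zero_ne_one h2
  have hclose : ∀ j, ‖v j z - χ (HX Ω (v j))‖ < r := fun j =>
    (Finset.single_le_sum (f := fun j => ‖v j z - χ (HX Ω (v j))‖)
      (fun _ _ => norm_nonneg _) (Finset.mem_univ j)).trans_lt hzr
  refine ⟨z, hz, ?_, fun u hu => ?_⟩
  · have := hclose 0
    rwa [hv, Fin.cons_zero] at this
  · have := hclose (eq ⟨u, Finset.mem_union_left _ hu⟩).succ
    rw [hv, Fin.cons_succ, Equiv.symm_apply_apply] at this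
    exact this

/-- local data at the point `p`: a class `𝒢` and functions `e i` in the ideal of `f` for which the
corona theorem with one free generator holds, and a function `F` such that near `p` the functions
`f j` are approximated by members of the algebra generated by `𝒢` and `F` -/
def LocD (Ω : Set (Fin n → ℂ)) {k : ℕ} (f : Fin k → (Fin n → ℂ) → ℂ) (p : Fin n → ℂ) : Prop :=
  ∃ (𝒢 : ((Fin n → ℂ) → ℂ) → Prop) (N : ℕ) (e : Fin N → (Fin n → ℂ) → ℂ) (F : (Fin n → ℂ) → ℂ),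
    (∀ u, 𝒢 u → HInf Ω u) ∧ (∀ u, 𝒢 u → ∀ c : ℂ, 𝒢 (fun z => u z - c)) ∧
    (∀ i : Fin n, 𝒢 (fun z => z i)) ∧ (∀ i, 𝒢 (e i)) ∧
    (∀ i, ∃ G : Fin k → (Fin n → ℂ) → ℂ, (∀ j, HInf Ω (G j)) ∧
      ∀ z ∈ Ω, e i z = ∑ j, f j z * G j z) ∧
    (∀ (k : ℕ) (f : Fin k → (Fin n → ℂ) → ℂ) (j₀ : Fin k), (∀ j, HInf Ω (f j)) →
      (∀ j, j ≠ j₀ → 𝒢 (f j)) → (∀ i, ∃ j, ∀ z ∈ Ω, f j z = e i z) →
      ∀ δ > 0, (∀ z ∈ Ω, δ ≤ ∑ j, ‖f j z‖) →
      ∃ A : Fin k → (Fin n → ℂ) → ℂ, (∀ j, HInf Ω (A j)) ∧ ∀ z ∈ Ω, ∑ j, f j z * A j z = 1) ∧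
    HInf Ω F ∧ ∀ j, ∀ ε > 0, ∃ r > 0, ∃ q, GAlg 𝒢 F q ∧
      ∀ z ∈ Ω, (∀ i, ‖z i - p i‖ < r) → ‖f j z - q z‖ ≤ ε

/-- the local form: local data at all points `p` which are values of characters -/
theorem gelL {Ω : Set (Fin n → ℂ)} (hΩ : IsOpen Ω) {k : ℕ} (f : Fin k → (Fin n → ℂ) → ℂ)
    (hf : ∀ j, HInf Ω (f j)) (P : (Fin n → ℂ) → Prop)
    (hP : ∀ χ : HA Ω →ₐ[ℂ] ℂ, (∀ x, ‖χ x‖ ≤ ‖x‖) → P (fun i => χ (HX Ω (fun z => z i))))
    (hloc : ∀ p, P p → LocD Ω f p) {δ : ℝ} (hδ : 0 < δ) (hb : ∀ z ∈ Ω, δ ≤ ∑ j, ‖f j z‖) :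
    ∃ A : Fin k → (Fin n → ℂ) → ℂ, (∀ j, HInf Ω (A j)) ∧ ∀ z ∈ Ω, ∑ j, f j z * A j z = 1 := by
  classical
  by_contra hno
  have : CompleteSpace (HA Ω) := HA_complete hΩ
  -- the ideal is proper
  set I : Ideal (HA Ω) := Ideal.span (Set.range fun j => HX Ω (f j)) with hI
  have hIne : I ≠ ⊤ := by
    intro htop
    have h1 : (1 : HA Ω) ∈ I := by rw [htop]; trivial
    rw [hI, Ideal.mem_span_range_iff_exists_fun] at h1
    obtain ⟨c, hc⟩ := h1
    choose g hg1 hg2 using fun j => HX_fun (c j)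
    refine hno ⟨g, hg1, fun z hz => ?_⟩
    have h2 := congrArg (HA_ev (⟨z, hz⟩ : Ω)) hc
    rw [map_sum, map_one] at h2
    rw [← h2]
    refine Finset.sum_congr rfl fun j _ => ?_
    rw [map_mul, HX_ev (hf j), hg2 j ⟨z, hz⟩, mul_comm]
  obtain ⟨𝔪, hmax, hle⟩ := Ideal.exists_le_maximal I hIne
  set χ₀ := 𝔪.toCharacterSpace with hχ₀
  set χ : HA Ω →ₐ[ℂ] ℂ := WeakDual.CharacterSpace.equivAlgHom χ₀ with hχ
  have hχf : ∀ j, χ (HX Ω (f j)) = 0 := by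
    intro j
    have h1 : HX Ω (f j) ∈ 𝔪 := hle (Ideal.subset_span ⟨j, rfl⟩)
    exact Ideal.toCharacterSpace_apply_eq_zero_of_mem 𝔪 h1
  have hone : ‖(1 : HA Ω)‖ ≤ 1 := by
    refine HA_norm_le zero_le_one fun z => ?_
    rw [map_one]
    simp
  have hχn : ∀ x : HA Ω, ‖χ x‖ ≤ ‖x‖ := by
    intro x
    have h1 := AlgHom.norm_apply_le_self_mul_norm_one χ x
    have h2 : ‖x‖ * ‖(1 : HA Ω)‖ ≤ ‖x‖ := mul_le_of_le_one_right (norm_nonneg _) hone
    linarith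
  set p : Fin n → ℂ := fun i => χ (HX Ω (fun z => z i)) with hp
  obtain ⟨𝒢, N, e, F, hG, hsub, hco, he, hef, hcor, hF, hfa⟩ := hloc p (hP χ hχn)
  have hχe : ∀ i, χ (HX Ω (e i)) = 0 := by
    intro i
    obtain ⟨G, hG1, hG2⟩ := hef i
    have h1 : HX Ω (e i) = ∑ j, HX Ω (f j) * HX Ω (G j) := by
      apply HA_ext
      intro z
      rw [HX_ev (hG _ (he i)), map_sum, hG2 z.1 z.2]
      refine Finset.sum_congr rfl fun j _ => ?_
      rw [map_mul, HX_ev (hf j), HX_ev (hG1 j)]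
    rw [h1, map_sum]
    refine Finset.sum_eq_zero fun j _ => ?_
    rw [map_mul, hχf j, zero_mul]
  set co : Finset ((Fin n → ℂ) → ℂ) := Finset.univ.image (fun (i : Fin n) z => z i) with hcodef
  have hcoG : ∀ u ∈ co, 𝒢 u := by
    intro u hu
    obtain ⟨i, -, rfl⟩ := Finset.mem_image.1 hu
    exact hco i
  have hcomem : ∀ i : Fin n, (fun z : Fin n → ℂ => z i) ∈ co := fun i =>
    Finset.mem_image_of_mem _ (Finset.mem_univ i)
  -- functions which are small near `p` have a small value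
  have hsmall : ∀ (w : (Fin n → ℂ) → ℂ), HInf Ω w → ∀ ε r : ℝ, 0 < r →
      (∀ z ∈ Ω, (∀ i, ‖z i - p i‖ < r) → ‖w z‖ ≤ ε) → ‖χ (HX Ω w)‖ ≤ ε := by
    intro w hw ε r hr hwε
    by_contra hlt
    push Not at hlt
    obtain ⟨z, hz, h1, h2⟩ := gel_dense hG hsub e he hcor χ hχe hw co hcoG
      (r := min r (‖χ (HX Ω w)‖ - ε)) (lt_min hr (by linarith))
    have h3 := hwε z hz fun i => (h2 _ (hcomem i)).trans_le (min_le_left _ _)
    have h4 := h1.trans_le (min_le_right _ _)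
    have h5 := norm_sub_norm_le (χ (HX Ω w)) (w z)
    rw [norm_sub_rev] at h5
    linarith
  -- approximate
  set ε : ℝ := δ / (4 * (k + 1)) with hε
  have hε0 : 0 < ε := by positivity
  choose r₁ hr₁ q hq1 hq2 using fun j => hfa j ε hε0
  choose S hS1 hS2 using fun j => Gel_ctrl hG hF χ (hq1 j)
  choose ρ hρ0 hρ using fun j => hS2 j ε hε0
  -- common radius
  have hr : ∃ r > 0, ∀ j, r ≤ ρ j ∧ r ≤ r₁ j := by
    rcases isEmpty_or_nonempty (Fin k) with he | he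
    · exact ⟨1, one_pos, fun j => he.elim j⟩
    · obtain ⟨j, hj⟩ := Finite.exists_min (fun j => min (ρ j) (r₁ j))
      exact ⟨min (ρ j) (r₁ j), lt_min (hρ0 j) (hr₁ j), fun i =>
        ⟨(hj i).trans (min_le_left _ _), (hj i).trans (min_le_right _ _)⟩⟩
  obtain ⟨r, hr0, hr⟩ := hr
  obtain ⟨z, hz, hF', hu'⟩ := gel_dense hG hsub e he hcor χ hχe hF
    (Finset.univ.biUnion S ∪ co) (fun u hu => by
      rcases Finset.mem_union.1 hu with hu | hu
      · obtain ⟨j, -, hj⟩ := Finset.mem_biUnion.1 hu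
        exact hS1 j u hj
      · exact hcoG u hu) hr0
  have hfj : ∀ j, ‖f j z‖ ≤ 3 * ε := by
    intro j
    have h1 := hρ j z hz (fun u hu => (hu' u (Finset.mem_union_left _
      (Finset.mem_biUnion.2 ⟨j, Finset.mem_univ _, hu⟩))).trans_le (hr j).1)
      (hF'.trans_le (hr j).1)
    have h2 := hq2 j z hz fun i => (hu' _ (Finset.mem_union_right _ (hcomem i))).trans_le (hr j).2
    have hqH := GAlg_HInf hG hF (hq1 j)
    have h3 : ‖χ (HX Ω (q j))‖ ≤ ε := by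
      have hw : HInf Ω (fun z => q j z + (-1) * f j z) :=
        HInf_add hqH (HInf_mul (HInf_const Ω (-1)) (hf j))
      have h4 : HX Ω (fun z => q j z + (-1) * f j z) = HX Ω (q j) - HX Ω (f j) := by
        apply HA_ext
        intro z
        rw [HX_ev hw, map_sub, HX_ev hqH, HX_ev (hf j)]
        ring
      have h5 := hsmall _ hw ε (r₁ j) (hr₁ j) (fun z hz hzp => by
        have h6 := hq2 j z hz hzp
        rw [norm_sub_rev] at h6
        have h7 : q j z + (-1) * f j z = q j z - f j z := by ring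
        rw [h7]
        exact h6)
      rw [h4, map_sub, hχf j, sub_zero] at h5
      exact h5
    calc ‖f j z‖ = ‖(f j z - q j z) + (q j z - χ (HX Ω (q j))) + χ (HX Ω (q j))‖ := by
          congr 1; ring
      _ ≤ ‖f j z - q j z‖ + ‖q j z - χ (HX Ω (q j))‖ + ‖χ (HX Ω (q j))‖ := norm_add₃_le
      _ ≤ 3 * ε := by linarith
  have h1 := hb z hz
  have h2 : ∑ j, ‖f j z‖ ≤ k * (3 * ε) := by
    refine (Finset.sum_le_sum fun j _ => hfj j).trans ?_
    rw [Finset.sum_const, Finset.card_univ, Fintype.card_fin, nsmul_eq_mul]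
  have h3 : (k : ℝ) * (3 * ε) < δ := by
    have h4 : ε * (4 * (k + 1)) = δ := by rw [hε]; field_simp
    have h5 : (0 : ℝ) ≤ k := Nat.cast_nonneg k
    nlinarith
  linarith

end Cor
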