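import Pool.Agent.helper30.Cor.HUc

/-!
# Corona project: the Gelfand argument with prescribed members of the ideal
-/

noncomputable section

open Set Metric

namespace Cor

variable {n : ℕ}

/-- from families with all but one member in `𝒢` (and containing the functions `e i`) to families in
the closed algebra generated by `𝒢` and one function (whose ideal contains the functions `e i`) -/
theorem gelU {Ω : Set (Fin n → ℂ)} (hΩ : IsOpen Ω) {𝒢 : ((Fin n → ℂ) → ℂ) → Prop}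
    (hG : ∀ u, 𝒢 u → HInf Ω u) (hsub : ∀ u, 𝒢 u → ∀ c : ℂ, 𝒢 (fun z => u z - c))
    {ι' : Type} [Fintype ι'] (e : ι' → (Fin n → ℂ) → ℂ) (he : ∀ i, 𝒢 (e i))
    (hcor : ∀ (k : ℕ) (f : Fin k → (Fin n → ℂ) → ℂ) (j₀ : Fin k), (∀ j, HInf Ω (f j)) →
      (∀ j, j ≠ j₀ → 𝒢 (f j)) → (∀ i, ∃ j, ∀ z ∈ Ω, f j z = e i z) →
      ∀ δ > 0, (∀ z ∈ Ω, δ ≤ ∑ j, ‖f j z‖) →
      ∃ A : Fin k → (Fin n → ℂ) → ℂ, (∀ j, HInf Ω (A j)) ∧ ∀ z ∈ Ω, ∑ j, f j z * A j z = 1)
    {F : (Fin n → ℂ) → ℂ} (hF : HInf Ω F) {k : ℕ} (f : Fin k → (Fin n → ℂ) → ℂ)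
    (hf : ∀ j, HInf Ω (f j))
    (hef : ∀ i, ∃ G : Fin k → (Fin n → ℂ) → ℂ, (∀ j, HInf Ω (G j)) ∧
      ∀ z ∈ Ω, e i z = ∑ j, f j z * G j z)
    (hfa : ∀ j, ∀ ε > 0, ∃ p, GAlg 𝒢 F p ∧ ∀ z ∈ Ω, ‖f j z - p z‖ ≤ ε) {δ : ℝ} (hδ : 0 < δ)
    (hb : ∀ z ∈ Ω, δ ≤ ∑ j, ‖f j z‖) :
    ∃ A : Fin k → (Fin n → ℂ) → ℂ, (∀ j, HInf Ω (A j)) ∧ ∀ z ∈ Ω, ∑ j, f j z * A j z = 1 := by
  classical
  by_contra hno
  have : CompleteSpace (HA Ω) := HA_complete hΩ
  -- the ideal is proper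
  set I : Ideal (HA Ω) := Ideal.span (Set.range fun j => HX Ω (f j)) with hI
  have hIne : I ≠ ⊤ := by
    intro htop
    have h1 : (1 : HA Ω) ∈ I := by rw [htop]; trivial
    rw [hI, Ideal.mem_span_range_iff_exists_fun] at h1
    obtain ⟨c, hc⟩ := h1
    choose g hg1 hg2 using fun j => HX_fun (c j)
    refine hno ⟨g, hg1, fun z hz => ?_⟩
    have h2 := congrArg (HA_ev (⟨z, hz⟩ : Ω)) hc
    rw [map_sum, map_one] at h2
    rw [← h2]
    refine Finset.sum_congr rfl fun j _ => ?_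
    rw [map_mul, HX_ev (hf j), hg2 j ⟨z, hz⟩, mul_comm]
  obtain ⟨𝔪, hmax, hle⟩ := Ideal.exists_le_maximal I hIne
  set χ₀ := 𝔪.toCharacterSpace with hχ₀
  set χ : HA Ω →ₐ[ℂ] ℂ := WeakDual.CharacterSpace.equivAlgHom χ₀ with hχ
  have hχf : ∀ j, χ (HX Ω (f j)) = 0 := by
    intro j
    have h1 : HX Ω (f j) ∈ 𝔪 := hle (Ideal.subset_span ⟨j, rfl⟩)
    exact Ideal.toCharacterSpace_apply_eq_zero_of_mem 𝔪 h1
  have hχe : ∀ i, χ (HX Ω (e i)) = 0 := by
    intro i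
    obtain ⟨G, hG1, hG2⟩ := hef i
    have h1 : HX Ω (e i) = ∑ j, HX Ω (f j) * HX Ω (G j) := by
      apply HA_ext
      intro z
      rw [HX_ev (hG _ (he i)), map_sum, hG2 z.1 z.2]
      refine Finset.sum_congr rfl fun j _ => ?_
      rw [map_mul, HX_ev (hf j), HX_ev (hG1 j)]
    rw [h1, map_sum]
    refine Finset.sum_eq_zero fun j _ => ?_
    rw [map_mul, hχf j, zero_mul]
  have hone : ‖(1 : HA Ω)‖ ≤ 1 := by
    refine HA_norm_le zero_le_one fun z => ?_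
    rw [map_one]
    simp
  have hχn : ∀ x : HA Ω, ‖χ x‖ ≤ ‖x‖ := by
    intro x
    have h1 := AlgHom.norm_apply_le_self_mul_norm_one χ x
    have h2 : ‖x‖ * ‖(1 : HA Ω)‖ ≤ ‖x‖ := mul_le_of_le_one_right (norm_nonneg _) hone
    linarith
  -- approximate
  set ε : ℝ := δ / (4 * (k + 1)) with hε
  have hε0 : 0 < ε := by positivity
  choose p hp1 hp2 using fun j => hfa j ε hε0
  choose S hS1 hS2 using fun j => Gel_ctrl hG hF χ (hp1 j)
  choose ρ hρ0 hρ using fun j => hS2 j ε hε0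
  -- common radius
  have hr : ∃ r > 0, ∀ j, r ≤ ρ j := by
    rcases isEmpty_or_nonempty (Fin k) with he | he
    · exact ⟨1, one_pos, fun j => he.elim j⟩
    · obtain ⟨j, hj⟩ := Finite.exists_min ρ
      exact ⟨ρ j, hρ0 j, hj⟩
  obtain ⟨r, hr0, hr⟩ := hr
  set SS : Finset ((Fin n → ℂ) → ℂ) := Finset.univ.biUnion S ∪ Finset.univ.image e with hSS
  have hSSG : ∀ u ∈ SS, 𝒢 u := by
    intro u hu
    rcases Finset.mem_union.1 hu with hu | hu
    · obtain ⟨j, -, hj⟩ := Finset.mem_biUnion.1 hu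
      exact hS1 j u hj
    · obtain ⟨i, -, rfl⟩ := Finset.mem_image.1 hu
      exact he i
  -- subtraction of the value of the character
  have hXsub : ∀ u, HInf Ω u → HInf Ω (fun z => u z - χ (HX Ω u)) ∧
      χ (HX Ω (fun z => u z - χ (HX Ω u))) = 0 := by
    intro u hu
    have h1 : HInf Ω (fun z => u z - χ (HX Ω u)) := by
      have := HInf_add hu (HInf_const Ω (-χ (HX Ω u)))
      simpa [sub_eq_add_neg] using this
    refine ⟨h1, ?_⟩
    have h2 : HX Ω (fun z => u z - χ (HX Ω u)) = HX Ω u - algebraMap ℂ (HA Ω) (χ (HX Ω u)) := by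
      apply HA_ext
      intro z
      rw [HX_ev h1, map_sub, HX_ev hu, AlgHom.commutes]
      rfl
    rw [h2, map_sub, AlgHom.commutes]
    simp
  set eq := SS.equivFin with heq
  set v : Fin (SS.card + 1) → (Fin n → ℂ) → ℂ :=
    Fin.cons F (fun i => ((eq.symm i : SS) : (Fin n → ℂ) → ℂ)) with hv
  have hvH : ∀ j, HInf Ω (v j) := by
    intro j
    refine Fin.cases ?_ (fun i => ?_) j
    · rw [hv, Fin.cons_zero]; exact hF
    · rw [hv, Fin.cons_succ]; exact hG _ (hSSG _ (eq.symm i).2)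
  obtain ⟨z, hz, hzr⟩ : ∃ z ∈ Ω, ∑ j, ‖v j z - χ (HX Ω (v j))‖ < r := by
    by_contra hc
    push Not at hc
    obtain ⟨A, hA1, hA2⟩ := hcor (SS.card + 1) (fun j z => v j z - χ (HX Ω (v j))) 0
      (fun j => (hXsub _ (hvH j)).1) (fun j hj => by
        obtain ⟨i, rfl⟩ := Fin.exists_succ_eq.2 hj
        have h1 : 𝒢 (v i.succ) := by
          rw [hv, Fin.cons_succ]; exact hSSG _ (eq.symm i).2
        exact hsub _ h1 _) (fun i => by
        refine ⟨(eq ⟨e i, Finset.mem_union_right _ (Finset.mem_image_of_mem e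
          (Finset.mem_univ i))⟩).succ, fun z _ => ?_⟩
        simp only [hv, Fin.cons_succ, Equiv.symm_apply_apply]
        rw [hχe i, sub_zero]) r hr0 hc
    have h1 : ∑ j, HX Ω (fun z => v j z - χ (HX Ω (v j))) * HX Ω (A j) = 1 := by
      apply HA_ext
      intro z
      rw [map_sum, map_one, ← hA2 z.1 z.2]
      refine Finset.sum_congr rfl fun j _ => ?_
      rw [map_mul, HX_ev (hXsub _ (hvH j)).1, HX_ev (hA1 j)]
    have h2 := congrArg χ h1
    rw [map_sum, map_one] at h2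
    have h3 : ∑ j, χ (HX Ω (fun z => v j z - χ (HX Ω (v j))) * HX Ω (A j)) = 0 := by
      refine Finset.sum_eq_zero fun j _ => ?_
      rw [map_mul, (hXsub _ (hvH j)).2, zero_mul]
    rw [h3] at h2
    exact zero_ne_one h2
  have hclose : ∀ j, ‖v j z - χ (HX Ω (v j))‖ < r := fun j =>
    (Finset.single_le_sum (f := fun j => ‖v j z - χ (HX Ω (v j))‖)
      (fun _ _ => norm_nonneg _) (Finset.mem_univ j)).trans_lt hzr
  have hF' : ‖F z - χ (HX Ω F)‖ < r := by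
    have := hclose 0
    rwa [hv, Fin.cons_zero] at this
  have hu' : ∀ u ∈ SS, ‖u z - χ (HX Ω u)‖ < r := by
    intro u hu
    have := hclose (eq ⟨u, hu⟩).succ
    rw [hv, Fin.cons_succ, Equiv.symm_apply_apply] at this
    exact this
  have hfj : ∀ j, ‖f j z‖ ≤ 3 * ε := by
    intro j
    have h1 := hρ j z hz (fun u hu => (hu' u (Finset.mem_union_left _
      (Finset.mem_biUnion.2 ⟨j, Finset.mem_univ _, hu⟩))).trans_le
      (hr j)) (hF'.trans_le (hr j))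
    have h2 := hp2 j z hz
    have hpH := GAlg_HInf hG hF (hp1 j)
    have h3 : ‖χ (HX Ω (p j))‖ ≤ ε := by
      have h4 : χ (HX Ω (p j)) = χ (HX Ω (p j) - HX Ω (f j)) := by
        rw [map_sub, hχf j, sub_zero]
      rw [h4]
      refine (hχn _).trans (HA_norm_le hε0.le fun w => ?_)
      rw [map_sub, HX_ev hpH, HX_ev (hf j), norm_sub_rev]
      exact hp2 j w.1 w.2
    calc ‖f j z‖ = ‖(f j z - p j z) + (p j z - χ (HX Ω (p j))) + χ (HX Ω (p j))‖ := by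
          congr 1; ring
      _ ≤ ‖f j z - p j z‖ + ‖p j z - χ (HX Ω (p j))‖ + ‖χ (HX Ω (p j))‖ := norm_add₃_le
      _ ≤ 3 * ε := by linarith
  have h1 := hb z hz
  have h2 : ∑ j, ‖f j z‖ ≤ k * (3 * ε) := by
    refine (Finset.sum_le_sum fun j _ => hfj j).trans ?_
    rw [Finset.sum_const, Finset.card_univ, Fintype.card_fin, nsmul_eq_mul]
  have h3 : (k : ℝ) * (3 * ε) < δ := by
    have h4 : ε * (4 * (k + 1)) = δ := by rw [hε]; field_simp
    have h5 : (0 : ℝ) ≤ k := Nat.cast_nonneg k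
    nlinarith
  linarith

end Cor
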