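import Pool.Agent.helper30.Cor.Gel
import Pool.Agent.helper45.Cor.HCa

/-!
# Corona project: the algebra generated by the Hilbert-controlled functions and one function
-/

noncomputable section

open Set Metric

namespace Cor

theorem PD_isOpen (n : ℕ) : IsOpen (PD n) := by
  have : PD n = ⋂ i, {z : Fin n → ℂ | ‖z i‖ < 1} := by
    ext z
    simp [PD]
  rw [this]
  exact isOpen_iInter_of_finite fun i =>
    isOpen_lt ((continuous_apply i).norm) continuous_const

/-- the corona theorem for families in the closed algebra generated by the Hilbert-controlled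
functions and one arbitrary function `F` -/
theorem corona_Gen {n k : ℕ} {F : (Fin n → ℂ) → ℂ} (hF : HInf (PD n) F)
    (f : Fin k → (Fin n → ℂ) → ℂ) (hf : ∀ j, HInf (PD n) (f j))
    (hfa : ∀ j, ∀ ε > 0, ∃ p, GAlg (HC n) F p ∧ ∀ z ∈ PD n, ‖f j z - p z‖ ≤ ε)
    {δ : ℝ} (hδ : 0 < δ) (hb : ∀ z ∈ PD n, δ ≤ ∑ j, ‖f j z‖) :
    ∃ A : Fin k → (Fin n → ℂ) → ℂ, (∀ j, HInf (PD n) (A j)) ∧
      ∀ z ∈ PD n, ∑ j, f j z * A j z = 1 := by
  refine gel (PD_isOpen n) (𝒢 := HC n) (fun u hu => hu.1) (fun u hu c => ?_)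
    (fun k f j₀ hf hT δ hδ hb => corona_HC f hf j₀ hT hδ hb) hF f hf hfa hδ hb
  have := HC_add hu (HC_const (n := n) (-c))
  simpa [sub_eq_add_neg] using this

end Cor
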