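import Pool.Agent.helper45.Cor.HCa
import Pool.Agent.helper45.Cor.GPQ
import Pool.Agent.helper45.Cor.GPH
import Pool.Agent.helper30.Cor.Gen

/-!
# Corona project: generators controlled successively in all variables but the first

`HT n f`: the dependence of `f` on `z_i` (`i > 0`) is controlled by a bounded holomorphic Hilbert
space valued function of the single variable `z_i`, which may depend on the values of the later
variables, uniformly in the earlier variables; nothing is required in the variable `z_0`.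
-/

noncomputable section

open Set Metric

namespace Cor

/-- the controls on products of half planes -/
def CT (n : ℕ) (r : ℝ → ℕ) (B ρ : ℝ → ℝ) (G : (Fin n → ℂ) → ℂ) : Prop :=
  ∀ ε : ℝ, 0 < ε → ∀ (i : Fin n), ∀ w ∈ Pr (fun _ : Fin n => HP), ∃ h : Fin (r ε) → ℂ → L2,
    (∀ q, DifferentiableOn ℂ (h q) HP) ∧ (∀ q, ∀ t ∈ HP, ‖h q t‖ ≤ B ε) ∧
    ∀ z ∈ Pr (fun _ : Fin n => HP), ∀ z' ∈ Pr (fun _ : Fin n => HP), (∀ j, i < j → z j = w j) →
      (∀ j, j ≠ i → z' j = z j) → (∀ q, ‖h q (z i) - h q (z' i)‖ < ρ ε) → ‖G z - G z'‖ ≤ ε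

/-- inverse of a function bounded below -/
theorem HT_inv {n : ℕ} {O : Fin n → Set ℂ} (hO : ∀ i, IsOpen (O i)) {k : ℕ}
    {F : Fin k → (Fin n → ℂ) → ℂ} (hF : ∀ j, SH O (F j)) (j : Fin k) {ε : ℝ} (hε : 0 < ε)
    (hj : ∀ z ∈ Pr O, ε ≤ ‖F j z‖) : SolvK ε⁻¹ O F := by
  classical
  have hSH : SH O (fun z => (F j z)⁻¹) := by
    refine SH_of_diff (C := ε⁻¹) ((osgood hO (hF j)).inv fun z hz h0 => ?_) fun z hz => ?_
    · have := hj z hz
      rw [h0, norm_zero] at this
      linarith
    · rw [norm_inv]
      exact inv_anti₀ hε (hj z hz)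
  have h0 : ∀ z ∈ Pr O, F j z ≠ 0 := fun z hz h0 => by
    have := hj z hz
    rw [h0, norm_zero] at this
    linarith
  refine ⟨fun i z => if i = j then (F j z)⁻¹ else 0, fun i => ?_, fun i z hz => ?_, fun z hz => ?_⟩
  · by_cases hi : i = j
    · simp only [if_pos hi]; exact hSH
    · simp only [if_neg hi]
      exact ⟨⟨0, fun _ _ => by simp⟩, fun _ _ _ => differentiableOn_const 0⟩
  · by_cases hi : i = j
    · simp only [if_pos hi]
      rw [norm_inv]
      exact inv_anti₀ hε (hj z hz)
    · simp only [if_neg hi, norm_zero]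
      positivity
  · rw [Finset.sum_eq_single j]
    · show F j z * (if j = j then (F j z)⁻¹ else 0) = 1
      rw [if_pos rfl, mul_inv_cancel₀ (h0 z hz)]
    · intro b _ hb
      show F b z * (if b = j then (F j z)⁻¹ else 0) = 0
      rw [if_neg hb, mul_zero]
    · intro h
      exact absurd (Finset.mem_univ _) h

/-- passing from approximate generators to the generators -/
theorem HT_approx {n : ℕ} {O : Fin n → Set ℂ} (hO : ∀ i, IsOpen (O i)) {k : ℕ}
    {F F' : Fin k → (Fin n → ℂ) → ℂ} (hF : ∀ j, SH O (F j)) {K ε : ℝ} (hK : 0 ≤ K)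
    (hε : k * ε * K ≤ 1 / 2) (hd : ∀ j, ∀ z ∈ Pr O, ‖F j z - F' j z‖ ≤ ε)
    (hs : SolvK K O F') : SolvK (2 * K) O F := by
  classical
  obtain ⟨A, hA, hAK, hA1⟩ := hs
  set E : (Fin n → ℂ) → ℂ := fun z => ∑ j, F j z * A j z with hE
  have hE1 : ∀ z ∈ Pr O, 1 / 2 ≤ ‖E z‖ := by
    intro z hz
    have h1 : 1 - E z = - ∑ j, (F j z - F' j z) * A j z := by
      have h3 : ∑ j, (F j z - F' j z) * A j z = E z - 1 := by
        rw [← hA1 z hz, hE, ← Finset.sum_sub_distrib]
        exact Finset.sum_congr rfl fun j _ => by ring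
      rw [h3]; ring
    have h2 : ‖1 - E z‖ ≤ 1 / 2 := by
      rw [h1, norm_neg]
      refine (norm_sum_le _ _).trans (le_trans ?_ hε)
      calc ∑ j, ‖(F j z - F' j z) * A j z‖ ≤ ∑ _j : Fin k, ε * K := by
            refine Finset.sum_le_sum fun j _ => ?_
            rw [norm_mul]
            exact mul_le_mul (hd j z hz) (hAK j z hz) (norm_nonneg _)
              ((norm_nonneg _).trans (hd j z hz))
        _ = k * ε * K := by
            rw [Finset.sum_const, Finset.card_univ, Fintype.card_fin, nsmul_eq_mul]; ring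
    have h3 := norm_sub_norm_le (1 : ℂ) (1 - E z)
    rw [sub_sub_cancel, norm_one] at h3
    linarith
  have hE0 : ∀ z ∈ Pr O, E z ≠ 0 := fun z hz h0 => by
    have := hE1 z hz
    rw [h0, norm_zero] at this
    linarith
  have hEd : DifferentiableOn ℂ E (Pr O) := by
    have : DifferentiableOn ℂ (fun z => ∑ j, F j z * A j z) (Pr O) :=
      DifferentiableOn.fun_sum fun j _ => (osgood hO (hF j)).mul (osgood hO (hA j))
    exact this
  have hbound : ∀ j, ∀ z ∈ Pr O, ‖A j z * (E z)⁻¹‖ ≤ 2 * K := by
    intro j z hz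
    rw [norm_mul, norm_inv]
    have h1 : ‖E z‖⁻¹ ≤ 2 := by
      have := inv_anti₀ (by norm_num : (0 : ℝ) < 1 / 2) (hE1 z hz)
      simpa using this
    calc ‖A j z‖ * ‖E z‖⁻¹ ≤ K * 2 :=
          mul_le_mul (hAK j z hz) h1 (inv_nonneg.2 (norm_nonneg _)) hK
      _ = 2 * K := by ring
  refine ⟨fun j z => A j z * (E z)⁻¹, fun j => ?_, hbound, fun z hz => ?_⟩
  · exact SH_of_diff ((osgood hO (hA j)).mul (hEd.inv hE0)) (hbound j)
  · have h1 : ∑ j, F j z * (A j z * (E z)⁻¹) = E z * (E z)⁻¹ := by
      rw [hE, Finset.sum_mul]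
      exact Finset.sum_congr rfl fun j _ => by ring
    show ∑ j, F j z * (A j z * (E z)⁻¹) = 1
    rw [h1, mul_inv_cancel₀ (hE0 z hz)]

/-- finitely many Hilbert space valued functions are put together -/
theorem HT_merge {κ : Type} [Fintype κ] (h : κ → ℂ → L2) (B : ℝ)
    (hh : ∀ j, DifferentiableOn ℂ (h j) HP) (hB : ∀ j, ∀ w ∈ HP, ‖h j w‖ ≤ |B|) :
    ∃ H : ℂ → PiLp 2 (fun _ : κ => L2), DifferentiableOn ℂ H HP ∧
      (∀ w ∈ HP, ‖H w‖ ≤ Real.sqrt (∑ _j : κ, B ^ 2)) ∧ ∀ z w j, ‖h j z - h j w‖ ≤ ‖H z - H w‖ := by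
  refine ⟨fun w => WithLp.toLp 2 (fun j => h j w), ?_, ?_, ?_⟩
  · have h1 : DifferentiableOn ℂ (fun w => (fun j => h j w : κ → L2)) HP :=
      differentiableOn_pi.2 fun j => hh j
    exact (PiLp.continuousLinearEquiv 2 ℂ
      (fun _ : κ => L2)).symm.differentiable.comp_differentiableOn h1
  · intro w hw
    rw [PiLp.norm_eq_of_L2]
    refine Real.sqrt_le_sqrt (Finset.sum_le_sum fun j _ => ?_)
    have := hB j w hw
    have h0 := norm_nonneg (h j w)
    show ‖h j w‖ ^ 2 ≤ B ^ 2
    rw [← sq_abs B]
    exact pow_le_pow_left₀ h0 this 2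
  · intro z w j
    exact PiLp.norm_apply_le (p := 2) (WithLp.toLp 2 (fun j => h j z) -
      WithLp.toLp 2 (fun j => h j w) : PiLp 2 (fun _ : κ => L2)) j

/-- the induction: the other generators depend on the first `m` variables only -/
theorem HT_level (n k : ℕ) (r : ℝ → ℕ) (B ρ : ℝ → ℝ) (hρ : ∀ ε, 0 < ε → 0 < ρ ε) (m : ℕ) (hm : m ≤ n) :
    ∀ δ : ℝ, 0 < δ → ∃ K : ℝ, 0 ≤ K ∧ ∀ O : Fin n → Set ℂ, (∀ i, IsOpen (O i)) →
      (∀ i, O i ⊆ HP) → (∀ i : Fin n, i.val < m → O i = HP) →
      ∀ (j₀ : Fin k) (G : Fin k → (Fin n → ℂ) → ℂ), (∀ j, j ≠ j₀ → CT n r B ρ (G j)) →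
      (∀ j, j ≠ j₀ → SH (fun _ => HP) (G j)) →
      (∀ j, j ≠ j₀ → ∀ z ∈ Pr (fun _ => HP), ‖G j z‖ ≤ 1) →
      ∀ w ∈ Pr (fun _ : Fin n => HP), ∀ F : Fin k → (Fin n → ℂ) → ℂ, (∀ j, SH O (F j)) →
      (∀ j, ∀ z ∈ Pr O, ‖F j z‖ ≤ 1) →
      (∀ j, j ≠ j₀ → ∀ z ∈ Pr O, F j z = G j (fun i => if i.val < m then z i else w i)) →
      (∀ z ∈ Pr O, δ ≤ ∑ j, ‖F j z‖) → SolvK K O F := by
  classical
  induction m with
  | zero =>
    intro δ hδ
    refine ⟨(δ / (2 * k))⁻¹, by positivity, ?_⟩
    intro O hO _ _ j₀ G _ _ _ w _ F hF _ hFG hb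
    have hk : 0 < k := Fin.pos j₀
    have hkr : (0 : ℝ) < k := by exact_mod_cast hk
    have hk1 : (1 : ℝ) ≤ k := by exact_mod_cast hk
    have hFG' : ∀ j, j ≠ j₀ → ∀ z ∈ Pr O, F j z = G j w := by
      intro j hj z hz
      rw [hFG j hj z hz]
      congr 1
    by_cases hex : ∃ j, j ≠ j₀ ∧ δ / (2 * k) ≤ ‖G j w‖
    · obtain ⟨j, hj, hj2⟩ := hex
      refine HT_inv hO hF j (by positivity) fun z hz => ?_
      rw [hFG' j hj z hz]
      exact hj2
    · push Not at hex
      refine HT_inv hO hF j₀ (by positivity) fun z hz => ?_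
      have h2 := hb z hz
      rw [← Finset.add_sum_erase _ _ (Finset.mem_univ j₀)] at h2
      have h3 : ∑ j ∈ Finset.univ.erase j₀, ‖F j z‖ ≤
          ∑ j ∈ (Finset.univ : Finset (Fin k)).erase j₀, δ / (2 * k) := by
        refine Finset.sum_le_sum fun j hj => ?_
        have hj' : j ≠ j₀ := Finset.ne_of_mem_erase hj
        rw [hFG' j hj' z hz]
        exact (hex j hj').le
      rw [Finset.sum_const, Finset.card_erase_of_mem (Finset.mem_univ _), Finset.card_univ,
        Fintype.card_fin, nsmul_eq_mul, Nat.cast_sub (by omega : 1 ≤ k), Nat.cast_one] at h3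
      have h4 : δ / (2 * k) * k = δ / 2 := by field_simp
      have h5 : 0 ≤ δ / (2 * k) := by positivity
      nlinarith
  | succ m ih =>
    intro δ hδ
    obtain ⟨K', hK'0, hK'⟩ := ih (by omega) (δ / 2) (by positivity)
    by_cases hk : k = 0
    · subst hk
      exact ⟨0, le_rfl, fun _ _ _ _ j₀ => j₀.elim0⟩
    have hkr : (0 : ℝ) < k := by exact_mod_cast Nat.pos_of_ne_zero hk
    set ε : ℝ := min (δ / (2 * k)) (1 / (2 * k * (K' + 1))) with hε
    have hε0 : 0 < ε := lt_min (by positivity) (by positivity)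
    have hε1 : k * ε ≤ δ / 2 := by
      have := min_le_left (δ / (2 * k)) (1 / (2 * k * (K' + 1)))
      calc k * ε ≤ k * (δ / (2 * k)) := mul_le_mul_of_nonneg_left this hkr.le
        _ = δ / 2 := by field_simp
    have hε2 : k * ε * K' ≤ 1 / 2 := by
      have := min_le_right (δ / (2 * k)) (1 / (2 * k * (K' + 1)))
      calc k * ε * K' ≤ k * (1 / (2 * k * (K' + 1))) * (K' + 1) := by
            refine mul_le_mul (mul_le_mul_of_nonneg_left this hkr.le) (by linarith) hK'0
              (by positivity)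
        _ = 1 / 2 := by field_simp
    -- the Hilbert space of the merged controls
    set B' : ℝ := Real.sqrt (∑ _j : Fin k × Fin (r ε), (B ε) ^ 2) with hB'
    obtain ⟨C, hC0, hC⟩ := gpH (ι := Fin n) (E := PiLp 2 (fun _ : Fin k × Fin (r ε) => L2)) k
      (ρ := ρ ε / 2) (B := B') (by have := hρ ε hε0; positivity) (Real.sqrt_nonneg _)
      (K := 2 * K') (by positivity)
    refine ⟨C, hC0, ?_⟩
    intro O hO hOs hOm j₀ G hG hGS hG1 w hw F hF hF1 hFG hb
    set l : Fin n := ⟨m, by omega⟩ with hl
    -- the controls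
    have hc1 : ∀ j, ∃ h : Fin (r ε) → ℂ → L2, (∀ q, DifferentiableOn ℂ (h q) HP) ∧
        (∀ q, ∀ t ∈ HP, ‖h q t‖ ≤ |B ε|) ∧
        (j ≠ j₀ → ∀ z ∈ Pr (fun _ : Fin n => HP), ∀ z' ∈ Pr (fun _ : Fin n => HP),
          (∀ i, l < i → z i = w i) → (∀ i, i ≠ l → z' i = z i) →
          (∀ q, ‖h q (z l) - h q (z' l)‖ < ρ ε) → ‖G j z - G j z'‖ ≤ ε) := by
      intro j
      by_cases hj : j = j₀
      · exact ⟨fun _ _ => 0, fun _ => differentiableOn_const 0, fun _ _ _ => by simp,
          fun h => absurd hj h⟩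
      · obtain ⟨h, hd, hB, H⟩ := hG j hj ε hε0 l w hw
        exact ⟨h, hd, fun q t ht => (hB q t ht).trans (le_abs_self _), fun _ => H⟩
    choose h hd hB hH using hc1
    obtain ⟨H, hHd, hHB, hHh⟩ := HT_merge (κ := Fin k × Fin (r ε)) (fun p => h p.1 p.2) (B ε)
      (fun p => hd p.1 p.2) (fun p => hB p.1 p.2)
    refine hC l O hO (hOm l (by simp [hl])) F hF hF1 H hHd hHB fun c => ?_
    set V : Set ℂ := {t | t ∈ HP ∧ ‖H t - c‖ < ρ ε / 2} with hV
    have hVo : IsOpen V := by
      have h1 : V = HP ∩ (fun t => ‖H t - c‖) ⁻¹' Iio (ρ ε / 2) := rfl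
      rw [h1]
      exact ContinuousOn.isOpen_inter_preimage ((hHd.continuousOn.sub continuousOn_const).norm)
        Disc_HP_open isOpen_Iio
    set O' : Fin n → Set ℂ := Function.update O l V with hO'
    have hOl : O l = HP := hOm l (by simp [hl])
    have hO'o : ∀ i, IsOpen (O' i) := by
      intro i
      by_cases hi : i = l
      · subst hi; rw [hO', Function.update_self]; exact hVo
      · rw [hO', Function.update_of_ne hi]; exact hO i
    have hsub : ∀ i, O' i ⊆ O i := by
      intro i
      by_cases hi : i = l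
      · subst hi; rw [hO', Function.update_self, hOl]; exact fun t ht => ht.1
      · rw [hO', Function.update_of_ne hi]
    have hPr : Pr O' ⊆ Pr O := fun z hz i => hsub i (hz i)
    by_cases hVe : V = ∅
    · have hPe : Pr O' = ∅ := by
        ext z
        simp only [mem_empty_iff_false, iff_false]
        intro hz
        have := hz l
        rw [hO', Function.update_self, hVe] at this
        exact this
      refine ⟨fun _ _ => 0, fun j => ⟨⟨0, fun z hz => by simp⟩, fun _ _ _ =>
        differentiableOn_const 0⟩, fun j z hz => ?_, fun z hz => ?_⟩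
      · rw [hPe] at hz; exact absurd hz (notMem_empty _)
      · rw [hPe] at hz; exact absurd hz (notMem_empty _)
    obtain ⟨t₀, ht₀⟩ := Set.nonempty_iff_ne_empty.2 hVe
    set w' : Fin n → ℂ := Function.update w l t₀ with hw'
    have hw'P : w' ∈ Pr (fun _ : Fin n => HP) := by
      intro i
      by_cases hi : i = l
      · subst hi; rw [hw', Function.update_self]; exact ht₀.1
      · rw [hw', Function.update_of_ne hi]; exact hw i
    set F' : Fin k → (Fin n → ℂ) → ℂ := fun j => if j = j₀ then F j₀ else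
      fun z => G j (fun i => if i.val < m then z i else w' i) with hF'
    have hu' : ∀ z ∈ Pr O', (fun i : Fin n => if i.val < m then z i else w' i) ∈
        Pr (fun _ : Fin n => HP) := by
      intro z hz i
      show (if i.val < m then z i else w' i) ∈ HP
      split_ifs
      · exact hOs i (hPr hz i)
      · exact hw'P i
    have hu : ∀ z ∈ Pr O', (fun i : Fin n => if i.val < m + 1 then z i else w i) ∈
        Pr (fun _ : Fin n => HP) := by
      intro z hz i
      show (if i.val < m + 1 then z i else w i) ∈ HP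
      split_ifs
      · exact hOs i (hPr hz i)
      · exact hw i
    have hdF : ∀ j, ∀ z ∈ Pr O', ‖F j z - F' j z‖ ≤ ε := by
      intro j z hz
      by_cases hj : j = j₀
      · subst hj
        rw [hF']
        simp [hε0.le]
      · rw [hF', hFG j hj z (hPr hz)]
        simp only [if_neg hj]
        refine hH j hj _ (hu z hz) _ (hu' z hz) ?_ ?_ ?_
        · intro i hi
          have : m < i.val := by simpa [hl, Fin.lt_def] using hi
          show (if i.val < m + 1 then z i else w i) = w i
          rw [if_neg (by omega)]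
        · intro i hi
          have h1 : i.val ≠ m := fun h => hi (by ext; simp [hl, h])
          show (if i.val < m then z i else w' i) = (if i.val < m + 1 then z i else w i)
          by_cases h2 : i.val < m
          · rw [if_pos h2, if_pos (by omega)]
          · rw [if_neg h2, if_neg (by omega), hw', Function.update_of_ne hi]
        · have e1 : (if l.val < m + 1 then z l else w l) = z l := by
            rw [if_pos (by simp [hl])]
          have e2 : (if l.val < m then z l else w' l) = t₀ := by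
            rw [if_neg (by simp [hl]), hw', Function.update_self]
          intro q
          show ‖h j q (if l.val < m + 1 then z l else w l) -
            h j q (if l.val < m then z l else w' l)‖ < _
          rw [e1, e2]
          have hz' := hz l
          rw [hO', Function.update_self] at hz'
          refine (hHh _ _ (j, q)).trans_lt ?_
          have e3 : H (z l) - H t₀ = (H (z l) - c) - (H t₀ - c) := by abel
          rw [e3]
          have := norm_sub_le (H (z l) - c) (H t₀ - c)
          have := hz'.2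
          have := ht₀.2
          linarith
    refine HT_approx hO'o (fun j => (hF j).mono hsub) hK'0 hε2 hdF ?_
    refine hK' O' hO'o (fun i => (hsub i).trans (hOs i)) ?_ j₀ G hG hGS hG1 w' hw'P F' ?_ ?_ ?_ ?_
    · intro i hi
      have : i ≠ l := fun h => by rw [h] at hi; simp [hl] at hi
      rw [hO', Function.update_of_ne this]
      exact hOm i (by omega)
    · intro j
      by_cases hj : j = j₀
      · subst hj
        rw [hF']
        simp only [if_true]
        exact (hF j).mono hsub
      · rw [hF']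
        simp only [if_neg hj]
        refine SH_of_diff (C := 1) ?_ fun z hz => hG1 j hj _ (hu' z hz)
        refine (osgood (fun _ => Disc_HP_open) (hGS j hj)).comp (t := Pr (fun _ : Fin n => HP))
          ?_ (fun z hz => hu' z hz)
        refine differentiableOn_pi.2 fun i => ?_
        by_cases hi : i.val < m
        · simp only [if_pos hi]
          exact (differentiable_apply i).differentiableOn
        · simp only [if_neg hi]
          exact differentiableOn_const _
    · intro j z hz
      by_cases hj : j = j₀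
      · subst hj
        rw [hF']
        simp only [if_true]
        exact hF1 j z (hPr hz)
      · rw [hF']
        simp only [if_neg hj]
        exact hG1 j hj _ (hu' z hz)
    · intro j hj z hz
      rw [hF']
      simp only [if_neg hj]
    · intro z hz
      have h1 := hb z (hPr hz)
      have h2 : ∑ j, ‖F j z‖ ≤ ∑ j, (‖F' j z‖ + ε) := by
        refine Finset.sum_le_sum fun j _ => ?_
        have := hdF j z hz
        have := norm_sub_norm_le (F j z) (F' j z)
        linarith
      rw [Finset.sum_add_distrib, Finset.sum_const, Finset.card_univ, Fintype.card_fin,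
        nsmul_eq_mul] at h2
      linarith

end Cor
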