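import Pool.Agent.helper30.Cor.HT

/-!
# Corona project: the class `HT n` on the polydisc, corona theorems for it
-/

noncomputable section

open Set Metric

namespace Cor

/-- `f` is bounded and holomorphic on the polydisc, and for every `ε > 0` there are `r`, `B` and
`ρ > 0` such that for every variable `z_i` except `z_0` and every choice of values `w_j` of the
later variables `z_j`, `j > i`, there are `r` holomorphic functions `h q` on the disc, bounded by
`B`, with values in the Hilbert space `L2`, such that changing `z_i` to `z'_i` changes `f` by at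
most `ε` as soon as `‖h q (z_i) - h q (z'_i)‖ < ρ` for all `q`, whatever the earlier variables
are -/
def HT (n : ℕ) (f : (Fin n → ℂ) → ℂ) : Prop :=
  HInf (PD n) f ∧ ∀ ε : ℝ, 0 < ε → ∃ (r : ℕ) (B ρ : ℝ), 0 < ρ ∧
    ∀ i : Fin n, 0 < i.val → ∀ w ∈ PD n, ∃ h : Fin r → ℂ → L2,
      (∀ q, DifferentiableOn ℂ (h q) (ball 0 1)) ∧
      (∀ q, ∀ t ∈ ball (0 : ℂ) 1, ‖h q t‖ ≤ B) ∧
      ∀ z ∈ PD n, ∀ z' ∈ PD n, (∀ j, i < j → z j = w j) → (∀ j, j ≠ i → z' j = z j) →
        (∀ q, ‖h q (z i) - h q (z' i)‖ < ρ) → ‖f z - f z'‖ ≤ ε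

theorem HT_of_HC {n : ℕ} {f : (Fin n → ℂ) → ℂ} (hf : HC n f) : HT n f := by
  refine ⟨hf.1, fun ε hε => ?_⟩
  obtain ⟨r, h, B, ρ, hρ, hd, hB, H⟩ := hf.2 ε hε
  refine ⟨r, B, ρ, hρ, fun i _ w _ => ⟨fun q => h q i, fun q => hd q i, fun q => hB q i,
    fun z hz z' hz' _ h2 h3 => H z hz z' hz' fun q i' => ?_⟩⟩
  by_cases hi : i' = i
  · subst hi; exact h3 q
  · rw [h2 i' hi, sub_self, norm_zero]
    exact hρ

theorem HT_sub_const {n : ℕ} {f : (Fin n → ℂ) → ℂ} (hf : HT n f) (c : ℂ) :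
    HT n (fun z => f z - c) := by
  obtain ⟨C, hC⟩ := hf.1.2
  refine ⟨⟨hf.1.1.sub_const c, C + ‖c‖, fun z hz => (norm_sub_le _ _).trans
    (add_le_add (hC z hz) le_rfl)⟩, fun ε hε => ?_⟩
  obtain ⟨r, B, ρ, hρ, H⟩ := hf.2 ε hε
  refine ⟨r, B, ρ, hρ, fun i hi w hw => ?_⟩
  obtain ⟨h, hd, hB, H1⟩ := H i hi w hw
  refine ⟨h, hd, hB, fun z hz z' hz' h1 h2 h3 => ?_⟩
  have := H1 z hz z' hz' h1 h2 h3
  simpa using this

/-- the dependence of `f` on the variables `z_i`, `i > 0`, is controlled with the moduli `r`, `B`,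
`ρ` -/
def HTm (n : ℕ) (r : ℝ → ℕ) (B ρ : ℝ → ℝ) (f : (Fin n → ℂ) → ℂ) : Prop :=
  ∀ ε : ℝ, 0 < ε → ∀ i : Fin n, 0 < i.val → ∀ w ∈ PD n, ∃ h : Fin (r ε) → ℂ → L2,
    (∀ q, DifferentiableOn ℂ (h q) (ball 0 1)) ∧
    (∀ q, ∀ t ∈ ball (0 : ℂ) 1, ‖h q t‖ ≤ B ε) ∧
    ∀ z ∈ PD n, ∀ z' ∈ PD n, (∀ j, i < j → z j = w j) → (∀ j, j ≠ i → z' j = z j) →
      (∀ q, ‖h q (z i) - h q (z' i)‖ < ρ ε) → ‖f z - f z'‖ ≤ ε

/-- quantitative corona theorem: one arbitrary generator, the others controlled with the moduli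
`r`, `B`, `ρ`; the bound depends only on `n`, `k`, `r`, `B`, `ρ` and `δ` -/
theorem HT_quant (n k : ℕ) (r : ℝ → ℕ) (B ρ : ℝ → ℝ) (hρ : ∀ ε, 0 < ε → 0 < ρ ε) {δ : ℝ}
    (hδ : 0 < δ) : ∃ K : ℝ, ∀ (f : Fin k → (Fin n → ℂ) → ℂ) (j₀ : Fin k),
      (∀ j, DifferentiableOn ℂ (f j) (PD n)) → (∀ j, ∀ z ∈ PD n, ‖f j z‖ ≤ 1) →
      (∀ j, j ≠ j₀ → HTm n r B ρ (f j)) → (∀ z ∈ PD n, δ ≤ ∑ j, ‖f j z‖) →
      ∃ g : Fin k → (Fin n → ℂ) → ℂ, (∀ j, DifferentiableOn ℂ (g j) (PD n)) ∧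
        (∀ j, ∀ z ∈ PD n, ‖g j z‖ ≤ K) ∧ ∀ z ∈ PD n, ∑ j, f j z * g j z = 1 := by
  classical
  obtain ⟨K, hK0, hK⟩ := HT_level n k (fun ε => r ε + 1) (fun ε => max 1 (B ε))
    (fun ε => min ε (ρ ε)) (fun ε hε => lt_min hε (hρ ε hε)) n le_rfl δ hδ
  refine ⟨K, fun f j₀ hf hf1 hT hb => ?_⟩
  have hkball : ∀ t ∈ HP, Disc_k t ∈ ball (0 : ℂ) 1 := fun t ht =>
    mem_ball_zero_iff.mpr (Disc_k_lt ht)
  have hkPD : ∀ z ∈ Pr (fun _ : Fin n => HP), (fun i => Disc_k (z i)) ∈ PD n :=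
    fun z hz i => Disc_k_lt (hz i)
  set F : Fin k → (Fin n → ℂ) → ℂ := fun j z => f j (fun i => Disc_k (z i)) with hF
  have hF1 : ∀ j, ∀ z ∈ Pr (fun _ : Fin n => HP), ‖F j z‖ ≤ 1 := fun j z hz =>
    hf1 j _ (hkPD z hz)
  have hFS : ∀ j, SH (fun _ : Fin n => HP) (F j) := by
    intro j
    refine SH_of_diff (C := 1) ?_ (hF1 j)
    exact (hf j).comp (Disc_pi_diff Disc_k_diff (fun z hz i => hz i)) hkPD
  have hCT : ∀ j, j ≠ j₀ → CT n (fun ε => r ε + 1) (fun ε => max 1 (B ε))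
      (fun ε => min ε (ρ ε)) (F j) := by
    intro j hj ε hε i w hw
    by_cases hi : 0 < i.val
    · obtain ⟨h, hd, hB, H⟩ := hT j hj ε hε i hi (fun i => Disc_k (w i)) (hkPD w hw)
      refine ⟨fun q => if hq : q.val < r ε then fun t => h ⟨q.val, hq⟩ (Disc_k t) else fun _ => 0,
        fun q => ?_, fun q t ht => ?_, fun z hz z' hz' h1 h2 h3 => ?_⟩
      · by_cases hq : q.val < r ε
        · simp only [dif_pos hq]
          exact (hd _).comp Disc_k_diff hkball
        · simp only [dif_neg hq]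
          exact differentiableOn_const 0
      · by_cases hq : q.val < r ε
        · simp only [dif_pos hq]
          exact (hB _ _ (hkball t ht)).trans (le_max_right _ _)
        · simp only [dif_neg hq, norm_zero]
          exact zero_le_one.trans (le_max_left _ _)
      · refine H _ (hkPD z hz) _ (hkPD z' hz') (fun j hj => by rw [h1 j hj])
          (fun j hj => by rw [h2 j hj]) fun q => ?_
        have h4 := h3 ⟨q.val, by have := q.isLt; show q.val < r ε + 1; omega⟩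
        simp only [dif_pos q.isLt] at h4
        exact h4.trans_le (min_le_right _ _)
    · set e : L2 := lp.single 2 0 (1 : ℂ) with he
      have hen : ‖e‖ = 1 := by
        rw [he, lp.norm_single (by norm_num)]
        simp
      have hwu : ∀ t ∈ HP, Function.update w i t ∈ Pr (fun _ : Fin n => HP) := by
        intro t ht i'
        by_cases h : i' = i
        · subst h; simpa using ht
        · rw [Function.update_of_ne h]; exact hw i'
      refine ⟨fun _ t => F j (Function.update w i t) • e, ?_, ?_, ?_⟩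
      · intro _
        exact ((hFS j).2 w hw i).smul_const e
      · intro _ t ht
        rw [norm_smul, hen, mul_one]
        exact (hF1 j _ (hwu t ht)).trans (le_max_left _ _)
      · intro z hz z' hz' h1 h2 h3
        have hi0 : ∀ i' : Fin n, i' ≠ i → i < i' := by
          intro i' hi'
          rw [Fin.lt_def]
          have : i'.val ≠ i.val := fun h => hi' (Fin.ext h)
          omega
        have e1 : Function.update w i (z i) = z := by
          ext i'
          by_cases h : i' = i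
          · subst h; simp
          · rw [Function.update_of_ne h, h1 i' (hi0 i' h)]
        have e2 : Function.update w i (z' i) = z' := by
          ext i'
          by_cases h : i' = i
          · subst h; simp
          · rw [Function.update_of_ne h, h2 i' h, h1 i' (hi0 i' h)]
        have h3 := h3 0
        simp only [e1, e2] at h3
        rw [← sub_smul, norm_smul, hen, mul_one] at h3
        exact h3.le.trans (min_le_left _ _)
  set w₀ : Fin n → ℂ := fun _ => Complex.I with hw₀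
  have hw₀P : w₀ ∈ Pr (fun _ : Fin n => HP) := by
    intro i
    show 0 < (Complex.I).im
    simp
  obtain ⟨A, hA, hAK, hA1⟩ := hK (fun _ => HP) (fun _ => Disc_HP_open) (fun _ => Subset.rfl)
    (fun _ _ => rfl) j₀ F hCT (fun j _ => hFS j) (fun j _ => hF1 j) w₀ hw₀P F hFS hF1
    (fun j _ z _ => by
      congr 1
      ext i
      rw [if_pos i.isLt])
    (fun z hz => hb _ (hkPD z hz))
  have hkiP : ∀ z ∈ PD n, (fun i => Disc_ki (z i)) ∈ Pr (fun _ : Fin n => HP) :=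
    fun z hz i => Disc_ki_mem (hz i)
  refine ⟨fun j z => A j (fun i => Disc_ki (z i)), fun j => ?_, fun j z hz => ?_,
    fun z hz => ?_⟩
  · have h1 : DifferentiableOn ℂ (A j) (Pr (fun _ : Fin n => HP)) :=
      osgood (fun _ => Disc_HP_open) (hA j)
    exact h1.comp (Disc_pi_diff Disc_ki_diff (fun z hz i => mem_ball_zero_iff.mpr (hz i))) hkiP
  · exact hAK j _ (hkiP z hz)
  · have h1 := hA1 _ (hkiP z hz)
    have h2 : (fun i => Disc_k (Disc_ki (z i))) = z := funext (fun i => Disc_k_ki (hz i))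
    rw [← h1]
    refine Finset.sum_congr rfl fun j _ => ?_
    rw [hF]
    show f j z * A j (fun i => Disc_ki (z i)) =
      f j (fun i => Disc_k (Disc_ki (z i))) * A j (fun i => Disc_ki (z i))
    rw [h2]

/-- corona theorem: one arbitrary generator, the others in the class `HT n` -/
theorem corona_HT {n k : ℕ} (f : Fin k → (Fin n → ℂ) → ℂ) (hf : ∀ j, HInf (PD n) (f j))
    (j₀ : Fin k) (hT : ∀ j, j ≠ j₀ → HT n (f j)) {c : ℝ} (hc : 0 < c)
    (hb : ∀ z ∈ PD n, c ≤ ∑ j, ‖f j z‖) :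
    ∃ g : Fin k → (Fin n → ℂ) → ℂ, (∀ j, HInf (PD n) (g j)) ∧
      ∀ z ∈ PD n, ∑ j, f j z * g j z = 1 := by
  classical
  have hk : 0 < k := Fin.pos j₀
  have hkr : (0 : ℝ) < k := by exact_mod_cast hk
  -- a common bound
  have hbd : ∃ M : ℝ, 1 ≤ M ∧ ∀ j, ∀ z ∈ PD n, ‖f j z‖ ≤ M := by
    choose b hb' using fun j => (hf j).2
    refine ⟨1 + ∑ j, |b j|, ?_, ?_⟩
    · have : 0 ≤ ∑ j, |b j| := Finset.sum_nonneg fun j _ => abs_nonneg _
      linarith
    · intro j z hz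
      have h1 : |b j| ≤ ∑ j, |b j| :=
        Finset.single_le_sum (f := fun j => |b j|) (fun i _ => abs_nonneg _) (Finset.mem_univ j)
      have h2 := hb' j z hz
      have h3 := le_abs_self (b j)
      linarith
  obtain ⟨M, hM1, hM⟩ := hbd
  have hM0 : (0 : ℝ) < M := by linarith
  have hMc : (M : ℂ) ≠ 0 := by exact_mod_cast hM0.ne'
  -- the controls with a common modulus
  have hctl : ∀ ε : ℝ, ∃ (r : ℕ) (B ρ : ℝ), 0 < ε → 0 < ρ ∧
      ∀ j, j ≠ j₀ → ∀ i : Fin n, 0 < i.val → ∀ w ∈ PD n,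
      ∃ h : Fin r → ℂ → L2, (∀ q, DifferentiableOn ℂ (h q) (ball 0 1)) ∧
      (∀ q, ∀ t ∈ ball (0 : ℂ) 1, ‖h q t‖ ≤ B) ∧
      ∀ z ∈ PD n, ∀ z' ∈ PD n, (∀ j, i < j → z j = w j) → (∀ j, j ≠ i → z' j = z j) →
        (∀ q, ‖h q (z i) - h q (z' i)‖ < ρ) → ‖f j z - f j z'‖ ≤ M * ε := by
    intro ε
    by_cases hε : 0 < ε
    swap
    · exact ⟨0, 0, 0, fun h => absurd h hε⟩
    have h1 : ∀ j, ∃ (r : ℕ) (B ρ : ℝ), 0 < ρ ∧ (j ≠ j₀ → ∀ i : Fin n, 0 < i.val → ∀ w ∈ PD n,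
        ∃ h : Fin r → ℂ → L2, (∀ q, DifferentiableOn ℂ (h q) (ball 0 1)) ∧
        (∀ q, ∀ t ∈ ball (0 : ℂ) 1, ‖h q t‖ ≤ B) ∧
        ∀ z ∈ PD n, ∀ z' ∈ PD n, (∀ j, i < j → z j = w j) → (∀ j, j ≠ i → z' j = z j) →
          (∀ q, ‖h q (z i) - h q (z' i)‖ < ρ) → ‖f j z - f j z'‖ ≤ M * ε) := by
      intro j
      by_cases hj : j = j₀
      · exact ⟨0, 0, 1, one_pos, fun h => absurd hj h⟩
      · obtain ⟨r, B, ρ, hρ, H⟩ := (hT j hj).2 (M * ε) (by positivity)
        exact ⟨r, B, ρ, hρ, fun _ => H⟩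
    choose r B ρ hρ H using h1
    have hne : (Finset.univ : Finset (Fin k)).Nonempty := ⟨j₀, Finset.mem_univ _⟩
    have hB0 : 0 ≤ ∑ j, |B j| := Finset.sum_nonneg fun j _ => abs_nonneg _
    refine ⟨∑ j, r j, ∑ j, |B j|, Finset.univ.inf' hne ρ, fun _ => ⟨?_, ?_⟩⟩
    · exact (Finset.lt_inf'_iff hne).2 fun j _ => hρ j
    · intro j hj i hi w hw
      obtain ⟨h, hd, hB, H1⟩ := H j hj i hi w hw
      have hrj : r j ≤ ∑ j, r j :=
        Finset.single_le_sum (f := r) (fun i _ => Nat.zero_le _) (Finset.mem_univ j)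
      refine ⟨fun q => if hq : q.val < r j then h ⟨q.val, hq⟩ else fun _ => 0, fun q => ?_,
        fun q t ht => ?_, fun z hz z' hz' h1 h2 h3 => H1 z hz z' hz' h1 h2 fun q => ?_⟩
      · by_cases hq : q.val < r j
        · simp only [dif_pos hq]; exact hd _
        · simp only [dif_neg hq]; exact differentiableOn_const 0
      · have h1 : |B j| ≤ ∑ j, |B j| :=
          Finset.single_le_sum (f := fun j => |B j|) (fun i _ => abs_nonneg _) (Finset.mem_univ j)
        have h3 := le_abs_self (B j)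
        by_cases hq : q.val < r j
        · simp only [dif_pos hq]
          have h2 := hB ⟨q.val, hq⟩ t ht
          linarith
        · simp only [dif_neg hq, norm_zero]
          linarith
      · have h4 := h3 ⟨q.val, by have := q.isLt; omega⟩
        simp only [dif_pos q.isLt] at h4
        exact h4.trans_le (Finset.inf'_le _ (Finset.mem_univ j))
  choose r B ρ hctl using hctl
  have hsub : ∀ j z z', ‖f j z / (M : ℂ) - f j z' / (M : ℂ)‖ = ‖f j z - f j z'‖ / M := by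
    intro j z z'
    rw [← sub_div, norm_div, Complex.norm_real, Real.norm_of_nonneg hM0.le]
  have hnorm : ∀ j z, ‖f j z / (M : ℂ)‖ = ‖f j z‖ / M := by
    intro j z
    rw [norm_div, Complex.norm_real, Real.norm_of_nonneg hM0.le]
  obtain ⟨K, hK⟩ := HT_quant n k r B ρ (fun ε hε => (hctl ε hε).1) (δ := c / M) (by positivity)
  obtain ⟨g, hg, hgK, hg1⟩ := hK (fun j z => f j z / (M : ℂ)) j₀
    (fun j => by simpa only [div_eq_mul_inv] using (hf j).1.mul_const ((M : ℂ)⁻¹))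
    (fun j z hz => by
      rw [hnorm]
      exact (div_le_one hM0).2 (hM j z hz))
    (fun j hj ε hε i hi w hw => by
      obtain ⟨h, hd, hB, H⟩ := (hctl ε hε).2 j hj i hi w hw
      refine ⟨h, hd, hB, fun z hz z' hz' h1 h2 h3 => ?_⟩
      rw [hsub, div_le_iff₀ hM0, mul_comm]
      exact H z hz z' hz' h1 h2 h3)
    (fun z hz => by
      have h1 := hb z hz
      simp only [hnorm]
      rw [← Finset.sum_div]
      exact div_le_div_of_nonneg_right h1 hM0.le)
  refine ⟨fun j z => g j z / (M : ℂ), fun j => ⟨?_, K / M, fun z hz => ?_⟩, fun z hz => ?_⟩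
  · simpa only [div_eq_mul_inv] using (hg j).mul_const ((M : ℂ)⁻¹)
  · rw [norm_div, Complex.norm_real, Real.norm_of_nonneg hM0.le]
    exact div_le_div_of_nonneg_right (hgK j z hz) hM0.le
  · rw [← hg1 z hz]
    refine Finset.sum_congr rfl fun j _ => ?_
    ring

/-- the corona theorem for families in the closed algebra generated by the class `HT n` and one
arbitrary function `F` -/
theorem corona_GenT {n k : ℕ} {F : (Fin n → ℂ) → ℂ} (hF : HInf (PD n) F)
    (f : Fin k → (Fin n → ℂ) → ℂ) (hf : ∀ j, HInf (PD n) (f j))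
    (hfa : ∀ j, ∀ ε > 0, ∃ p, GAlg (HT n) F p ∧ ∀ z ∈ PD n, ‖f j z - p z‖ ≤ ε)
    {δ : ℝ} (hδ : 0 < δ) (hb : ∀ z ∈ PD n, δ ≤ ∑ j, ‖f j z‖) :
    ∃ A : Fin k → (Fin n → ℂ) → ℂ, (∀ j, HInf (PD n) (A j)) ∧
      ∀ z ∈ PD n, ∑ j, f j z * A j z = 1 :=
  gel (PD_isOpen n) (𝒢 := HT n) (fun _ hu => hu.1) (fun _ hu c => HT_sub_const hu c)
    (fun _ f j₀ hf hT _ hδ hb => corona_HT f hf j₀ hT hδ hb) hF f hf hfa hδ hb

end Cor
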