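import Pool.Agent.helper30.Cor.HTc

/-!
# Corona project: the class `HT n` is a closed algebra; members
-/

noncomputable section

open Set Metric

namespace Cor

/-- common control of two functions of the class -/
theorem HT_two {n : ℕ} {f g : (Fin n → ℂ) → ℂ} (hf : HT n f) (hg : HT n g) {ε : ℝ} (hε : 0 < ε) :
    ∃ (r : ℕ) (B ρ : ℝ), 0 < ρ ∧ ∀ i : Fin n, 0 < i.val → ∀ w ∈ PD n, ∃ h : Fin r → ℂ → L2,
    (∀ q, DifferentiableOn ℂ (h q) (ball 0 1)) ∧ (∀ q, ∀ t ∈ ball (0 : ℂ) 1, ‖h q t‖ ≤ B) ∧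
    ∀ z ∈ PD n, ∀ z' ∈ PD n, (∀ j, i < j → z j = w j) → (∀ j, j ≠ i → z' j = z j) →
      (∀ q, ‖h q (z i) - h q (z' i)‖ < ρ) → ‖f z - f z'‖ ≤ ε ∧ ‖g z - g z'‖ ≤ ε := by
  obtain ⟨r, B, ρ, hρ, H⟩ := hf.2 ε hε
  obtain ⟨r', B', ρ', hρ', H'⟩ := hg.2 ε hε
  refine ⟨r + r', max B B', min ρ ρ', lt_min hρ hρ', fun i hi w hw => ?_⟩
  obtain ⟨h, hd, hB, H⟩ := H i hi w hw
  obtain ⟨h', hd', hB', H'⟩ := H' i hi w hw
  refine ⟨Fin.append h h', ?_, ?_, ?_⟩
  · intro q
    refine Fin.addCases (fun q => ?_) (fun q => ?_) q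
    · rw [Fin.append_left]; exact hd q
    · rw [Fin.append_right]; exact hd' q
  · intro q w hw
    refine Fin.addCases (fun q => ?_) (fun q => ?_) q
    · rw [Fin.append_left]; exact (hB q w hw).trans (le_max_left _ _)
    · rw [Fin.append_right]; exact (hB' q w hw).trans (le_max_right _ _)
  · intro z hz z' hz' h1 h2 h3
    constructor
    · refine H z hz z' hz' h1 h2 fun q => ?_
      have := h3 (Fin.castAdd r' q)
      rw [Fin.append_left] at this
      exact this.trans_le (min_le_left _ _)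
    · refine H' z hz z' hz' h1 h2 fun q => ?_
      have := h3 (Fin.natAdd r q)
      rw [Fin.append_right] at this
      exact this.trans_le (min_le_right _ _)

theorem HT_add {n : ℕ} {f g : (Fin n → ℂ) → ℂ} (hf : HT n f) (hg : HT n g) :
    HT n (fun z => f z + g z) := by
  obtain ⟨Cf, hCf⟩ := hf.1.2
  obtain ⟨Cg, hCg⟩ := hg.1.2
  refine ⟨⟨hf.1.1.add hg.1.1, Cf + Cg, fun z hz => (norm_add_le _ _).trans
    (add_le_add (hCf z hz) (hCg z hz))⟩, fun ε hε => ?_⟩
  obtain ⟨r, B, ρ, hρ, H⟩ := HT_two hf hg (half_pos hε)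
  refine ⟨r, B, ρ, hρ, fun i hi w hw => ?_⟩
  obtain ⟨h, hd, hB, H⟩ := H i hi w hw
  refine ⟨h, hd, hB, fun z hz z' hz' h1 h2 h3 => ?_⟩
  obtain ⟨h4, h5⟩ := H z hz z' hz' h1 h2 h3
  have e : f z + g z - (f z' + g z') = (f z - f z') + (g z - g z') := by ring
  rw [e]
  have := norm_add_le (f z - f z') (g z - g z')
  linarith

theorem HT_mul {n : ℕ} {f g : (Fin n → ℂ) → ℂ} (hf : HT n f) (hg : HT n g) :
    HT n (fun z => f z * g z) := by
  obtain ⟨Cf, hCf⟩ := hf.1.2
  obtain ⟨Cg, hCg⟩ := hg.1.2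
  have hCf' : ∀ z ∈ PD n, ‖f z‖ ≤ |Cf| := fun z hz => (hCf z hz).trans (le_abs_self _)
  have hCg' : ∀ z ∈ PD n, ‖g z‖ ≤ |Cg| := fun z hz => (hCg z hz).trans (le_abs_self _)
  refine ⟨⟨hf.1.1.mul hg.1.1, |Cf| * |Cg|, fun z hz => ?_⟩, fun ε hε => ?_⟩
  · rw [norm_mul]
    exact mul_le_mul (hCf' z hz) (hCg' z hz) (norm_nonneg _) (abs_nonneg _)
  set D : ℝ := |Cf| + |Cg| + 1 with hD
  have hD0 : 0 < D := by positivity
  obtain ⟨r, B, ρ, hρ, H⟩ := HT_two hf hg (div_pos hε hD0)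
  refine ⟨r, B, ρ, hρ, fun i hi w hw => ?_⟩
  obtain ⟨h, hd, hB, H⟩ := H i hi w hw
  refine ⟨h, hd, hB, fun z hz z' hz' h1 h2 h3 => ?_⟩
  obtain ⟨h1, h2⟩ := H z hz z' hz' h1 h2 h3
  have e : f z * g z - f z' * g z' = f z * (g z - g z') + (f z - f z') * g z' := by ring
  rw [e]
  refine (norm_add_le _ _).trans ?_
  rw [norm_mul, norm_mul]
  have h3 : ‖f z‖ * ‖g z - g z'‖ ≤ |Cf| * (ε / D) :=
    mul_le_mul (hCf' z hz) h2 (norm_nonneg _) (abs_nonneg _)
  have h4 : ‖f z - f z'‖ * ‖g z'‖ ≤ (ε / D) * |Cg| :=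
    mul_le_mul h1 (hCg' z' hz') (norm_nonneg _) (div_pos hε hD0).le
  have h5 : D * (ε / D) = ε := by field_simp
  have h6 : 0 < ε / D := div_pos hε hD0
  rw [hD] at h5
  nlinarith

theorem HT_const {n : ℕ} (c : ℂ) : HT n (fun _ => c) := HT_of_HC (HC_const c)

theorem HT_lim {n : ℕ} {f : (Fin n → ℂ) → ℂ} (hd : HInf (PD n) f)
    (hf : ∀ ε : ℝ, 0 < ε → ∃ g, HT n g ∧ ∀ z ∈ PD n, ‖f z - g z‖ ≤ ε) : HT n f := by
  refine ⟨hd, fun ε hε => ?_⟩
  obtain ⟨g, hg, hfg⟩ := hf (ε / 3) (by positivity)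
  obtain ⟨r, B, ρ, hρ, H⟩ := hg.2 (ε / 3) (by positivity)
  refine ⟨r, B, ρ, hρ, fun i hi w hw => ?_⟩
  obtain ⟨h, hd, hB, H⟩ := H i hi w hw
  refine ⟨h, hd, hB, fun z hz z' hz' h1 h2 h3 => ?_⟩
  have h1 := H z hz z' hz' h1 h2 h3
  have h2 := hfg z hz
  have h3 := hfg z' hz'
  have e : f z - f z' = (f z - g z) + (g z - g z') - (f z' - g z') := by ring
  rw [e]
  have := norm_sub_le ((f z - g z) + (g z - g z')) (f z' - g z')
  have := norm_add_le (f z - g z) (g z - g z')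
  linarith

/-- no condition for `n = 1` -/
theorem HT_one {f : (Fin 1 → ℂ) → ℂ} (hf : HInf (PD 1) f) : HT 1 f :=
  ⟨hf, fun _ _ => ⟨0, 0, 1, one_pos, fun i hi => absurd i.isLt (by omega)⟩⟩

/-- functions of the class of an increasing selection of the variables -/
theorem HT_comp {m n : ℕ} {g : (Fin m → ℂ) → ℂ} (hg : HT m g) (σ : Fin m → Fin n)
    (hσ : StrictMono σ) : HT n (fun z => g (fun i => z (σ i))) := by
  classical
  obtain ⟨C, hC⟩ := hg.1.2
  have hmap : ∀ z ∈ PD n, (fun i => z (σ i)) ∈ PD m := fun z hz i => hz (σ i)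
  refine ⟨⟨?_, C, fun z hz => hC _ (hmap z hz)⟩, fun ε hε => ?_⟩
  · refine hg.1.1.comp ?_ hmap
    exact (differentiable_pi.2 fun i => differentiable_apply (σ i)).differentiableOn
  obtain ⟨r, B, ρ, hρ, H⟩ := hg.2 ε hε
  have hC0 : 0 ≤ |C| := abs_nonneg C
  set e : L2 := lp.single 2 0 (1 : ℂ) with he
  have hen : ‖e‖ = 1 := by
    rw [he, lp.norm_single (by norm_num)]
    simp
  refine ⟨r + 1, max |B| |C|, min ρ ε, lt_min hρ hε, fun i hi w hw => ?_⟩
  by_cases hr : ∃ i', σ i' = i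
  swap
  · refine ⟨fun _ _ => 0, fun _ => differentiableOn_const 0, fun _ _ _ => ?_, ?_⟩
    · rw [norm_zero]; positivity
    · intro z _ z' _ _ h2 _
      have : (fun i => z (σ i)) = fun i => z' (σ i) := by
        ext i'
        exact (h2 (σ i') fun h => hr ⟨i', h⟩).symm
      show ‖g (fun i => z (σ i)) - g (fun i => z' (σ i))‖ ≤ ε
      rw [this, sub_self, norm_zero]
      exact hε.le
  obtain ⟨i', rfl⟩ := hr
  by_cases hi' : 0 < i'.val
  · obtain ⟨h, hd, hB, H⟩ := H i' hi' _ (hmap w hw)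
    refine ⟨fun q => if hq : q.val < r then h ⟨q.val, hq⟩ else fun _ => 0, fun q => ?_,
      fun q t ht => ?_, fun z hz z' hz' h1 h2 h3 => ?_⟩
    · by_cases hq : q.val < r
      · simp only [dif_pos hq]; exact hd _
      · simp only [dif_neg hq]; exact differentiableOn_const 0
    · by_cases hq : q.val < r
      · simp only [dif_pos hq]
        exact (hB _ _ ht).trans ((le_abs_self _).trans (le_max_left _ _))
      · simp only [dif_neg hq, norm_zero]; positivity
    · refine H _ (hmap z hz) _ (hmap z' hz') (fun j hj => h1 (σ j) (hσ hj))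
        (fun j hj => h2 (σ j) fun h => hj (hσ.injective h)) fun q => ?_
      have h4 := h3 ⟨q.val, by have := q.isLt; omega⟩
      simp only [dif_pos q.isLt] at h4
      exact h4.trans_le (min_le_left _ _)
  · have hlt : ∀ j : Fin m, j ≠ i' → i' < j := by
      intro j hj
      rw [Fin.lt_def]
      have : j.val ≠ i'.val := fun h => hj (Fin.ext h)
      omega
    have hmem : ∀ t ∈ ball (0 : ℂ) 1, Function.update (fun i => w (σ i)) i' t ∈ PD m := by
      intro t ht j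
      by_cases hj : j = i'
      · subst hj; simpa using ht
      · rw [Function.update_of_ne hj]; exact hw _
    refine ⟨fun _ t => g (Function.update (fun i => w (σ i)) i' t) • e, fun _ => ?_,
      fun _ t ht => ?_, fun z hz z' hz' h1 h2 h3 => ?_⟩
    · refine DifferentiableOn.smul_const ?_ e
      refine hg.1.1.comp ?_ hmem
      refine (differentiable_pi.2 fun j => ?_).differentiableOn
      by_cases hj : j = i'
      · subst hj; simp only [Function.update_self]; exact differentiable_id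
      · simp only [Function.update_of_ne hj]; exact differentiable_const _
    · rw [norm_smul, hen, mul_one]
      exact (hC _ (hmem t ht)).trans ((le_abs_self _).trans (le_max_right _ _))
    · have e1 : Function.update (fun i => w (σ i)) i' (z (σ i')) = fun i => z (σ i) := by
        ext j
        by_cases hj : j = i'
        · subst hj; simp
        · rw [Function.update_of_ne hj]
          exact (h1 (σ j) (hσ (hlt j hj))).symm
      have e2 : Function.update (fun i => w (σ i)) i' (z' (σ i')) = fun i => z' (σ i) := by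
        ext j
        by_cases hj : j = i'
        · subst hj; simp
        · rw [Function.update_of_ne hj, h2 (σ j) fun h => hj (hσ.injective h)]
          exact (h1 (σ j) (hσ (hlt j hj))).symm
      have h4 := h3 0
      simp only [e1, e2] at h4
      rw [← sub_smul, norm_smul, hen, mul_one] at h4
      exact h4.le.trans (min_le_right _ _)

/-- functions of one variable -/
theorem HT_var {n : ℕ} (i : Fin n) {h : ℂ → ℂ} (hh : H1 h) : HT n (fun z => h (z i)) :=
  HT_of_HC (HC_var i hh)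

/-- multiplication by a sequence bounded by `1` in `L2` -/
theorem HT_diag (a : ℕ → ℂ) (ha : ∀ q, ‖a q‖ ≤ 1) :
    ∃ D : L2 →L[ℂ] L2, (∀ x, ‖D x‖ ≤ ‖x‖) ∧ ∀ x q, (D x : ℕ → ℂ) q = a q * (x : ℕ → ℂ) q := by
  have hmem : ∀ x : L2, Memℓp (fun q => a q * (x : ℕ → ℂ) q) 2 := by
    intro x
    have h1 := lp.memℓp x
    refine memℓp_gen ?_
    have h2 : Summable fun q => ‖(x : ℕ → ℂ) q‖ ^ (2 : ENNReal).toReal :=
      h1.summable (by norm_num)
    refine Summable.of_nonneg_of_le (fun q => by positivity) (fun q => ?_) h2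
    refine Real.rpow_le_rpow (norm_nonneg _) ?_ (by norm_num)
    rw [norm_mul]
    exact mul_le_of_le_one_left (norm_nonneg _) (ha q)
  have hle : ∀ x : L2, ‖(⟨fun q => a q * (x : ℕ → ℂ) q, hmem x⟩ : L2)‖ ≤ ‖x‖ := by
    intro x
    refine lp.norm_le_of_tsum_le (by norm_num) (norm_nonneg _) ?_
    rw [lp.norm_rpow_eq_tsum (by norm_num) x]
    refine Summable.tsum_le_tsum (fun q => ?_) ((hmem x).summable (by norm_num))
      ((lp.memℓp x).summable (by norm_num))
    refine Real.rpow_le_rpow (norm_nonneg _) ?_ (by norm_num)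
    show ‖a q * (x : ℕ → ℂ) q‖ ≤ _
    rw [norm_mul]
    exact mul_le_of_le_one_left (norm_nonneg _) (ha q)
  let D0 : L2 →ₗ[ℂ] L2 :=
    { toFun := fun x => ⟨fun q => a q * (x : ℕ → ℂ) q, hmem x⟩
      map_add' := fun x y => by
        ext q
        show a q * ((x + y : L2) : ℕ → ℂ) q = a q * (x : ℕ → ℂ) q + a q * (y : ℕ → ℂ) q
        rw [lp.coeFn_add, Pi.add_apply, mul_add]
      map_smul' := fun c x => by
        ext q
        show a q * ((c • x : L2) : ℕ → ℂ) q = c * (a q * (x : ℕ → ℂ) q)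
        rw [lp.coeFn_smul, Pi.smul_apply, smul_eq_mul]
        ring }
  exact ⟨D0.mkContinuous 1 fun x => by rw [one_mul]; exact hle x, hle, fun x q => rfl⟩

/-- sums `∑ a_q(z_0) b_q(z_1) c_q(z_1)`, with arbitrary `a_q` bounded by `1` -/
theorem HT_sum {a : ℕ → ℂ → ℂ} (ha : ∀ q, DifferentiableOn ℂ (a q) (ball 0 1))
    (ha1 : ∀ q, ∀ t ∈ ball (0 : ℂ) 1, ‖a q t‖ ≤ 1) {b c : ℂ → L2}
    (hb : DifferentiableOn ℂ b (ball 0 1)) (hc : DifferentiableOn ℂ c (ball 0 1)) {B : ℝ}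
    (hbB : ∀ t ∈ ball (0 : ℂ) 1, ‖b t‖ ≤ B) (hcB : ∀ t ∈ ball (0 : ℂ) 1, ‖c t‖ ≤ B) :
    HT 2 (fun z => ∑' q, a q (z 0) * (b (z 1) : ℕ → ℂ) q * (c (z 1) : ℕ → ℂ) q) := by
  classical
  have hB0 : 0 ≤ B := (norm_nonneg _).trans (hbB 0 (mem_ball_self one_pos))
  have hmem : ∀ (i : Fin 2), ∀ z ∈ PD 2, z i ∈ ball (0 : ℂ) 1 := fun i z hz =>
    mem_ball_zero_iff.2 (hz i)
  have hD : ∀ s : ℂ, ∃ D : L2 →L[ℂ] L2, (s ∈ ball (0 : ℂ) 1 → ∀ x, ‖D x‖ ≤ ‖x‖) ∧
      (s ∈ ball (0 : ℂ) 1 → ∀ x q, (D x : ℕ → ℂ) q = a q s * (x : ℕ → ℂ) q) := by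
    intro s
    by_cases hs : s ∈ ball (0 : ℂ) 1
    · obtain ⟨D, h1, h2⟩ := HT_diag (fun q => a q s) (fun q => ha1 q s hs)
      exact ⟨D, fun _ => h1, fun _ => h2⟩
    · exact ⟨0, fun h => absurd h hs, fun h => absurd h hs⟩
  choose D hDn hD1 using hD
  set f : (Fin 2 → ℂ) → ℂ :=
    fun z => ∑' q, a q (z 0) * (b (z 1) : ℕ → ℂ) q * (c (z 1) : ℕ → ℂ) q with hf
  have e : ∀ z ∈ PD 2, f z = pairL (D (z 0) (b (z 1))) (c (z 1)) := by
    intro z hz
    rw [pairL_apply, hf]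
    refine tsum_congr fun q => ?_
    rw [hD1 _ (hmem 0 z hz)]
  have hbound : ∀ z ∈ PD 2, ‖f z‖ ≤ B * B := by
    intro z hz
    rw [e z hz]
    exact (pairL_le _ _).trans (mul_le_mul ((hDn _ (hmem 0 z hz) _).trans (hbB _ (hmem 1 z hz)))
      (hcB _ (hmem 1 z hz)) (norm_nonneg _) hB0)
  have hPr : PD 2 = Pr (fun _ : Fin 2 => ball (0 : ℂ) 1) := by
    ext z
    exact forall_congr' fun i => (mem_ball_zero_iff (a := z i)).symm
  have hSH : SH (fun _ : Fin 2 => ball (0 : ℂ) 1) f := by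
    refine ⟨⟨B * B, fun z hz => hbound z (by rw [hPr]; exact hz)⟩, fun z hz l => ?_⟩
    fin_cases l
    · -- the variable `z 0`
      have h1 : DifferentiableOn ℂ (fun t => ∑' q, a q t * (b (z 1) : ℕ → ℂ) q *
          (c (z 1) : ℕ → ℂ) q) (ball 0 1) := by
        refine Complex.differentiableOn_tsum_of_summable_norm
          (u := fun q => ‖(b (z 1) : ℕ → ℂ) q‖ * ‖(c (z 1) : ℕ → ℂ) q‖) ?_
          (fun q => ((ha q).mul_const _).mul_const _) isOpen_ball (fun q t ht => ?_)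
        · have s1 : Summable fun q => ‖(b (z 1) : ℕ → ℂ) q‖ ^ (2 : ENNReal).toReal :=
            (lp.memℓp (b (z 1))).summable (by norm_num)
          have s2 : Summable fun q => ‖(c (z 1) : ℕ → ℂ) q‖ ^ (2 : ENNReal).toReal :=
            (lp.memℓp (c (z 1))).summable (by norm_num)
          refine Summable.of_nonneg_of_le (fun q => by positivity) (fun q => ?_) (s1.add s2)
          norm_num
          nlinarith [sq_nonneg (‖(b (z 1) : ℕ → ℂ) q‖ - ‖(c (z 1) : ℕ → ℂ) q‖),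
            norm_nonneg ((b (z 1) : ℕ → ℂ) q), norm_nonneg ((c (z 1) : ℕ → ℂ) q),
            mul_nonneg (norm_nonneg ((b (z 1) : ℕ → ℂ) q)) (norm_nonneg ((c (z 1) : ℕ → ℂ) q))]
        · rw [norm_mul, norm_mul]
          refine mul_le_mul_of_nonneg_right ?_ (norm_nonneg _)
          exact mul_le_of_le_one_left (norm_nonneg _) (ha1 q t ht)
      refine h1.congr fun t _ => ?_
      show (∑' q, a q (Function.update z 0 t 0) * (b (Function.update z 0 t 1) : ℕ → ℂ) q *
        (c (Function.update z 0 t 1) : ℕ → ℂ) q) = _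
      rw [Function.update_self, Function.update_of_ne (by decide : (1 : Fin 2) ≠ 0)]
    · -- the variable `z 1`
      have h1 : DifferentiableOn ℂ (fun t => pairL (D (z 0) (b t)) (c t)) (ball 0 1) :=
        (pairL.differentiable.comp_differentiableOn
          ((D (z 0)).differentiable.comp_differentiableOn hb)).clm_apply hc
      refine h1.congr fun t ht => ?_
      have h2 : Function.update z 1 t ∈ PD 2 := by
        rw [hPr]
        intro i
        by_cases hi : i = 1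
        · subst hi; simpa using ht
        · rw [Function.update_of_ne hi]; exact hz i
      show f (Function.update z 1 t) = _
      rw [e _ h2, Function.update_self, Function.update_of_ne (by decide : (0 : Fin 2) ≠ 1)]
  have hdiff : DifferentiableOn ℂ f (PD 2) := by
    rw [hPr]
    exact osgood (fun _ => isOpen_ball) hSH
  refine ⟨⟨hdiff, B * B, hbound⟩, fun ε hε => ?_⟩
  refine ⟨2, B, ε / (2 * B + 1), by positivity, fun i hi w hw => ?_⟩
  have hi1 : i = 1 := by
    ext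
    have := i.isLt
    show i.val = 1
    omega
  subst hi1
  refine ⟨![b, c], fun q => ?_, fun q t ht => ?_, fun z hz z' hz' h1 h2 h3 => ?_⟩
  · fin_cases q
    · exact hb
    · exact hc
  · fin_cases q
    · exact hbB t ht
    · exact hcB t ht
  · have h4 : ‖b (z 1) - b (z' 1)‖ < ε / (2 * B + 1) := h3 0
    have h5 : ‖c (z 1) - c (z' 1)‖ < ε / (2 * B + 1) := h3 1
    have h6 : z' 0 = z 0 := h2 0 (by decide)
    rw [e z hz, e z' hz', h6]
    have e2 : pairL (D (z 0) (b (z 1))) (c (z 1)) - pairL (D (z 0) (b (z' 1))) (c (z' 1)) =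
        pairL (D (z 0) (b (z 1) - b (z' 1))) (c (z 1)) +
          pairL (D (z 0) (b (z' 1))) (c (z 1) - c (z' 1)) := by
      simp
    rw [e2]
    refine (norm_add_le _ _).trans ?_
    have h7 := pairL_le (D (z 0) (b (z 1) - b (z' 1))) (c (z 1))
    have h8 := pairL_le (D (z 0) (b (z' 1))) (c (z 1) - c (z' 1))
    have h9 := hcB _ (hmem 1 z hz)
    have h10 := (hDn _ (hmem 0 z hz) (b (z' 1))).trans (hbB _ (hmem 1 z' hz'))
    have h11 := (hDn _ (hmem 0 z hz) (b (z 1) - b (z' 1))).trans h4.le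
    have h12 : ‖D (z 0) (b (z 1) - b (z' 1))‖ * ‖c (z 1)‖ ≤ ε / (2 * B + 1) * B :=
      mul_le_mul h11 h9 (norm_nonneg _) (by positivity)
    have h13 : ‖D (z 0) (b (z' 1))‖ * ‖c (z 1) - c (z' 1)‖ ≤ B * (ε / (2 * B + 1)) :=
      mul_le_mul h10 h5.le (norm_nonneg _) hB0
    have h14 : (2 * B + 1) * (ε / (2 * B + 1)) = ε := by field_simp
    have h15 : 0 < ε / (2 * B + 1) := by positivity
    nlinarith

end Cor
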