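import Pool.Agent.helper30.Cor.HTd

/-!
# Corona project: control relative to functions of the ideal

`UC n g f`: the dependence of `f` on `z_i` (`i > 0`) is controlled on the connected sets on which
a bounded holomorphic Hilbert space valued function of `z_i` (which may depend on the values of the
later variables) has small oscillation and `|g i|` is small.
-/

noncomputable section

open Set Metric

namespace Cor

/-- the controls on products of half planes -/
def CU (n : ℕ) (g : Fin n → ℂ → ℂ) (r : ℝ → ℕ) (B ρ : ℝ → ℝ) (G : (Fin n → ℂ) → ℂ) : Prop :=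
  ∀ ε : ℝ, 0 < ε → ∀ (i : Fin n), ∀ w ∈ Pr (fun _ : Fin n => HP), ∃ h : Fin (r ε) → ℂ → L2,
    (∀ q, DifferentiableOn ℂ (h q) HP) ∧ (∀ q, ∀ t ∈ HP, ‖h q t‖ ≤ B ε) ∧
    ∀ T : Set ℂ, T ⊆ HP → IsPreconnected T → (∀ t ∈ T, ‖g i t‖ < ρ ε) →
      (∀ q, ∀ t ∈ T, ∀ t' ∈ T, ‖h q t - h q t'‖ < ρ ε) →
      ∀ z ∈ Pr (fun _ : Fin n => HP), ∀ z' ∈ Pr (fun _ : Fin n => HP), (∀ j, i < j → z j = w j) →
        (∀ j, j ≠ i → z' j = z j) → z i ∈ T → z' i ∈ T → ‖G z - G z'‖ ≤ ε

/-- solutions on the pieces of a disjoint family of open sets in one variable are glued -/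
theorem HU_glue {n k : ℕ} {O : Fin n → Set ℂ} {l : Fin n} {V : Set ℂ} (hV : IsOpen V)
    {F : Fin k → (Fin n → ℂ) → ℂ} {K : ℝ}
    (h : ∀ t ∈ V, SolvK K (Function.update O l (connectedComponentIn V t)) F) :
    SolvK K (Function.update O l V) F := by
  classical
  have hcc : ∀ t ∈ V, IsOpen (connectedComponentIn V t) := fun t _ =>
    hV.connectedComponentIn
  have h1 : ∀ S : Set ℂ, ∃ A : Fin k → (Fin n → ℂ) → ℂ,
      (∃ t ∈ V, connectedComponentIn V t = S) → (∀ j, SH (Function.update O l S) (A j)) ∧
      (∀ j, ∀ z ∈ Pr (Function.update O l S), ‖A j z‖ ≤ K) ∧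
      ∀ z ∈ Pr (Function.update O l S), ∑ j, F j z * A j z = 1 := by
    intro S
    by_cases hS : ∃ t ∈ V, connectedComponentIn V t = S
    · obtain ⟨t, ht, hS'⟩ := hS
      obtain ⟨A, hA⟩ := h t ht
      rw [hS'] at hA
      exact ⟨A, fun _ => hA⟩
    · exact ⟨fun _ _ => 0, fun h => absurd h hS⟩
  choose A hA using h1
  have hin : ∀ z ∈ Pr (Function.update O l V),
      z ∈ Pr (Function.update O l (connectedComponentIn V (z l))) := by
    intro z hz i
    have h2 := hz i
    by_cases hi : i = l
    · subst hi
      rw [Function.update_self] at h2 ⊢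
      exact mem_connectedComponentIn h2
    · rw [Function.update_of_ne hi] at h2 ⊢
      exact h2
  have hzl : ∀ z ∈ Pr (Function.update O l V), z l ∈ V := by
    intro z hz
    have := hz l
    rwa [Function.update_self] at this
  refine ⟨fun j z => A (connectedComponentIn V (z l)) j z, fun j => ⟨⟨K, fun z hz => ?_⟩,
    fun z hz i => ?_⟩, fun j z hz => ?_, fun z hz => ?_⟩
  · exact (hA _ ⟨z l, hzl z hz, rfl⟩).2.1 j z (hin z hz)
  · by_cases hi : i = l
    · subst hi
      rw [Function.update_self]
      intro t ht
      have h3 := ((hA _ ⟨t, ht, rfl⟩).1 j).2 (Function.update z i t) ?_ i t ?_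
      · rw [Function.update_self] at h3
        have h4 : DifferentiableAt ℂ (fun s => A (connectedComponentIn V t) j
            (Function.update (Function.update z i t) i s)) t :=
          h3.differentiableAt ((hcc t ht).mem_nhds (mem_connectedComponentIn ht))
        refine DifferentiableAt.differentiableWithinAt ?_
        refine h4.congr_of_eventuallyEq ?_
        filter_upwards [(hcc t ht).mem_nhds (mem_connectedComponentIn ht)] with s hs
        rw [Function.update_idem, Function.update_self, connectedComponentIn_eq hs]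
      · intro i'
        by_cases hi' : i' = i
        · subst hi'
          rw [Function.update_self, Function.update_self]
          exact mem_connectedComponentIn ht
        · rw [Function.update_of_ne hi', Function.update_of_ne hi']
          have := hz i'
          rwa [Function.update_of_ne hi'] at this
      · rw [Function.update_self]
        exact mem_connectedComponentIn ht
    · have h3 := ((hA _ ⟨z l, hzl z hz, rfl⟩).1 j).2 z (hin z hz) i
      rw [Function.update_of_ne hi] at h3 ⊢
      refine h3.congr fun t _ => ?_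
      show A (connectedComponentIn V (Function.update z i t l)) j (Function.update z i t) = _
      rw [Function.update_of_ne (Ne.symm hi)]
  · exact (hA _ ⟨z l, hzl z hz, rfl⟩).2.1 j z (hin z hz)
  · exact (hA _ ⟨z l, hzl z hz, rfl⟩).2.2 z (hin z hz)

theorem SolvK_mono {n k : ℕ} {K K' : ℝ} (h : K ≤ K') {O : Fin n → Set ℂ}
    {F : Fin k → (Fin n → ℂ) → ℂ} (hs : SolvK K O F) : SolvK K' O F := by
  obtain ⟨A, h1, h2, h3⟩ := hs
  exact ⟨A, h1, fun j z hz => (h2 j z hz).trans h, h3⟩

/-- the induction: the other generators depend on the first `m` variables only -/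
theorem HU_level (n k : ℕ) (r : ℝ → ℕ) (B ρ : ℝ → ℝ) (hρ : ∀ ε, 0 < ε → 0 < ρ ε) (m : ℕ)
    (hm : m ≤ n) :
    ∀ δ : ℝ, 0 < δ → ∃ K : ℝ, 0 ≤ K ∧ ∀ g : Fin n → ℂ → ℂ, (∀ i, DifferentiableOn ℂ (g i) HP) →
      (∀ i, ∀ t ∈ HP, ‖g i t‖ ≤ 1) → ∀ O : Fin n → Set ℂ, (∀ i, IsOpen (O i)) →
      (∀ i, O i ⊆ HP) → (∀ i : Fin n, i.val < m → O i = HP) →
      ∀ (j₀ : Fin k) (G : Fin k → (Fin n → ℂ) → ℂ), (∀ j, j ≠ j₀ → CU n g r B ρ (G j)) →
      (∀ j, j ≠ j₀ → SH (fun _ => HP) (G j)) →
      (∀ j, j ≠ j₀ → ∀ z ∈ Pr (fun _ => HP), ‖G j z‖ ≤ 1) →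
      ∀ w ∈ Pr (fun _ : Fin n => HP), ∀ F : Fin k → (Fin n → ℂ) → ℂ, (∀ j, SH O (F j)) →
      (∀ j, ∀ z ∈ Pr O, ‖F j z‖ ≤ 1) →
      (∀ j, j ≠ j₀ → ∀ z ∈ Pr O, F j z = G j (fun i => if i.val < m then z i else w i)) →
      (∀ i : Fin n, i.val < m → (∀ t ∈ HP, g i t = 0) ∨ ∃ j, ∀ z ∈ Pr O, F j z = g i (z i)) →
      (∀ z ∈ Pr O, δ ≤ ∑ j, ‖F j z‖) → SolvK K O F := by
  classical
  induction m with
  | zero =>
    intro δ hδ
    refine ⟨(δ / (2 * k))⁻¹, by positivity, ?_⟩
    intro g _ _ O hO _ _ j₀ G _ _ _ w _ F hF _ hFG _ hb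
    have hk : 0 < k := Fin.pos j₀
    have hkr : (0 : ℝ) < k := by exact_mod_cast hk
    have hk1 : (1 : ℝ) ≤ k := by exact_mod_cast hk
    have hFG' : ∀ j, j ≠ j₀ → ∀ z ∈ Pr O, F j z = G j w := by
      intro j hj z hz
      rw [hFG j hj z hz]
      congr 1
    by_cases hex : ∃ j, j ≠ j₀ ∧ δ / (2 * k) ≤ ‖G j w‖
    · obtain ⟨j, hj, hj2⟩ := hex
      refine HT_inv hO hF j (by positivity) fun z hz => ?_
      rw [hFG' j hj z hz]
      exact hj2
    · push Not at hex
      refine HT_inv hO hF j₀ (by positivity) fun z hz => ?_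
      have h2 := hb z hz
      rw [← Finset.add_sum_erase _ _ (Finset.mem_univ j₀)] at h2
      have h3 : ∑ j ∈ Finset.univ.erase j₀, ‖F j z‖ ≤
          ∑ j ∈ (Finset.univ : Finset (Fin k)).erase j₀, δ / (2 * k) := by
        refine Finset.sum_le_sum fun j hj => ?_
        have hj' : j ≠ j₀ := Finset.ne_of_mem_erase hj
        rw [hFG' j hj' z hz]
        exact (hex j hj').le
      rw [Finset.sum_const, Finset.card_erase_of_mem (Finset.mem_univ _), Finset.card_univ,
        Fintype.card_fin, nsmul_eq_mul, Nat.cast_sub (by omega : 1 ≤ k), Nat.cast_one] at h3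
      have h4 : δ / (2 * k) * k = δ / 2 := by field_simp
      have h5 : 0 ≤ δ / (2 * k) := by positivity
      nlinarith
  | succ m ih =>
    intro δ hδ
    obtain ⟨K', hK'0, hK'⟩ := ih (by omega) (δ / 2) (by positivity)
    by_cases hk : k = 0
    · subst hk
      exact ⟨0, le_rfl, fun _ _ _ _ _ _ _ j₀ => j₀.elim0⟩
    have hkr : (0 : ℝ) < k := by exact_mod_cast Nat.pos_of_ne_zero hk
    set ε : ℝ := min (δ / (2 * k)) (1 / (2 * k * (K' + 1))) with hε
    have hε0 : 0 < ε := lt_min (by positivity) (by positivity)
    have hε1 : k * ε ≤ δ / 2 := by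
      have := min_le_left (δ / (2 * k)) (1 / (2 * k * (K' + 1)))
      calc k * ε ≤ k * (δ / (2 * k)) := mul_le_mul_of_nonneg_left this hkr.le
        _ = δ / 2 := by field_simp
    have hε2 : k * ε * K' ≤ 1 / 2 := by
      have := min_le_right (δ / (2 * k)) (1 / (2 * k * (K' + 1)))
      calc k * ε * K' ≤ k * (1 / (2 * k * (K' + 1))) * (K' + 1) := by
            refine mul_le_mul (mul_le_mul_of_nonneg_left this hkr.le) (by linarith) hK'0
              (by positivity)
        _ = 1 / 2 := by field_simp
    have hρε : 0 < ρ ε := hρ ε hε0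
    -- the Hilbert space of the merged controls
    set B₁ : ℝ := max |B ε| 1 with hB₁
    have hB₁0 : |B₁| = B₁ := abs_of_nonneg (le_trans zero_le_one (le_max_right _ _))
    set B' : ℝ := Real.sqrt (∑ _j : Option (Fin k × Fin (r ε)), B₁ ^ 2) with hB'
    obtain ⟨C, hC0, hC⟩ := gpH (ι := Fin n)
      (E := PiLp 2 (fun _ : Option (Fin k × Fin (r ε)) => L2)) k
      (ρ := ρ ε / 4) (B := B') (by positivity) (Real.sqrt_nonneg _)
      (K := max (2 * K') (ρ ε / 2)⁻¹) (by positivity)
    refine ⟨C, hC0, ?_⟩
    intro g hg hg1 O hO hOs hOm j₀ G hG hGS hG1 w hw F hF hF1 hFG hgF hb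
    set l : Fin n := ⟨m, by omega⟩ with hl
    -- the controls
    have hc1 : ∀ j, ∃ h : Fin (r ε) → ℂ → L2, (∀ q, DifferentiableOn ℂ (h q) HP) ∧
        (∀ q, ∀ t ∈ HP, ‖h q t‖ ≤ |B ε|) ∧
        (j ≠ j₀ → ∀ T : Set ℂ, T ⊆ HP → IsPreconnected T → (∀ t ∈ T, ‖g l t‖ < ρ ε) →
          (∀ q, ∀ t ∈ T, ∀ t' ∈ T, ‖h q t - h q t'‖ < ρ ε) →
          ∀ z ∈ Pr (fun _ : Fin n => HP), ∀ z' ∈ Pr (fun _ : Fin n => HP),
          (∀ i, l < i → z i = w i) → (∀ i, i ≠ l → z' i = z i) → z l ∈ T → z' l ∈ T →
          ‖G j z - G j z'‖ ≤ ε) := by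
      intro j
      by_cases hj : j = j₀
      · exact ⟨fun _ _ => 0, fun _ => differentiableOn_const 0, fun _ _ _ => by simp,
          fun h => absurd hj h⟩
      · obtain ⟨h, hd, hB, H⟩ := hG j hj ε hε0 l w hw
        exact ⟨h, hd, fun q t ht => (hB q t ht).trans (le_abs_self _), fun _ => H⟩
    choose h hd hB hH using hc1
    set e : L2 := lp.single 2 0 (1 : ℂ) with he
    have hen : ‖e‖ = 1 := by
      rw [he, lp.norm_single (by norm_num)]
      simp
    set hh : Option (Fin k × Fin (r ε)) → ℂ → L2 :=
      fun o => Option.elim o (fun t => g l t • e) (fun p => h p.1 p.2) with hhdef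
    obtain ⟨H, hHd, hHB, hHh⟩ := HT_merge (κ := Option (Fin k × Fin (r ε))) hh B₁
      (fun o => by
        cases o with
        | none => exact (hg l).smul_const e
        | some p => exact hd p.1 p.2)
      (fun o t ht => by
        rw [hB₁0]
        cases o with
        | none =>
          show ‖g l t • e‖ ≤ B₁
          rw [norm_smul, hen, mul_one]
          exact (hg1 l t ht).trans (le_max_right _ _)
        | some p => exact (hB p.1 p.2 t ht).trans (le_max_left _ _))
    have hHg : ∀ t t', ‖g l t - g l t'‖ ≤ ‖H t - H t'‖ := by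
      intro t t'
      have h1 : ‖g l t • e - g l t' • e‖ ≤ ‖H t - H t'‖ := hHh t t' none
      rwa [← sub_smul, norm_smul, hen, mul_one] at h1
    have hHq : ∀ t t' j q, ‖h j q t - h j q t'‖ ≤ ‖H t - H t'‖ := fun t t' j q =>
      hHh t t' (some (j, q))
    refine hC l O hO (hOm l (by simp [hl])) F hF hF1 H hHd hHB fun c => ?_
    set V : Set ℂ := {t | t ∈ HP ∧ ‖H t - c‖ < ρ ε / 4} with hV
    have hVo : IsOpen V := by
      have h1 : V = HP ∩ (fun t => ‖H t - c‖) ⁻¹' Iio (ρ ε / 4) := rfl
      rw [h1]
      exact ContinuousOn.isOpen_inter_preimage ((hHd.continuousOn.sub continuousOn_const).norm)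
        Disc_HP_open isOpen_Iio
    have hVd : ∀ t ∈ V, ∀ t' ∈ V, ‖H t - H t'‖ < ρ ε / 2 := by
      intro t ht t' ht'
      have e3 : H t - H t' = (H t - c) - (H t' - c) := by abel
      rw [e3]
      have := norm_sub_le (H t - c) (H t' - c)
      have := ht.2
      have := ht'.2
      linarith
    have hOl : O l = HP := hOm l (by simp [hl])
    by_cases hcase : ∃ t₁ ∈ V, ρ ε ≤ ‖g l t₁‖
    · obtain ⟨t₁, ht₁, hgt₁⟩ := hcase
      refine SolvK_mono (le_max_right _ _) ?_
      rcases hgF l (by simp [hl]) with h0 | ⟨j, hj⟩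
      · rw [h0 t₁ ht₁.1, norm_zero] at hgt₁
        linarith
      have hsub : ∀ i, Function.update O l V i ⊆ O i := by
        intro i
        by_cases hi : i = l
        · subst hi; rw [Function.update_self, hOl]; exact fun t ht => ht.1
        · rw [Function.update_of_ne hi]
      refine HT_inv (fun i => ?_) (fun j => (hF j).mono hsub) j (by positivity) fun z hz => ?_
      · by_cases hi : i = l
        · subst hi; rw [Function.update_self]; exact hVo
        · rw [Function.update_of_ne hi]; exact hO i
      · have hzl : z l ∈ V := by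
          have := hz l
          rwa [Function.update_self] at this
        rw [hj z fun i => hsub i (hz i)]
        have h1 := (hHg t₁ (z l)).trans (hVd t₁ ht₁ (z l) hzl).le
        have h2 := norm_sub_norm_le (g l t₁) (g l (z l))
        linarith
    push Not at hcase
    refine HU_glue hVo fun t₀ ht₀ => SolvK_mono (le_max_left _ _) ?_
    set T : Set ℂ := connectedComponentIn V t₀ with hT
    have hTV : T ⊆ V := connectedComponentIn_subset V t₀
    have hTo : IsOpen T := hVo.connectedComponentIn
    have hTc : IsPreconnected T := isPreconnected_connectedComponentIn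
    have ht₀T : t₀ ∈ T := mem_connectedComponentIn ht₀
    have hTHP : T ⊆ HP := fun t ht => (hTV ht).1
    set O' : Fin n → Set ℂ := Function.update O l T with hO'
    have hO'o : ∀ i, IsOpen (O' i) := by
      intro i
      by_cases hi : i = l
      · subst hi; rw [hO', Function.update_self]; exact hTo
      · rw [hO', Function.update_of_ne hi]; exact hO i
    have hsub : ∀ i, O' i ⊆ O i := by
      intro i
      by_cases hi : i = l
      · subst hi; rw [hO', Function.update_self, hOl]; exact hTHP
      · rw [hO', Function.update_of_ne hi]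
    have hPr : Pr O' ⊆ Pr O := fun z hz i => hsub i (hz i)
    set w' : Fin n → ℂ := Function.update w l t₀ with hw'
    have hw'P : w' ∈ Pr (fun _ : Fin n => HP) := by
      intro i
      by_cases hi : i = l
      · subst hi; rw [hw', Function.update_self]; exact ht₀.1
      · rw [hw', Function.update_of_ne hi]; exact hw i
    set F' : Fin k → (Fin n → ℂ) → ℂ := fun j => if j = j₀ then F j₀ else
      fun z => G j (fun i => if i.val < m then z i else w' i) with hF'
    have hu' : ∀ z ∈ Pr O', (fun i : Fin n => if i.val < m then z i else w' i) ∈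
        Pr (fun _ : Fin n => HP) := by
      intro z hz i
      show (if i.val < m then z i else w' i) ∈ HP
      split_ifs
      · exact hOs i (hPr hz i)
      · exact hw'P i
    have hu : ∀ z ∈ Pr O', (fun i : Fin n => if i.val < m + 1 then z i else w i) ∈
        Pr (fun _ : Fin n => HP) := by
      intro z hz i
      show (if i.val < m + 1 then z i else w i) ∈ HP
      split_ifs
      · exact hOs i (hPr hz i)
      · exact hw i
    have hzlT : ∀ z ∈ Pr O', z l ∈ T := by
      intro z hz
      have := hz l
      rwa [hO', Function.update_self] at this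
    have hdF : ∀ j, ∀ z ∈ Pr O', ‖F j z - F' j z‖ ≤ ε := by
      intro j z hz
      by_cases hj : j = j₀
      · subst hj
        rw [hF']
        simp [hε0.le]
      · rw [hF', hFG j hj z (hPr hz)]
        simp only [if_neg hj]
        have e1 : (if l.val < m + 1 then z l else w l) = z l := by
          rw [if_pos (by simp [hl])]
        have e2 : (if l.val < m then z l else w' l) = t₀ := by
          rw [if_neg (by simp [hl]), hw', Function.update_self]
        refine hH j hj T hTHP hTc (fun t ht => hcase t (hTV ht)) (fun q t ht t' ht' => ?_)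
          _ (hu z hz) _ (hu' z hz) ?_ ?_ ?_ ?_
        · have h1 := (hHq t t' j q).trans_lt (hVd t (hTV ht) t' (hTV ht'))
          linarith
        · intro i hi
          have : m < i.val := by simpa [hl, Fin.lt_def] using hi
          show (if i.val < m + 1 then z i else w i) = w i
          rw [if_neg (by omega)]
        · intro i hi
          have h1 : i.val ≠ m := fun h => hi (by ext; simp [hl, h])
          show (if i.val < m then z i else w' i) = (if i.val < m + 1 then z i else w i)
          by_cases h2 : i.val < m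
          · rw [if_pos h2, if_pos (by omega)]
          · rw [if_neg h2, if_neg (by omega), hw', Function.update_of_ne hi]
        · show (if l.val < m + 1 then z l else w l) ∈ T
          rw [e1]
          exact hzlT z hz
        · show (if l.val < m then z l else w' l) ∈ T
          rw [e2]
          exact ht₀T
    refine HT_approx hO'o (fun j => (hF j).mono hsub) hK'0 hε2 hdF ?_
    refine hK' g hg hg1 O' hO'o (fun i => (hsub i).trans (hOs i)) ?_ j₀ G hG hGS hG1 w' hw'P F'
      ?_ ?_ ?_ ?_ ?_
    · intro i hi
      have : i ≠ l := fun h => by rw [h] at hi; simp [hl] at hi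
      rw [hO', Function.update_of_ne this]
      exact hOm i (by omega)
    · intro j
      by_cases hj : j = j₀
      · subst hj
        rw [hF']
        simp only [if_true]
        exact (hF j).mono hsub
      · rw [hF']
        simp only [if_neg hj]
        refine SH_of_diff (C := 1) ?_ fun z hz => hG1 j hj _ (hu' z hz)
        refine (osgood (fun _ => Disc_HP_open) (hGS j hj)).comp (t := Pr (fun _ : Fin n => HP))
          ?_ (fun z hz => hu' z hz)
        refine differentiableOn_pi.2 fun i => ?_
        by_cases hi : i.val < m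
        · simp only [if_pos hi]
          exact (differentiable_apply i).differentiableOn
        · simp only [if_neg hi]
          exact differentiableOn_const _
    · intro j z hz
      by_cases hj : j = j₀
      · subst hj
        rw [hF']
        simp only [if_true]
        exact hF1 j z (hPr hz)
      · rw [hF']
        simp only [if_neg hj]
        exact hG1 j hj _ (hu' z hz)
    · intro j hj z hz
      rw [hF']
      simp only [if_neg hj]
    · intro i hi
      have hil : i ≠ l := fun h => by rw [h] at hi; simp [hl] at hi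
      rcases hgF i (by omega) with h0 | ⟨j, hj⟩
      · exact Or.inl h0
      refine Or.inr ⟨j, fun z hz => ?_⟩
      by_cases hjj : j = j₀
      · subst hjj
        rw [hF']
        simp only [if_true]
        exact hj z (hPr hz)
      · rw [hF']
        simp only [if_neg hjj]
        have hy : Function.update z l t₀ ∈ Pr O := by
          intro i'
          by_cases hi' : i' = l
          · subst hi'; rw [Function.update_self, hOl]; exact ht₀.1
          · rw [Function.update_of_ne hi']; exact hPr hz i'
        have h1 := hj _ hy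
        rw [hFG j hjj _ hy, Function.update_of_ne hil] at h1
        rw [← h1]
        congr 1
        ext i'
        by_cases hi' : i' = l
        · subst hi'
          rw [if_neg (by simp [hl]), if_pos (by simp [hl]), hw', Function.update_self,
            Function.update_self]
        · have h2 : i'.val ≠ m := fun h => hi' (by ext; simp [hl, h])
          by_cases h3 : i'.val < m
          · rw [if_pos h3, if_pos (by omega), Function.update_of_ne hi']
          · rw [if_neg h3, if_neg (by omega), hw', Function.update_of_ne hi']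
    · intro z hz
      have h1 := hb z (hPr hz)
      have h2 : ∑ j, ‖F j z‖ ≤ ∑ j, (‖F' j z‖ + ε) := by
        refine Finset.sum_le_sum fun j _ => ?_
        have := hdF j z hz
        have := norm_sub_norm_le (F j z) (F' j z)
        linarith
      rw [Finset.sum_add_distrib, Finset.sum_const, Finset.card_univ, Fintype.card_fin,
        nsmul_eq_mul] at h2
      linarith

end Cor
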