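import Pool.Agent.helper30.Cor.HU

/-!
# Corona project: the class `UC n g` on the polydisc, corona theorem
-/

noncomputable section

open Set Metric

namespace Cor

/-- `f` is bounded and holomorphic on the polydisc, and for every `ε > 0` there are `r`, `B` and
`ρ > 0` such that for every variable `z_i` except `z_0` and every choice of values `w_j` of the
later variables `z_j`, `j > i`, there are `r` holomorphic functions `h q` on the disc, bounded by
`B`, with values in the Hilbert space `L2`, such that `f` varies by at most `ε` when `z_i` varies in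
a connected set `T` on which `|g i| < ρ` and every `h q` varies by less than `ρ`, whatever the
earlier variables are -/
def UC (n : ℕ) (g : Fin n → ℂ → ℂ) (f : (Fin n → ℂ) → ℂ) : Prop :=
  HInf (PD n) f ∧ ∀ ε : ℝ, 0 < ε → ∃ (r : ℕ) (B ρ : ℝ), 0 < ρ ∧
    ∀ i : Fin n, 0 < i.val → ∀ w ∈ PD n, ∃ h : Fin r → ℂ → L2,
      (∀ q, DifferentiableOn ℂ (h q) (ball 0 1)) ∧
      (∀ q, ∀ t ∈ ball (0 : ℂ) 1, ‖h q t‖ ≤ B) ∧
      ∀ T : Set ℂ, T ⊆ ball 0 1 → IsPreconnected T → (∀ t ∈ T, ‖g i t‖ < ρ) →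
        (∀ q, ∀ t ∈ T, ∀ t' ∈ T, ‖h q t - h q t'‖ < ρ) →
        ∀ z ∈ PD n, ∀ z' ∈ PD n, (∀ j, i < j → z j = w j) → (∀ j, j ≠ i → z' j = z j) →
          z i ∈ T → z' i ∈ T → ‖f z - f z'‖ ≤ ε

/-- the dependence of `f` on the variables `z_i`, `i > 0`, is controlled with the moduli `r`, `B`,
`ρ` -/
def UCm (n : ℕ) (g : Fin n → ℂ → ℂ) (r : ℝ → ℕ) (B ρ : ℝ → ℝ) (f : (Fin n → ℂ) → ℂ) : Prop :=
  ∀ ε : ℝ, 0 < ε → ∀ i : Fin n, 0 < i.val → ∀ w ∈ PD n, ∃ h : Fin (r ε) → ℂ → L2,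
    (∀ q, DifferentiableOn ℂ (h q) (ball 0 1)) ∧
    (∀ q, ∀ t ∈ ball (0 : ℂ) 1, ‖h q t‖ ≤ B ε) ∧
    ∀ T : Set ℂ, T ⊆ ball 0 1 → IsPreconnected T → (∀ t ∈ T, ‖g i t‖ < ρ ε) →
      (∀ q, ∀ t ∈ T, ∀ t' ∈ T, ‖h q t - h q t'‖ < ρ ε) →
      ∀ z ∈ PD n, ∀ z' ∈ PD n, (∀ j, i < j → z j = w j) → (∀ j, j ≠ i → z' j = z j) →
        z i ∈ T → z' i ∈ T → ‖f z - f z'‖ ≤ ε

/-- quantitative corona theorem: one arbitrary generator, the others controlled with the moduli
`r`, `B`, `ρ` relative to functions `g i` of one variable which are zero or generators; the bound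
depends only on `n`, `k`, `r`, `B`, `ρ` and `δ` -/
theorem HU_quant (n k : ℕ) (r : ℝ → ℕ) (B ρ : ℝ → ℝ) (hρ : ∀ ε, 0 < ε → 0 < ρ ε) {δ : ℝ}
    (hδ : 0 < δ) : ∃ K : ℝ, ∀ g : Fin n → ℂ → ℂ,
      (∀ i : Fin n, 0 < i.val → DifferentiableOn ℂ (g i) (ball 0 1)) →
      (∀ i : Fin n, 0 < i.val → ∀ t ∈ ball (0 : ℂ) 1, ‖g i t‖ ≤ 1) →
      ∀ (f : Fin k → (Fin n → ℂ) → ℂ) (j₀ : Fin k),
      (∀ j, DifferentiableOn ℂ (f j) (PD n)) → (∀ j, ∀ z ∈ PD n, ‖f j z‖ ≤ 1) →
      (∀ j, j ≠ j₀ → UCm n g r B ρ (f j)) →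
      (∀ i : Fin n, 0 < i.val → (∀ t ∈ ball (0 : ℂ) 1, g i t = 0) ∨
        ∃ j, ∀ z ∈ PD n, f j z = g i (z i)) →
      (∀ z ∈ PD n, δ ≤ ∑ j, ‖f j z‖) →
      ∃ A : Fin k → (Fin n → ℂ) → ℂ, (∀ j, DifferentiableOn ℂ (A j) (PD n)) ∧
        (∀ j, ∀ z ∈ PD n, ‖A j z‖ ≤ K) ∧ ∀ z ∈ PD n, ∑ j, f j z * A j z = 1 := by
  classical
  obtain ⟨K, hK0, hK⟩ := HU_level n k (fun ε => r ε + 1) (fun ε => max 1 (B ε))
    (fun ε => min ε (ρ ε)) (fun ε hε => lt_min hε (hρ ε hε)) n le_rfl δ hδ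
  refine ⟨K, fun g hg hg1 f j₀ hf hf1 hT hgf hb => ?_⟩
  have hkball : ∀ t ∈ HP, Disc_k t ∈ ball (0 : ℂ) 1 := fun t ht =>
    mem_ball_zero_iff.mpr (Disc_k_lt ht)
  have hkPD : ∀ z ∈ Pr (fun _ : Fin n => HP), (fun i => Disc_k (z i)) ∈ PD n :=
    fun z hz i => Disc_k_lt (hz i)
  set F : Fin k → (Fin n → ℂ) → ℂ := fun j z => f j (fun i => Disc_k (z i)) with hF
  have hF1 : ∀ j, ∀ z ∈ Pr (fun _ : Fin n => HP), ‖F j z‖ ≤ 1 := fun j z hz =>
    hf1 j _ (hkPD z hz)
  have hFS : ∀ j, SH (fun _ : Fin n => HP) (F j) := by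
    intro j
    refine SH_of_diff (C := 1) ?_ (hF1 j)
    exact (hf j).comp (Disc_pi_diff Disc_k_diff (fun z hz i => hz i)) hkPD
  set g' : Fin n → ℂ → ℂ := fun i t => if 0 < i.val then g i (Disc_k t) else 0 with hg'
  have hCT : ∀ j, j ≠ j₀ → CU n g' (fun ε => r ε + 1) (fun ε => max 1 (B ε))
      (fun ε => min ε (ρ ε)) (F j) := by
    intro j hj ε hε i w hw
    by_cases hi : 0 < i.val
    · obtain ⟨h, hd, hB, H⟩ := hT j hj ε hε i hi (fun i => Disc_k (w i)) (hkPD w hw)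
      refine ⟨fun q => if hq : q.val < r ε then fun t => h ⟨q.val, hq⟩ (Disc_k t) else fun _ => 0,
        fun q => ?_, fun q t ht => ?_, fun T hTH hTc hTg hTh z hz z' hz' h1 h2 h3 h4 => ?_⟩
      · by_cases hq : q.val < r ε
        · simp only [dif_pos hq]
          exact (hd _).comp Disc_k_diff hkball
        · simp only [dif_neg hq]
          exact differentiableOn_const 0
      · by_cases hq : q.val < r ε
        · simp only [dif_pos hq]
          exact (hB _ _ (hkball t ht)).trans (le_max_right _ _)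
        · simp only [dif_neg hq, norm_zero]
          exact zero_le_one.trans (le_max_left _ _)
      · refine H (Disc_k '' T) ?_ (hTc.image _ (Disc_k_diff.continuousOn.mono hTH)) ?_ ?_
          _ (hkPD z hz) _ (hkPD z' hz') (fun j hj => by rw [h1 j hj])
          (fun j hj => by rw [h2 j hj]) (mem_image_of_mem _ h3) (mem_image_of_mem _ h4)
        · rintro _ ⟨t, ht, rfl⟩
          exact hkball t (hTH ht)
        · rintro _ ⟨t, ht, rfl⟩
          have := hTg t ht
          rw [hg'] at this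
          simp only [if_pos hi] at this
          exact this.trans_le (min_le_right _ _)
        · rintro q _ ⟨t, ht, rfl⟩ _ ⟨t', ht', rfl⟩
          have h5 := hTh ⟨q.val, by have := q.isLt; show q.val < r ε + 1; omega⟩ t ht t' ht'
          simp only [dif_pos q.isLt] at h5
          exact h5.trans_le (min_le_right _ _)
    · set e : L2 := lp.single 2 0 (1 : ℂ) with he
      have hen : ‖e‖ = 1 := by
        rw [he, lp.norm_single (by norm_num)]
        simp
      have hwu : ∀ t ∈ HP, Function.update w i t ∈ Pr (fun _ : Fin n => HP) := by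
        intro t ht i'
        by_cases h : i' = i
        · subst h; simpa using ht
        · rw [Function.update_of_ne h]; exact hw i'
      refine ⟨fun _ t => F j (Function.update w i t) • e, ?_, ?_, ?_⟩
      · intro _
        exact ((hFS j).2 w hw i).smul_const e
      · intro _ t ht
        rw [norm_smul, hen, mul_one]
        exact (hF1 j _ (hwu t ht)).trans (le_max_left _ _)
      · intro T _ _ _ hTh z hz z' hz' h1 h2 h3 h4
        have hi0 : ∀ i' : Fin n, i' ≠ i → i < i' := by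
          intro i' hi'
          rw [Fin.lt_def]
          have : i'.val ≠ i.val := fun h => hi' (Fin.ext h)
          omega
        have e1 : Function.update w i (z i) = z := by
          ext i'
          by_cases h : i' = i
          · subst h; simp
          · rw [Function.update_of_ne h, h1 i' (hi0 i' h)]
        have e2 : Function.update w i (z' i) = z' := by
          ext i'
          by_cases h : i' = i
          · subst h; simp
          · rw [Function.update_of_ne h, h2 i' h, h1 i' (hi0 i' h)]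
        have h5 := hTh 0 _ h3 _ h4
        simp only [e1, e2] at h5
        rw [← sub_smul, norm_smul, hen, mul_one] at h5
        exact h5.le.trans (min_le_left _ _)
  set w₀ : Fin n → ℂ := fun _ => Complex.I with hw₀
  have hw₀P : w₀ ∈ Pr (fun _ : Fin n => HP) := by
    intro i
    show 0 < (Complex.I).im
    simp
  obtain ⟨A, hA, hAK, hA1⟩ := hK g' (fun i => by
      rw [hg']
      by_cases hi : 0 < i.val
      · simp only [if_pos hi]
        exact (hg i hi).comp Disc_k_diff hkball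
      · simp only [if_neg hi]
        exact differentiableOn_const 0)
    (fun i t ht => by
      rw [hg']
      by_cases hi : 0 < i.val
      · simp only [if_pos hi]
        exact hg1 i hi _ (hkball t ht)
      · simp only [if_neg hi, norm_zero]
        exact zero_le_one)
    (fun _ => HP) (fun _ => Disc_HP_open) (fun _ => Subset.rfl)
    (fun _ _ => rfl) j₀ F hCT (fun j _ => hFS j) (fun j _ => hF1 j) w₀ hw₀P F hFS hF1
    (fun j _ z _ => by
      congr 1
      ext i
      rw [if_pos i.isLt])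
    (fun i _ => by
      rw [hg']
      by_cases hi : 0 < i.val
      · simp only [if_pos hi]
        rcases hgf i hi with h0 | ⟨j, hj⟩
        · exact Or.inl fun t ht => h0 _ (hkball t ht)
        · exact Or.inr ⟨j, fun z hz => hj _ (hkPD z hz)⟩
      · simp only [if_neg hi]
        exact Or.inl fun _ _ => trivial)
    (fun z hz => hb _ (hkPD z hz))
  have hkiP : ∀ z ∈ PD n, (fun i => Disc_ki (z i)) ∈ Pr (fun _ : Fin n => HP) :=
    fun z hz i => Disc_ki_mem (hz i)
  refine ⟨fun j z => A j (fun i => Disc_ki (z i)), fun j => ?_, fun j z hz => ?_,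
    fun z hz => ?_⟩
  · have h1 : DifferentiableOn ℂ (A j) (Pr (fun _ : Fin n => HP)) :=
      osgood (fun _ => Disc_HP_open) (hA j)
    exact h1.comp (Disc_pi_diff Disc_ki_diff (fun z hz i => mem_ball_zero_iff.mpr (hz i))) hkiP
  · exact hAK j _ (hkiP z hz)
  · have h1 := hA1 _ (hkiP z hz)
    have h2 : (fun i => Disc_k (Disc_ki (z i))) = z := funext (fun i => Disc_k_ki (hz i))
    rw [← h1]
    refine Finset.sum_congr rfl fun j _ => ?_
    rw [hF]
    show f j z * A j (fun i => Disc_ki (z i)) =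
      f j (fun i => Disc_k (Disc_ki (z i))) * A j (fun i => Disc_ki (z i))
    rw [h2]

/-- corona theorem: one arbitrary generator, the others in the class `UC n g`, where the functions
`g i` of one variable are zero or generators -/
theorem corona_UC {n k : ℕ} {g : Fin n → ℂ → ℂ} (hg : ∀ i : Fin n, 0 < i.val → H1 (g i))
    (f : Fin k → (Fin n → ℂ) → ℂ) (hf : ∀ j, HInf (PD n) (f j))
    (j₀ : Fin k) (hT : ∀ j, j ≠ j₀ → UC n g (f j))
    (hgf : ∀ i : Fin n, 0 < i.val → (∀ t ∈ ball (0 : ℂ) 1, g i t = 0) ∨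
        ∃ j, ∀ z ∈ PD n, f j z = g i (z i)) {c : ℝ} (hc : 0 < c)
    (hb : ∀ z ∈ PD n, c ≤ ∑ j, ‖f j z‖) :
    ∃ A : Fin k → (Fin n → ℂ) → ℂ, (∀ j, HInf (PD n) (A j)) ∧
      ∀ z ∈ PD n, ∑ j, f j z * A j z = 1 := by
  classical
  have hk : 0 < k := Fin.pos j₀
  have hkr : (0 : ℝ) < k := by exact_mod_cast hk
  -- a common bound
  have hbd : ∃ M : ℝ, 1 ≤ M ∧ (∀ j, ∀ z ∈ PD n, ‖f j z‖ ≤ M) ∧
      ∀ i : Fin n, 0 < i.val → ∀ t ∈ ball (0 : ℂ) 1, ‖g i t‖ ≤ M := by
    choose b hb' using fun j => (hf j).2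
    have h2 : ∀ i : Fin n, ∃ C : ℝ, 0 < i.val → ∀ t ∈ ball (0 : ℂ) 1, ‖g i t‖ ≤ C := by
      intro i
      by_cases hi : 0 < i.val
      · obtain ⟨C, hC⟩ := (hg i hi).2
        exact ⟨C, fun _ => hC⟩
      · exact ⟨0, fun h => absurd h hi⟩
    choose b' hb'' using h2
    have h0 : 0 ≤ ∑ j, |b j| := Finset.sum_nonneg fun j _ => abs_nonneg _
    have h0' : 0 ≤ ∑ j, |b' j| := Finset.sum_nonneg fun j _ => abs_nonneg _
    refine ⟨1 + ∑ j, |b j| + ∑ j, |b' j|, by linarith, ?_, ?_⟩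
    · intro j z hz
      have h1 : |b j| ≤ ∑ j, |b j| :=
        Finset.single_le_sum (f := fun j => |b j|) (fun i _ => abs_nonneg _) (Finset.mem_univ j)
      have h2 := hb' j z hz
      have h3 := le_abs_self (b j)
      linarith
    · intro i hi t ht
      have h1 : |b' i| ≤ ∑ j, |b' j| :=
        Finset.single_le_sum (f := fun j => |b' j|) (fun i _ => abs_nonneg _) (Finset.mem_univ i)
      have h2 := hb'' i hi t ht
      have h3 := le_abs_self (b' i)
      linarith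
  obtain ⟨M, hM1, hM, hMg⟩ := hbd
  have hM0 : (0 : ℝ) < M := by linarith
  have hMc : (M : ℂ) ≠ 0 := by exact_mod_cast hM0.ne'
  -- the controls with a common modulus
  have hctl : ∀ ε : ℝ, ∃ (r : ℕ) (B ρ : ℝ), 0 < ε → 0 < ρ ∧
      ∀ j, j ≠ j₀ → ∀ i : Fin n, 0 < i.val → ∀ w ∈ PD n,
      ∃ h : Fin r → ℂ → L2, (∀ q, DifferentiableOn ℂ (h q) (ball 0 1)) ∧
      (∀ q, ∀ t ∈ ball (0 : ℂ) 1, ‖h q t‖ ≤ B) ∧
      ∀ T : Set ℂ, T ⊆ ball 0 1 → IsPreconnected T → (∀ t ∈ T, ‖g i t‖ < ρ) →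
        (∀ q, ∀ t ∈ T, ∀ t' ∈ T, ‖h q t - h q t'‖ < ρ) →
        ∀ z ∈ PD n, ∀ z' ∈ PD n, (∀ j, i < j → z j = w j) → (∀ j, j ≠ i → z' j = z j) →
          z i ∈ T → z' i ∈ T → ‖f j z - f j z'‖ ≤ M * ε := by
    intro ε
    by_cases hε : 0 < ε
    swap
    · exact ⟨0, 0, 0, fun h => absurd h hε⟩
    have h1 : ∀ j, ∃ (r : ℕ) (B ρ : ℝ), 0 < ρ ∧ (j ≠ j₀ → ∀ i : Fin n, 0 < i.val → ∀ w ∈ PD n,
        ∃ h : Fin r → ℂ → L2, (∀ q, DifferentiableOn ℂ (h q) (ball 0 1)) ∧
        (∀ q, ∀ t ∈ ball (0 : ℂ) 1, ‖h q t‖ ≤ B) ∧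
        ∀ T : Set ℂ, T ⊆ ball 0 1 → IsPreconnected T → (∀ t ∈ T, ‖g i t‖ < ρ) →
          (∀ q, ∀ t ∈ T, ∀ t' ∈ T, ‖h q t - h q t'‖ < ρ) →
          ∀ z ∈ PD n, ∀ z' ∈ PD n, (∀ j, i < j → z j = w j) → (∀ j, j ≠ i → z' j = z j) →
            z i ∈ T → z' i ∈ T → ‖f j z - f j z'‖ ≤ M * ε) := by
      intro j
      by_cases hj : j = j₀
      · exact ⟨0, 0, 1, one_pos, fun h => absurd hj h⟩
      · obtain ⟨r, B, ρ, hρ, H⟩ := (hT j hj).2 (M * ε) (by positivity)
        exact ⟨r, B, ρ, hρ, fun _ => H⟩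
    choose r B ρ hρ H using h1
    have hne : (Finset.univ : Finset (Fin k)).Nonempty := ⟨j₀, Finset.mem_univ _⟩
    have hB0 : 0 ≤ ∑ j, |B j| := Finset.sum_nonneg fun j _ => abs_nonneg _
    refine ⟨∑ j, r j, ∑ j, |B j|, Finset.univ.inf' hne ρ, fun _ => ⟨?_, ?_⟩⟩
    · exact (Finset.lt_inf'_iff hne).2 fun j _ => hρ j
    · intro j hj i hi w hw
      obtain ⟨h, hd, hB, H1⟩ := H j hj i hi w hw
      have hrj : r j ≤ ∑ j, r j :=
        Finset.single_le_sum (f := r) (fun i _ => Nat.zero_le _) (Finset.mem_univ j)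
      refine ⟨fun q => if hq : q.val < r j then h ⟨q.val, hq⟩ else fun _ => 0, fun q => ?_,
        fun q t ht => ?_, fun T hTs hTc hTg hTh => H1 T hTs hTc (fun t ht => ?_)
          (fun q t ht t' ht' => ?_)⟩
      · by_cases hq : q.val < r j
        · simp only [dif_pos hq]; exact hd _
        · simp only [dif_neg hq]; exact differentiableOn_const 0
      · have h1 : |B j| ≤ ∑ j, |B j| :=
          Finset.single_le_sum (f := fun j => |B j|) (fun i _ => abs_nonneg _) (Finset.mem_univ j)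
        have h3 := le_abs_self (B j)
        by_cases hq : q.val < r j
        · simp only [dif_pos hq]
          have h2 := hB ⟨q.val, hq⟩ t ht
          linarith
        · simp only [dif_neg hq, norm_zero]
          linarith
      · exact (hTg t ht).trans_le (Finset.inf'_le _ (Finset.mem_univ j))
      · have h4 := hTh ⟨q.val, by have := q.isLt; omega⟩ t ht t' ht'
        simp only [dif_pos q.isLt] at h4
        exact h4.trans_le (Finset.inf'_le _ (Finset.mem_univ j))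
  choose r B ρ hctl using hctl
  have hsub : ∀ j z z', ‖f j z / (M : ℂ) - f j z' / (M : ℂ)‖ = ‖f j z - f j z'‖ / M := by
    intro j z z'
    rw [← sub_div, norm_div, Complex.norm_real, Real.norm_of_nonneg hM0.le]
  have hnorm : ∀ x : ℂ, ‖x / (M : ℂ)‖ = ‖x‖ / M := by
    intro x
    rw [norm_div, Complex.norm_real, Real.norm_of_nonneg hM0.le]
  obtain ⟨K, hK⟩ := HU_quant n k r B (fun ε => ρ ε / M)
    (fun ε hε => div_pos (hctl ε hε).1 hM0) (δ := c / M) (by positivity)
  obtain ⟨A, hA, hAK, hA1⟩ := hK (fun i t => g i t / (M : ℂ))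
    (fun i hi => by simpa only [div_eq_mul_inv] using (hg i hi).1.mul_const ((M : ℂ)⁻¹))
    (fun i hi t ht => by
      rw [hnorm]
      exact (div_le_one hM0).2 (hMg i hi t ht))
    (fun j z => f j z / (M : ℂ)) j₀
    (fun j => by simpa only [div_eq_mul_inv] using (hf j).1.mul_const ((M : ℂ)⁻¹))
    (fun j z hz => by
      rw [hnorm]
      exact (div_le_one hM0).2 (hM j z hz))
    (fun j hj ε hε i hi w hw => by
      obtain ⟨h, hd, hB, H⟩ := (hctl ε hε).2 j hj i hi w hw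
      refine ⟨h, hd, hB, fun T hTs hTc hTg hTh z hz z' hz' h1 h2 h3 h4 => ?_⟩
      rw [hsub, div_le_iff₀ hM0, mul_comm]
      have hρM : ρ ε / M ≤ ρ ε := div_le_self (hctl ε hε).1.le hM1
      refine H T hTs hTc (fun t ht => ?_) (fun q t ht t' ht' => ?_) z hz z' hz' h1 h2 h3 h4
      · have h5 := hTg t ht
        rw [hnorm, div_lt_div_iff_of_pos_right hM0] at h5
        exact h5
      · exact (hTh q t ht t' ht').trans_le hρM)
    (fun i hi => by
      rcases hgf i hi with h0 | ⟨j, hj⟩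
      · exact Or.inl fun t ht => by rw [h0 t ht, zero_div]
      · exact Or.inr ⟨j, fun z hz => by rw [hj z hz]⟩)
    (fun z hz => by
      have h1 := hb z hz
      simp only [hnorm]
      rw [← Finset.sum_div]
      exact div_le_div_of_nonneg_right h1 hM0.le)
  refine ⟨fun j z => A j z / (M : ℂ), fun j => ⟨?_, K / M, fun z hz => ?_⟩, fun z hz => ?_⟩
  · simpa only [div_eq_mul_inv] using (hA j).mul_const ((M : ℂ)⁻¹)
  · rw [hnorm]
    exact div_le_div_of_nonneg_right (hAK j z hz) hM0.le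
  · rw [← hA1 z hz]
    refine Finset.sum_congr rfl fun j _ => ?_
    ring

end Cor
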