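import Pool.Agent.helper30.Cor.GelU
import Pool.Agent.helper45.Cor.Thin

/-!
# Corona project: the class `UC n g` is a closed algebra; members; the corona theorem for it
-/

noncomputable section

open Set Metric

namespace Cor

theorem UC_of_HT {n : ℕ} (g : Fin n → ℂ → ℂ) {f : (Fin n → ℂ) → ℂ} (hf : HT n f) : UC n g f := by
  refine ⟨hf.1, fun ε hε => ?_⟩
  obtain ⟨r, B, ρ, hρ, H⟩ := hf.2 ε hε
  refine ⟨r, B, ρ, hρ, fun i hi w hw => ?_⟩
  obtain ⟨h, hd, hB, H⟩ := H i hi w hw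
  exact ⟨h, hd, hB, fun T _ _ _ hTh z hz z' hz' h1 h2 h3 h4 =>
    H z hz z' hz' h1 h2 fun q => hTh q _ h3 _ h4⟩

/-- common control of two functions of the class -/
theorem UC_two {n : ℕ} {g : Fin n → ℂ → ℂ} {f f' : (Fin n → ℂ) → ℂ} (hf : UC n g f)
    (hf' : UC n g f') {ε : ℝ} (hε : 0 < ε) :
    ∃ (r : ℕ) (B ρ : ℝ), 0 < ρ ∧ ∀ i : Fin n, 0 < i.val → ∀ w ∈ PD n, ∃ h : Fin r → ℂ → L2,
    (∀ q, DifferentiableOn ℂ (h q) (ball 0 1)) ∧ (∀ q, ∀ t ∈ ball (0 : ℂ) 1, ‖h q t‖ ≤ B) ∧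
    ∀ T : Set ℂ, T ⊆ ball 0 1 → IsPreconnected T → (∀ t ∈ T, ‖g i t‖ < ρ) →
      (∀ q, ∀ t ∈ T, ∀ t' ∈ T, ‖h q t - h q t'‖ < ρ) →
      ∀ z ∈ PD n, ∀ z' ∈ PD n, (∀ j, i < j → z j = w j) → (∀ j, j ≠ i → z' j = z j) →
        z i ∈ T → z' i ∈ T → ‖f z - f z'‖ ≤ ε ∧ ‖f' z - f' z'‖ ≤ ε := by
  obtain ⟨r, B, ρ, hρ, H⟩ := hf.2 ε hε
  obtain ⟨r', B', ρ', hρ', H'⟩ := hf'.2 ε hε
  refine ⟨r + r', max B B', min ρ ρ', lt_min hρ hρ', fun i hi w hw => ?_⟩
  obtain ⟨h, hd, hB, H⟩ := H i hi w hw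
  obtain ⟨h', hd', hB', H'⟩ := H' i hi w hw
  refine ⟨Fin.append h h', ?_, ?_, ?_⟩
  · intro q
    refine Fin.addCases (fun q => ?_) (fun q => ?_) q
    · rw [Fin.append_left]; exact hd q
    · rw [Fin.append_right]; exact hd' q
  · intro q w hw
    refine Fin.addCases (fun q => ?_) (fun q => ?_) q
    · rw [Fin.append_left]; exact (hB q w hw).trans (le_max_left _ _)
    · rw [Fin.append_right]; exact (hB' q w hw).trans (le_max_right _ _)
  · intro T hTs hTc hTg hTh z hz z' hz' h1 h2 h3 h4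
    constructor
    · refine H T hTs hTc (fun t ht => (hTg t ht).trans_le (min_le_left _ _))
        (fun q t ht t' ht' => ?_) z hz z' hz' h1 h2 h3 h4
      have := hTh (Fin.castAdd r' q) t ht t' ht'
      rw [Fin.append_left] at this
      exact this.trans_le (min_le_left _ _)
    · refine H' T hTs hTc (fun t ht => (hTg t ht).trans_le (min_le_right _ _))
        (fun q t ht t' ht' => ?_) z hz z' hz' h1 h2 h3 h4
      have := hTh (Fin.natAdd r q) t ht t' ht'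
      rw [Fin.append_right] at this
      exact this.trans_le (min_le_right _ _)

theorem UC_add {n : ℕ} {g : Fin n → ℂ → ℂ} {f f' : (Fin n → ℂ) → ℂ} (hf : UC n g f)
    (hf' : UC n g f') : UC n g (fun z => f z + f' z) := by
  obtain ⟨Cf, hCf⟩ := hf.1.2
  obtain ⟨Cg, hCg⟩ := hf'.1.2
  refine ⟨⟨hf.1.1.add hf'.1.1, Cf + Cg, fun z hz => (norm_add_le _ _).trans
    (add_le_add (hCf z hz) (hCg z hz))⟩, fun ε hε => ?_⟩
  obtain ⟨r, B, ρ, hρ, H⟩ := UC_two hf hf' (half_pos hε)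
  refine ⟨r, B, ρ, hρ, fun i hi w hw => ?_⟩
  obtain ⟨h, hd, hB, H⟩ := H i hi w hw
  refine ⟨h, hd, hB, fun T hTs hTc hTg hTh z hz z' hz' h1 h2 h3 h4 => ?_⟩
  obtain ⟨h5, h6⟩ := H T hTs hTc hTg hTh z hz z' hz' h1 h2 h3 h4
  have e : f z + f' z - (f z' + f' z') = (f z - f z') + (f' z - f' z') := by ring
  rw [e]
  have := norm_add_le (f z - f z') (f' z - f' z')
  linarith

theorem UC_mul {n : ℕ} {g : Fin n → ℂ → ℂ} {f f' : (Fin n → ℂ) → ℂ} (hf : UC n g f)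
    (hf' : UC n g f') : UC n g (fun z => f z * f' z) := by
  obtain ⟨Cf, hCf⟩ := hf.1.2
  obtain ⟨Cg, hCg⟩ := hf'.1.2
  have hCf' : ∀ z ∈ PD n, ‖f z‖ ≤ |Cf| := fun z hz => (hCf z hz).trans (le_abs_self _)
  have hCg' : ∀ z ∈ PD n, ‖f' z‖ ≤ |Cg| := fun z hz => (hCg z hz).trans (le_abs_self _)
  refine ⟨⟨hf.1.1.mul hf'.1.1, |Cf| * |Cg|, fun z hz => ?_⟩, fun ε hε => ?_⟩
  · rw [norm_mul]
    exact mul_le_mul (hCf' z hz) (hCg' z hz) (norm_nonneg _) (abs_nonneg _)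
  set D : ℝ := |Cf| + |Cg| + 1 with hD
  have hD0 : 0 < D := by positivity
  obtain ⟨r, B, ρ, hρ, H⟩ := UC_two hf hf' (div_pos hε hD0)
  refine ⟨r, B, ρ, hρ, fun i hi w hw => ?_⟩
  obtain ⟨h, hd, hB, H⟩ := H i hi w hw
  refine ⟨h, hd, hB, fun T hTs hTc hTg hTh z hz z' hz' h1 h2 h3 h4 => ?_⟩
  obtain ⟨h1, h2⟩ := H T hTs hTc hTg hTh z hz z' hz' h1 h2 h3 h4
  have e : f z * f' z - f z' * f' z' = f z * (f' z - f' z') + (f z - f z') * f' z' := by ring
  rw [e]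
  refine (norm_add_le _ _).trans ?_
  rw [norm_mul, norm_mul]
  have h3 : ‖f z‖ * ‖f' z - f' z'‖ ≤ |Cf| * (ε / D) :=
    mul_le_mul (hCf' z hz) h2 (norm_nonneg _) (abs_nonneg _)
  have h4 : ‖f z - f z'‖ * ‖f' z'‖ ≤ (ε / D) * |Cg| :=
    mul_le_mul h1 (hCg' z' hz') (norm_nonneg _) (div_pos hε hD0).le
  have h5 : D * (ε / D) = ε := by field_simp
  have h6 : 0 < ε / D := div_pos hε hD0
  rw [hD] at h5
  nlinarith

theorem UC_const {n : ℕ} {g : Fin n → ℂ → ℂ} (c : ℂ) : UC n g (fun _ => c) :=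
  UC_of_HT g (HT_const c)

theorem UC_lim {n : ℕ} {g : Fin n → ℂ → ℂ} {f : (Fin n → ℂ) → ℂ} (hd : HInf (PD n) f)
    (hf : ∀ ε : ℝ, 0 < ε → ∃ p, UC n g p ∧ ∀ z ∈ PD n, ‖f z - p z‖ ≤ ε) : UC n g f := by
  refine ⟨hd, fun ε hε => ?_⟩
  obtain ⟨p, hp, hfp⟩ := hf (ε / 3) (by positivity)
  obtain ⟨r, B, ρ, hρ, H⟩ := hp.2 (ε / 3) (by positivity)
  refine ⟨r, B, ρ, hρ, fun i hi w hw => ?_⟩
  obtain ⟨h, hd, hB, H⟩ := H i hi w hw
  refine ⟨h, hd, hB, fun T hTs hTc hTg hTh z hz z' hz' h1 h2 h3 h4 => ?_⟩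
  have h1 := H T hTs hTc hTg hTh z hz z' hz' h1 h2 h3 h4
  have h2 := hfp z hz
  have h3 := hfp z' hz'
  have e : f z - f z' = (f z - p z) + (p z - p z') - (f z' - p z') := by ring
  rw [e]
  have := norm_sub_le ((f z - p z) + (p z - p z')) (f z' - p z')
  have := norm_add_le (f z - p z) (p z - p z')
  linarith

/-- all bounded holomorphic functions belong to the class if the connected sets on which `|g i|` is
small have a small pseudohyperbolic diameter -/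
theorem UC_small {n : ℕ} {g : Fin n → ℂ → ℂ}
    (hg : ∀ i : Fin n, 0 < i.val → ∀ η : ℝ, 0 < η → ∃ ρ : ℝ, 0 < ρ ∧ ∀ T : Set ℂ, T ⊆ ball 0 1 →
      IsPreconnected T → (∀ t ∈ T, ‖g i t‖ < ρ) → ∀ t ∈ T, ∀ t' ∈ T, pd t t' ≤ η)
    {f : (Fin n → ℂ) → ℂ} (hf : HInf (PD n) f) : UC n g f := by
  classical
  refine ⟨hf, fun ε hε => ?_⟩
  obtain ⟨C, hC⟩ := hf.2
  set M : ℝ := |C| + 1 with hM
  have hM0 : 0 < M := by positivity
  have hfM : ∀ z ∈ PD n, ‖f z‖ ≤ M := fun z hz => by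
    have := hC z hz
    have := le_abs_self C
    linarith
  have h1 : ∀ i : Fin n, ∃ ρ : ℝ, 0 < ρ ∧ (0 < i.val → ∀ T : Set ℂ, T ⊆ ball 0 1 →
      IsPreconnected T → (∀ t ∈ T, ‖g i t‖ < ρ) → ∀ t ∈ T, ∀ t' ∈ T, pd t t' ≤ ε / (2 * M)) := by
    intro i
    by_cases hi : 0 < i.val
    · obtain ⟨ρ, hρ, H⟩ := hg i hi (ε / (2 * M)) (by positivity)
      exact ⟨ρ, hρ, fun _ => H⟩
    · exact ⟨1, one_pos, fun h => absurd h hi⟩
  choose ρ hρ H using h1
  have hρm : ∃ r : ℝ, 0 < r ∧ ∀ i, r ≤ ρ i := by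
    rcases isEmpty_or_nonempty (Fin n) with he | he
    · exact ⟨1, one_pos, fun j => he.elim j⟩
    · obtain ⟨j, hj⟩ := Finite.exists_min ρ
      exact ⟨ρ j, hρ j, hj⟩
  obtain ⟨r, hr, hrρ⟩ := hρm
  refine ⟨0, 0, r, hr, fun i hi w hw => ⟨fun _ _ => 0, fun _ => differentiableOn_const 0,
    fun q => q.elim0, fun T hTs hTc hTg _ z hz z' hz' h1 h2 h3 h4 => ?_⟩⟩
  have h5 := H i hi T hTs hTc (fun t ht => (hTg t ht).trans_le (hrρ i)) _ h3 _ h4
  have hupd : ∀ t ∈ ball (0 : ℂ) 1, Function.update z i t ∈ PD n := by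
    intro t ht j
    by_cases hj : j = i
    · subst hj; simpa using ht
    · rw [Function.update_of_ne hj]; exact hz j
  have hMc : (M : ℂ) ≠ 0 := by exact_mod_cast hM0.ne'
  have hφ : DifferentiableOn ℂ (fun t => f (Function.update z i t) / (M : ℂ)) (ball 0 1) := by
    have h6 : DifferentiableOn ℂ (fun t => f (Function.update z i t)) (ball 0 1) := by
      refine hf.1.comp ?_ hupd
      refine (differentiable_pi.2 fun j => ?_).differentiableOn
      by_cases hj : j = i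
      · subst hj; simp only [Function.update_self]; exact differentiable_id
      · simp only [Function.update_of_ne hj]; exact differentiable_const _
    simpa only [div_eq_mul_inv] using h6.mul_const ((M : ℂ)⁻¹)
  have h7 := Thin_sp hφ (fun t ht => by
    rw [norm_div, Complex.norm_real, Real.norm_of_nonneg hM0.le]
    exact (div_le_one hM0).2 (hfM _ (hupd t ht))) (hz i) (hz' i)
  have e1 : Function.update z i (z i) = z := Function.update_eq_self i z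
  have e2 : Function.update z i (z' i) = z' := by
    ext j
    by_cases hj : j = i
    · subst hj; simp
    · rw [Function.update_of_ne hj, h2 j hj]
  simp only [e1, e2] at h7
  rw [← sub_div, norm_div, Complex.norm_real, Real.norm_of_nonneg hM0.le, div_le_iff₀ hM0] at h7
  refine h7.trans ?_
  have h8 : 2 * (ε / (2 * M)) * M = ε := by field_simp
  nlinarith

/-- thin functions, for instance interpolating Blaschke products, satisfy the condition of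
`UC_small` -/
theorem Thin_small {g : ℂ → ℂ} {c : ℝ} {Z : Set ℂ} (hg : Thin g c Z) {η : ℝ} (hη : 0 < η) :
    ∃ ρ : ℝ, 0 < ρ ∧ ∀ T : Set ℂ, T ⊆ ball 0 1 → IsPreconnected T → (∀ t ∈ T, ‖g t‖ < ρ) →
      ∀ t ∈ T, ∀ t' ∈ T, pd t t' ≤ η := by
  obtain ⟨-, hc, hZ, hsep, hthin⟩ := hg
  set κ : ℝ := min (η / 3) (c / 4) with hκ
  have hκ0 : 0 < κ := lt_min (by positivity) (by positivity)
  have hκη : κ ≤ η / 3 := min_le_left _ _
  have hκc : κ ≤ c / 4 := min_le_right _ _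
  refine ⟨min c (c * κ), lt_min hc (by positivity), fun T hTs hTc hTg => ?_⟩
  have hnear : ∀ t ∈ T, ∃ a ∈ Z, pd t a < κ := by
    intro t ht
    obtain ⟨a, ha, h1⟩ := hthin t (hTs ht) ((hTg t ht).trans_le (min_le_left _ _))
    refine ⟨a, ha, ?_⟩
    have h2 := (h1.trans_lt (hTg t ht)).trans_le (min_le_right _ _)
    exact lt_of_mul_lt_mul_left h2 hc.le
  have hball : ∀ {x : ℂ}, x ∈ ball (0 : ℂ) 1 → ‖x‖ < 1 := fun h => mem_ball_zero_iff.1 h
  have huniq : ∀ t ∈ T, ∀ a ∈ Z, ∀ b ∈ Z, pd t a < κ → pd t b < κ → a = b := by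
    intro t ht a ha b hb h1 h2
    by_contra hab
    have h3 := hsep a ha b hb hab
    have h4 := Thin_tri (hball (hTs ht)) (hball (hZ ha)) (hball (hZ hb))
    linarith
  intro t ht t' ht'
  obtain ⟨a, ha, hta⟩ := hnear t ht
  -- the set of points of `T` near `a` is open and closed in `T`
  have hcont : ∀ b ∈ Z, ContinuousOn (fun w => pd w b) T := fun b hb w hw =>
    (Thin_cont (hball (hZ hb)) (hball (hTs hw))).continuousWithinAt
  have hall : ∀ s ∈ T, pd s a < κ := by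
    by_contra hne
    push Not at hne
    obtain ⟨s, hs, hsa⟩ := hne
    -- separation by two open sets
    have hop : ∀ b ∈ Z, ∃ U : Set ℂ, IsOpen U ∧ U ∩ T = {w | pd w b < κ} ∩ T := by
      intro b hb
      obtain ⟨U, hU, hU'⟩ := (_root_.continuousOn_iff'.1 (hcont b hb)) (Iio κ) isOpen_Iio
      exact ⟨U, hU, by rw [← hU']; rfl⟩
    choose! U hU hU' using hop
    have h5 := hTc (U a) (⋃ b ∈ {b | b ∈ Z ∧ b ≠ a}, U b) (hU a ha)
      (isOpen_biUnion fun b hb => hU b hb.1) (fun w hw => by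
        obtain ⟨b, hb, hwb⟩ := hnear w hw
        have h6 : w ∈ U b := by
          have : w ∈ U b ∩ T := by rw [hU' b hb]; exact ⟨hwb, hw⟩
          exact this.1
        by_cases hba : b = a
        · subst hba; exact Or.inl h6
        · exact Or.inr (mem_biUnion (show b ∈ {b | b ∈ Z ∧ b ≠ a} from ⟨hb, hba⟩) h6))
      ⟨t, ht, by
        have : t ∈ U a ∩ T := by rw [hU' a ha]; exact ⟨hta, ht⟩
        exact this.1⟩
      ⟨s, hs, by
        obtain ⟨b, hb, hsb⟩ := hnear s hs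
        have hba : b ≠ a := fun h => by subst h; linarith
        have h6 : s ∈ U b := by
          have : s ∈ U b ∩ T := by rw [hU' b hb]; exact ⟨hsb, hs⟩
          exact this.1
        exact mem_biUnion (show b ∈ {b | b ∈ Z ∧ b ≠ a} from ⟨hb, hba⟩) h6⟩
    obtain ⟨w, hw, hwa, hwb⟩ := h5
    obtain ⟨b, hb, hwb⟩ := mem_iUnion₂.1 hwb
    have h6 : w ∈ {w | pd w a < κ} ∩ T := by rw [← hU' a ha]; exact ⟨hwa, hw⟩
    have h7 : w ∈ {w | pd w b < κ} ∩ T := by rw [← hU' b hb.1]; exact ⟨hwb, hw⟩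
    exact hb.2 (huniq w hw b hb.1 a ha h7.1 h6.1)
  have h8 := hall t' ht'
  -- pd t t' ≤ pd a t' + 2 pd a t
  have hsymm : ∀ x y : ℂ, pd x y = pd y x := by
    intro x y
    unfold pd
    rw [norm_sub_rev x y]
    congr 1
    have : (1 - (starRingEnd ℂ) y * x) = (starRingEnd ℂ) (1 - (starRingEnd ℂ) x * y) := by
      simp [mul_comm]
    rw [this, Complex.norm_conj]
  have h9 := Thin_tri (z := a) (a := t) (b := t') (hball (hZ ha)) (hball (hTs ht))
    (hball (hTs ht'))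
  rw [hsymm a t', hsymm a t] at h9
  linarith

/-- the corona theorem for families in the closed algebra generated by the class `UC n g` and one
arbitrary function `F`, if the functions `g i` belong to the ideal of the family -/
theorem corona_GenU {n k : ℕ} {g : Fin n → ℂ → ℂ} (hg : ∀ i : Fin n, 0 < i.val → H1 (g i))
    {F : (Fin n → ℂ) → ℂ} (hF : HInf (PD n) F)
    (f : Fin k → (Fin n → ℂ) → ℂ) (hf : ∀ j, HInf (PD n) (f j))
    (hgf : ∀ i : Fin n, 0 < i.val → ∃ G : Fin k → (Fin n → ℂ) → ℂ, (∀ j, HInf (PD n) (G j)) ∧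
      ∀ z ∈ PD n, g i (z i) = ∑ j, f j z * G j z)
    (hfa : ∀ j, ∀ ε > 0, ∃ p, GAlg (UC n g) F p ∧ ∀ z ∈ PD n, ‖f j z - p z‖ ≤ ε)
    {δ : ℝ} (hδ : 0 < δ) (hb : ∀ z ∈ PD n, δ ≤ ∑ j, ‖f j z‖) :
    ∃ A : Fin k → (Fin n → ℂ) → ℂ, (∀ j, HInf (PD n) (A j)) ∧
      ∀ z ∈ PD n, ∑ j, f j z * A j z = 1 := by
  refine gelU (PD_isOpen n) (𝒢 := UC n g) (fun _ hu => hu.1) (fun u hu c => ?_)
    (ι' := {i : Fin n // 0 < i.val}) (fun i z => g i.1 (z i.1))
    (fun i => UC_of_HT g (HT_var i.1 (hg i.1 i.2)))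
    (fun k f j₀ hf hT hef δ hδ hb => corona_UC hg f hf j₀ hT
      (fun i hi => Or.inr (hef ⟨i, hi⟩)) hδ hb) hF f hf (fun i => hgf i.1 i.2) hfa hδ hb
  have := UC_add hu (UC_const (n := n) (g := g) (-c))
  simpa [sub_eq_add_neg] using this

end Cor
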