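import Pool.Agent.helper45.Cor.Defs

/-!
# Corona project, part 1: testing a packing condition against `om` (module CO-Test)

`om z c = Im z Im c / |z - conj c|²`.  Let `z = x + iy`, `y > 0`; for a node `p` write `λ = len p`,
`x_p` = real part of `cen p`, so `cen p = x_p + (3/2) i λ` and
`D_p := |z - conj (cen p)|² = (x - x_p)² + (y + (3/2) λ)²`, `om z (cen p) = (3/2) y λ / D_p`.

## Proof of `test_of_pack`
If `J` is empty there is nothing to prove (`0 ≤ M`); otherwise `1 ≤ M` (take `q = p ∈ J`).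
Let `I_p = [p.2 λ, (p.2+1) λ]`, and note `|t - x_p| ≤ λ/2` for `t ∈ I_p`.

(A) nodes with `λ > y`.  For `t ∈ I_p`: `(x-t)² + λ² ≤ 2(x-x_p)² + λ²/2 + λ² ≤ 2 D_p`, hence
`om z (cen p) = (3/2) y λ / D_p ≤ 3 y ∫_{I_p} dt / ((x-t)² + λ²)`.  The intervals `I_p` of one level
are disjoint, so the sum over ALL nodes of level `n` (`λ = 2^-n`) is
`≤ 3 y ∫_0^1 dt / ((x-t)² + λ²) ≤ 3 π y / λ` (antiderivative `arctan ((t-x)/λ)/λ`).  Sum over the
levels with `2^-n > y`: `y / λ = y 2^n` is a geometric sequence with ratio `2` whose last term is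
`< 1`, so the sum is `≤ 3π · 2 < 19`.

(B) nodes with `λ ≤ y`.  If `y ≥ 1` put `q = (0,0)`: `D_p ≥ y²`, so the sum is
`≤ (3/2) ∑_{p ∈ J} λ / y ≤ (3/2) M`.  If `y < 1` let `ν` be the level with `μ := 2^-ν ≤ y < 2 μ`;
every node with `λ ≤ y` has level `≥ ν`, so it lies under exactly one node `q` of level `ν`.  For `p`
under `q` and `t ∈ I_q`: `(x-t)² + y² ≤ 2(x-x_p)² + 2μ² + y² ≤ 3((x-x_p)² + y²) ≤ 3 D_p`, so
`1/D_p ≤ (3/μ) ∫_{I_q} dt / ((x-t)²+y²)` and
`∑_{p under q} om z (cen p) ≤ (3/2) y (M μ) (3/μ) ∫_{I_q} dt/((x-t)²+y²) = (9/2) M ∫_{I_q} y dt/((x-t)²+y²)`.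
Sum over the nodes `q` of level `ν`: `≤ (9/2) M π < 14.2 M`.

Total `≤ 19 + 14.2 M ≤ 33.2 M ≤ 40 M`.

(Any other route is fine.  To avoid integrals one may compare with sums: for level `n`,
`∑_j 1/((u-j)² + 9/4)` is bounded by an absolute constant.)
-/

namespace Cor

noncomputable section

lemma CO_arctan {u v K : ℝ} (huv : u ≤ v) (hK : 0 < K)
    (h : ∀ w, u ≤ w → w ≤ v → 1 + w ^ 2 ≤ K) :
    (v - u) / K ≤ Real.arctan v - Real.arctan u := by
  rcases huv.eq_or_lt with rfl | hlt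
  · simp
  obtain ⟨w, hw, hw'⟩ := exists_deriv_eq_slope Real.arctan hlt
    Real.continuous_arctan.continuousOn Real.differentiable_arctan.differentiableOn
  rw [Real.deriv_arctan] at hw'
  beta_reduce at hw'
  have h1 : Real.arctan v - Real.arctan u = (v - u) * (1 / (1 + w ^ 2)) := by
    rw [hw']
    have : v - u ≠ 0 := sub_ne_zero.2 hlt.ne'
    field_simp
  rw [h1, div_eq_mul_one_div]
  have h2 : 0 < 1 + w ^ 2 := by positivity
  exact mul_le_mul_of_nonneg_left (one_div_le_one_div_of_le h2 (h w hw.1.le hw.2.le))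
    (by linarith)

lemma CO_arctan' {a b x s D : ℝ} (hab : a ≤ b) (hs : 0 < s) (hD : 0 < D)
    (h : ∀ t, a ≤ t → t ≤ b → (x - t) ^ 2 + s ^ 2 ≤ D) :
    (b - a) * s / D ≤ Real.arctan ((b - x) / s) - Real.arctan ((a - x) / s) := by
  have h1 := CO_arctan (u := (a - x) / s) (v := (b - x) / s) (K := D / s ^ 2)
    (by gcongr) (by positivity) (by
      intro w hw1 hw2
      rw [div_le_iff₀ hs] at hw1
      rw [le_div_iff₀ hs] at hw2
      have h2 := h (w * s + x) (by linarith) (by linarith)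
      rw [le_div_iff₀ (by positivity)]
      nlinarith)
  refine le_trans (le_of_eq ?_) h1
  field_simp
  ring

lemma CO_tele (f : ℝ → ℝ) (hf : ∀ t, |f t| ≤ Real.pi / 2) (g : ℕ → ℝ) (k : ℕ) :
    ∑ j ∈ Finset.range k, (f (g (j + 1)) - f (g j)) ≤ Real.pi := by
  rw [Finset.sum_range_sub (fun j => f (g j))]
  have h1 := abs_le.1 (hf (g k))
  have h2 := abs_le.1 (hf (g 0))
  linarith

lemma CO_abs_arctan (t : ℝ) : |Real.arctan t| ≤ Real.pi / 2 := by
  rw [abs_le]
  exact ⟨(Real.neg_pi_div_two_lt_arctan t).le, (Real.arctan_lt_pi_div_two t).le⟩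

lemma CO_len_pos (p : Nd) : 0 < len p := by
  unfold len; positivity

/-- the denominator of `om z (cen p)` -/
def CO_D (z : ℂ) (p : Nd) : ℝ :=
  (z.re - ((p.2 : ℝ) + 1 / 2) * len p) ^ 2 + (z.im + 3 / 2 * len p) ^ 2

lemma CO_om (z : ℂ) (p : Nd) : om z (cen p) = z.im * (3 / 2 * len p) / CO_D z p := by
  unfold om CO_D
  congr 1
  rw [← Complex.normSq_eq_norm_sq, Complex.normSq_apply]
  simp only [cen, Complex.sub_re, Complex.sub_im, Complex.conj_re, Complex.conj_im]
  ring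

lemma CO_D_pos {z : ℂ} (hz : 0 < z.im) (p : Nd) : 0 < CO_D z p := by
  have := CO_len_pos p
  unfold CO_D
  positivity

lemma CO_om_nonneg {z : ℂ} (hz : 0 < z.im) (p : Nd) : 0 ≤ om z (cen p) := by
  have := CO_len_pos p
  have := CO_D_pos hz p
  rw [CO_om]
  positivity

/-- one node against the arctangent -/
lemma CO_nodeA {z : ℂ} (hz : 0 < z.im) (n j : ℕ) :
    om z (cen (n, j)) ≤ 3 * (z.im * 2 ^ n) *
      (Real.arctan ((((j + 1 : ℕ) : ℝ) * (1 / 2) ^ n - z.re) / (1 / 2) ^ n) -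
        Real.arctan (((j : ℝ) * (1 / 2) ^ n - z.re) / (1 / 2) ^ n)) := by
  set l : ℝ := (1 / 2) ^ n with hl
  have hlen : len (n, j) = l := rfl
  have hl0 : 0 < l := by positivity
  have hD := CO_D_pos hz (n, j)
  have h1 := CO_arctan' (a := (j : ℝ) * l) (b := ((j + 1 : ℕ) : ℝ) * l) (x := z.re) (s := l)
    (D := 2 * CO_D z (n, j)) (by push_cast; nlinarith) hl0 (by positivity) (by
      intro t ht1 ht2
      push_cast at ht2
      unfold CO_D
      rw [hlen]
      simp only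
      have h2 : (t - ((j : ℝ) + 1 / 2) * l) ^ 2 ≤ (l / 2) ^ 2 := by
        apply sq_le_sq'
        · nlinarith
        · nlinarith
      have h3 : (z.re - t) ^ 2 ≤ 2 * (z.re - ((j : ℝ) + 1 / 2) * l) ^ 2 +
          2 * (t - ((j : ℝ) + 1 / 2) * l) ^ 2 := by
        nlinarith [sq_nonneg ((z.re - ((j : ℝ) + 1 / 2) * l) + (t - ((j : ℝ) + 1 / 2) * l))]
      have h4 : (3 / 2 * l) ^ 2 ≤ (z.im + 3 / 2 * l) ^ 2 := by gcongr; linarith
      nlinarith [sq_nonneg l])
  have h2 : (1 : ℝ) = 2 ^ n * l := by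
    rw [hl, ← mul_pow]; norm_num
  refine le_trans (le_of_eq ?_) (mul_le_mul_of_nonneg_left h1
    (by positivity : (0 : ℝ) ≤ 3 * (z.im * 2 ^ n)))
  rw [CO_om, hlen]
  have h3 : 3 * (z.im * 2 ^ n) * ((((j + 1 : ℕ) : ℝ) * l - (j : ℝ) * l) * l / (2 * CO_D z (n, j))) =
      3 * z.im * (2 ^ n * l) * l / (2 * CO_D z (n, j)) := by
    push_cast; ring
  rw [h3, ← h2]
  field_simp

lemma CO_geom {y : ℝ} (hy : 0 < y) (N : ℕ) :
    ∑ n ∈ (Finset.range N).filter (fun n => y * 2 ^ n ≤ 1), y * (2 : ℝ) ^ n ≤ 2 := by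
  induction N with
  | zero => simp
  | succ N ih =>
    by_cases h : y * 2 ^ N ≤ 1
    · calc ∑ n ∈ (Finset.range (N + 1)).filter (fun n => y * 2 ^ n ≤ 1), y * (2 : ℝ) ^ n
          ≤ ∑ n ∈ Finset.range (N + 1), y * (2 : ℝ) ^ n :=
            Finset.sum_le_sum_of_subset_of_nonneg (Finset.filter_subset _ _)
              (fun _ _ _ => by positivity)
        _ = y * (2 ^ (N + 1) - 1) := by
            rw [← Finset.mul_sum, geom_sum_eq (by norm_num)]
            norm_num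
        _ ≤ 2 := by
            rw [pow_succ]
            nlinarith
    · rw [Finset.range_add_one, Finset.filter_insert, if_neg h]
      exact ih

open Classical in
/-- the large nodes -/
lemma CO_partA {z : ℂ} (hz : 0 < z.im) (J : Finset Nd) (hJ : ∀ p ∈ J, nd p) :
    ∑ p ∈ J.filter (fun p => z.im ≤ len p), om z (cen p) ≤ 6 * Real.pi := by
  obtain ⟨N, hN⟩ : ∃ N, ∀ p ∈ J, p.1 < N :=
    ⟨J.sup (fun p => p.1) + 1, fun p hp => Nat.lt_succ_iff.2 (Finset.le_sup (f := fun p => p.1) hp)⟩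
  have hmaps : ∀ p ∈ J.filter (fun p => z.im ≤ len p),
      p.1 ∈ (Finset.range N).filter (fun n => z.im * 2 ^ n ≤ 1) := by
    intro p hp
    rw [Finset.mem_filter] at hp ⊢
    refine ⟨Finset.mem_range.2 (hN p hp.1), ?_⟩
    have h1 : z.im * 2 ^ p.1 ≤ len p * 2 ^ p.1 := mul_le_mul_of_nonneg_right hp.2 (by positivity)
    have h2 : len p * 2 ^ p.1 = 1 := by
      unfold len
      rw [← mul_pow]; norm_num
    linarith
  rw [← Finset.sum_fiberwise_of_maps_to hmaps]
  calc ∑ n ∈ (Finset.range N).filter (fun n => z.im * 2 ^ n ≤ 1),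
        ∑ p ∈ (J.filter (fun p => z.im ≤ len p)).filter (fun p => p.1 = n), om z (cen p)
      ≤ ∑ n ∈ (Finset.range N).filter (fun n => z.im * 2 ^ n ≤ 1),
        3 * Real.pi * (z.im * 2 ^ n) := by
        refine Finset.sum_le_sum fun n _ => ?_
        have hsub : (J.filter (fun p => z.im ≤ len p)).filter (fun p => p.1 = n) ⊆
            (Finset.range (2 ^ n)).image (fun j => ((n, j) : Nd)) := by
          intro p hp
          rw [Finset.mem_filter, Finset.mem_filter] at hp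
          rw [Finset.mem_image]
          refine ⟨p.2, ?_, ?_⟩
          · rw [Finset.mem_range, ← hp.2]
            exact hJ p hp.1.1
          · rw [← hp.2]
        calc ∑ p ∈ (J.filter (fun p => z.im ≤ len p)).filter (fun p => p.1 = n), om z (cen p)
            ≤ ∑ p ∈ (Finset.range (2 ^ n)).image (fun j => ((n, j) : Nd)), om z (cen p) :=
              Finset.sum_le_sum_of_subset_of_nonneg hsub (fun p _ _ => CO_om_nonneg hz p)
          _ = ∑ j ∈ Finset.range (2 ^ n), om z (cen (n, j)) := by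
              rw [Finset.sum_image]
              intro a _ b _ hab
              simpa using hab
          _ ≤ ∑ j ∈ Finset.range (2 ^ n), 3 * (z.im * 2 ^ n) *
                (Real.arctan ((((j + 1 : ℕ) : ℝ) * (1 / 2) ^ n - z.re) / (1 / 2) ^ n) -
                Real.arctan (((j : ℝ) * (1 / 2) ^ n - z.re) / (1 / 2) ^ n)) :=
              Finset.sum_le_sum fun j _ => CO_nodeA hz n j
          _ = 3 * (z.im * 2 ^ n) * ∑ j ∈ Finset.range (2 ^ n),
                (Real.arctan ((((j + 1 : ℕ) : ℝ) * (1 / 2) ^ n - z.re) / (1 / 2) ^ n) -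
                Real.arctan (((j : ℝ) * (1 / 2) ^ n - z.re) / (1 / 2) ^ n)) := by
              rw [Finset.mul_sum]
          _ ≤ 3 * (z.im * 2 ^ n) * Real.pi := by
              refine mul_le_mul_of_nonneg_left ?_ (by positivity)
              exact CO_tele Real.arctan CO_abs_arctan
                (fun j => ((j : ℝ) * (1 / 2) ^ n - z.re) / (1 / 2) ^ n) _
          _ = 3 * Real.pi * (z.im * 2 ^ n) := by ring
    _ = 3 * Real.pi * ∑ n ∈ (Finset.range N).filter (fun n => z.im * 2 ^ n ≤ 1),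
        z.im * (2 : ℝ) ^ n := by rw [Finset.mul_sum]
    _ ≤ 3 * Real.pi * 2 := by
        refine mul_le_mul_of_nonneg_left (CO_geom hz N) (by positivity)
    _ = 6 * Real.pi := by ring

open Classical in
/-- the small nodes, high point -/
lemma CO_partB1 {M : ℝ} {J : Finset Nd} (hJ : Pack M J) {z : ℂ} (hz : 1 ≤ z.im) :
    ∑ p ∈ J, om z (cen p) ≤ 3 / 2 * M := by
  have h0 := hJ.2 (0, 0) (by simp [nd])
  have h1 : J.filter (fun p => anc (0, 0) p) = J := by
    refine Finset.filter_true_of_mem fun p hp => ⟨Nat.zero_le _, ?_⟩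
    simp only [Nat.sub_zero]
    exact Nat.div_eq_of_lt (hJ.1 p hp)
  rw [h1] at h0
  have h2 : len (0, 0) = 1 := by simp [len]
  rw [h2, mul_one] at h0
  calc ∑ p ∈ J, om z (cen p) ≤ ∑ p ∈ J, 3 / 2 * len p := by
        refine Finset.sum_le_sum fun p _ => ?_
        have hl := CO_len_pos p
        have hz0 : 0 < z.im := by linarith
        rw [CO_om, div_le_iff₀ (CO_D_pos hz0 p)]
        have h3 : z.im ≤ CO_D z p := by
          unfold CO_D
          nlinarith [sq_nonneg (z.re - ((p.2 : ℝ) + 1 / 2) * len p)]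
        nlinarith
    _ = 3 / 2 * ∑ p ∈ J, len p := by rw [Finset.mul_sum]
    _ ≤ 3 / 2 * M := by linarith

/-- one small node under the node `(v, k)` -/
lemma CO_nodeB {z : ℂ} (hz : 0 < z.im) {v k : ℕ} {p : Nd} (hp : anc (v, k) p)
    (hv : (1 / 2 : ℝ) ^ v ≤ z.im) :
    om z (cen p) ≤ 9 / 2 * (2 ^ v * (Real.arctan ((((k + 1 : ℕ) : ℝ) * (1 / 2) ^ v - z.re) / z.im) -
        Real.arctan (((k : ℝ) * (1 / 2) ^ v - z.re) / z.im))) * len p := by
  obtain ⟨hvp, hdiv⟩ := hp
  simp only at hvp hdiv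
  set μ : ℝ := (1 / 2) ^ v with hμ
  have hμ0 : 0 < μ := by positivity
  have hl := CO_len_pos p
  have hD := CO_D_pos hz p
  -- the centre is over the interval
  have hlμ : len p * 2 ^ (p.1 - v) = μ := by
    unfold len
    rw [hμ]
    have : p.1 = (p.1 - v) + v := by omega
    conv_lhs => rw [this, pow_add]
    have h1 : ((1 / 2 : ℝ) ^ (p.1 - v)) * 2 ^ (p.1 - v) = 1 := by rw [← mul_pow]; norm_num
    have h2 : p.1 - v + v - v = p.1 - v := by omega
    rw [h2]
    calc (1 / 2 : ℝ) ^ (p.1 - v) * (1 / 2) ^ v * 2 ^ (p.1 - v)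
        = ((1 / 2 : ℝ) ^ (p.1 - v) * 2 ^ (p.1 - v)) * (1 / 2) ^ v := by ring
      _ = (1 / 2) ^ v := by rw [h1, one_mul]
  have hpos : 0 < 2 ^ (p.1 - v) := by positivity
  have hk1 : k * 2 ^ (p.1 - v) ≤ p.2 := by
    rw [← hdiv]; exact Nat.div_mul_le_self _ _
  have hk2 : p.2 + 1 ≤ (k + 1) * 2 ^ (p.1 - v) := by
    have := Nat.lt_div_mul_add (a := p.2) hpos
    rw [hdiv] at this
    calc p.2 + 1 ≤ k * 2 ^ (p.1 - v) + 2 ^ (p.1 - v) := this
      _ = (k + 1) * 2 ^ (p.1 - v) := by ring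
  have hk1' : (k : ℝ) * 2 ^ (p.1 - v) ≤ p.2 := by exact_mod_cast hk1
  have hk2' : (p.2 : ℝ) + 1 ≤ ((k : ℝ) + 1) * 2 ^ (p.1 - v) := by exact_mod_cast hk2
  have hx1 : (k : ℝ) * μ ≤ ((p.2 : ℝ) + 1 / 2) * len p := by
    rw [← hlμ]
    have := mul_le_mul_of_nonneg_right hk1' hl.le
    nlinarith
  have hx2 : ((p.2 : ℝ) + 1 / 2) * len p ≤ ((k : ℝ) + 1) * μ := by
    rw [← hlμ]
    have := mul_le_mul_of_nonneg_right hk2' hl.le
    nlinarith
  have h1 := CO_arctan' (a := (k : ℝ) * μ) (b := ((k + 1 : ℕ) : ℝ) * μ) (x := z.re) (s := z.im)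
    (D := 3 * CO_D z p) (by push_cast; nlinarith) hz (by positivity) (by
      intro t ht1 ht2
      push_cast at ht2
      have h2 : (t - ((p.2 : ℝ) + 1 / 2) * len p) ^ 2 ≤ μ ^ 2 := by
        apply sq_le_sq'
        · nlinarith
        · nlinarith
      have h3 : (z.re - t) ^ 2 ≤ 2 * (z.re - ((p.2 : ℝ) + 1 / 2) * len p) ^ 2 +
          2 * (t - ((p.2 : ℝ) + 1 / 2) * len p) ^ 2 := by
        nlinarith [sq_nonneg ((z.re - ((p.2 : ℝ) + 1 / 2) * len p) +
          (t - ((p.2 : ℝ) + 1 / 2) * len p))]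
      have h4 : z.im ^ 2 ≤ (z.im + 3 / 2 * len p) ^ 2 := by gcongr; linarith
      have h5 : μ ^ 2 ≤ z.im ^ 2 := by gcongr
      unfold CO_D
      nlinarith [sq_nonneg (z.re - ((p.2 : ℝ) + 1 / 2) * len p)])
  set α := Real.arctan ((((k + 1 : ℕ) : ℝ) * μ - z.re) / z.im) -
    Real.arctan (((k : ℝ) * μ - z.re) / z.im) with hα
  have h2 : (1 : ℝ) = 2 ^ v * μ := by
    rw [hμ, ← mul_pow]; norm_num
  have h3 : (((k + 1 : ℕ) : ℝ) * μ - (k : ℝ) * μ) * z.im / (3 * CO_D z p) =
      μ * (z.im / (3 * CO_D z p)) := by push_cast; ring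
  rw [h3] at h1
  have h4 : z.im / (3 * CO_D z p) ≤ 2 ^ v * α := by
    calc z.im / (3 * CO_D z p) = 2 ^ v * μ * (z.im / (3 * CO_D z p)) := by rw [← h2, one_mul]
      _ = 2 ^ v * (μ * (z.im / (3 * CO_D z p))) := by ring
      _ ≤ 2 ^ v * α := mul_le_mul_of_nonneg_left h1 (by positivity)
  have h5 : om z (cen p) = 9 / 2 * (z.im / (3 * CO_D z p)) * len p := by
    rw [CO_om]
    field_simp
    ring
  rw [h5]
  gcongr

open Classical in
/-- the small nodes, low point -/
lemma CO_partB2 {M : ℝ} {J : Finset Nd} (hJ : Pack M J) {z : ℂ} (hz : 0 < z.im)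
    (hz1 : z.im ≤ 1) :
    ∑ p ∈ J.filter (fun p => ¬ z.im ≤ len p), om z (cen p) ≤ 9 / 2 * M * Real.pi := by
  obtain ⟨n, hn1, hn2⟩ := exists_nat_pow_near_of_lt_one hz hz1 (by norm_num : (0 : ℝ) < 1 / 2)
    (by norm_num)
  set v := n + 1 with hv
  have hlev : ∀ p ∈ J.filter (fun p => ¬ z.im ≤ len p), v ≤ p.1 := by
    intro p hp
    rw [Finset.mem_filter] at hp
    by_contra hlt
    push Not at hlt
    apply hp.2
    refine hn2.trans ?_
    unfold len
    exact pow_le_pow_of_le_one (by norm_num) (by norm_num) (by omega)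
  have hmaps : ∀ p ∈ J.filter (fun p => ¬ z.im ≤ len p),
      p.2 / 2 ^ (p.1 - v) ∈ Finset.range (2 ^ v) := by
    intro p hp
    have h1 := hlev p hp
    rw [Finset.mem_filter] at hp
    rw [Finset.mem_range, Nat.div_lt_iff_lt_mul (by positivity), ← pow_add]
    have h2 : v + (p.1 - v) = p.1 := by omega
    rw [h2]
    exact hJ.1 p hp.1
  rw [← Finset.sum_fiberwise_of_maps_to hmaps]
  have hterm : ∀ k ∈ Finset.range (2 ^ v),
      ∑ p ∈ (J.filter (fun p => ¬ z.im ≤ len p)).filter (fun p => p.2 / 2 ^ (p.1 - v) = k),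
        om z (cen p) ≤ 9 / 2 * M *
        (Real.arctan ((((k + 1 : ℕ) : ℝ) * (1 / 2) ^ v - z.re) / z.im) -
        Real.arctan (((k : ℝ) * (1 / 2) ^ v - z.re) / z.im)) := by
    intro k hk
    set α := Real.arctan ((((k + 1 : ℕ) : ℝ) * (1 / 2) ^ v - z.re) / z.im) -
      Real.arctan (((k : ℝ) * (1 / 2) ^ v - z.re) / z.im) with hα
    have hα0 : 0 ≤ α := by
      rw [hα, sub_nonneg]
      apply Real.arctan_mono
      gcongr
      linarith
    have hanc : ∀ p ∈ (J.filter (fun p => ¬ z.im ≤ len p)).filter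
        (fun p => p.2 / 2 ^ (p.1 - v) = k), anc (v, k) p := by
      intro p hp
      rw [Finset.mem_filter] at hp
      exact ⟨hlev p hp.1, hp.2⟩
    calc ∑ p ∈ (J.filter (fun p => ¬ z.im ≤ len p)).filter (fun p => p.2 / 2 ^ (p.1 - v) = k),
          om z (cen p)
        ≤ ∑ p ∈ (J.filter (fun p => ¬ z.im ≤ len p)).filter (fun p => p.2 / 2 ^ (p.1 - v) = k),
          9 / 2 * (2 ^ v * α) * len p :=
          Finset.sum_le_sum fun p hp => CO_nodeB hz (hanc p hp) hn1.le
      _ ≤ ∑ p ∈ J.filter (fun p => anc (v, k) p), 9 / 2 * (2 ^ v * α) * len p := by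
          refine Finset.sum_le_sum_of_subset_of_nonneg ?_ (fun p _ _ => ?_)
          · intro p hp
            rw [Finset.mem_filter]
            exact ⟨(Finset.mem_filter.1 (Finset.mem_filter.1 hp).1).1, hanc p hp⟩
          · have := CO_len_pos p
            positivity
      _ = 9 / 2 * (2 ^ v * α) * ∑ p ∈ J.filter (fun p => anc (v, k) p), len p := by
          rw [Finset.mul_sum]
      _ ≤ 9 / 2 * (2 ^ v * α) * (M * len (v, k)) := by
          refine mul_le_mul_of_nonneg_left (hJ.2 (v, k) (Finset.mem_range.1 hk)) (by positivity)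
      _ = 9 / 2 * M * α := by
          have : (2 : ℝ) ^ v * len (v, k) = 1 := by
            unfold len
            rw [← mul_pow]; norm_num
          calc 9 / 2 * (2 ^ v * α) * (M * len (v, k)) = 9 / 2 * M * α * (2 ^ v * len (v, k)) := by
                ring
            _ = _ := by rw [this, mul_one]
  by_cases hM : 0 ≤ M
  · calc _ ≤ ∑ k ∈ Finset.range (2 ^ v), 9 / 2 * M *
          (Real.arctan ((((k + 1 : ℕ) : ℝ) * (1 / 2) ^ v - z.re) / z.im) -
          Real.arctan (((k : ℝ) * (1 / 2) ^ v - z.re) / z.im)) := Finset.sum_le_sum hterm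
      _ = 9 / 2 * M * ∑ k ∈ Finset.range (2 ^ v),
          (Real.arctan ((((k + 1 : ℕ) : ℝ) * (1 / 2) ^ v - z.re) / z.im) -
          Real.arctan (((k : ℝ) * (1 / 2) ^ v - z.re) / z.im)) := by rw [Finset.mul_sum]
      _ ≤ 9 / 2 * M * Real.pi := by
          refine mul_le_mul_of_nonneg_left ?_ (by positivity)
          exact CO_tele Real.arctan CO_abs_arctan
            (fun k => ((k : ℝ) * (1 / 2) ^ v - z.re) / z.im) _
  · exfalso
    have h0 := hJ.2 (0, 0) (by simp [nd])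
    have h1 : 0 ≤ ∑ p ∈ J.filter (fun p => anc (0, 0) p), len p :=
      Finset.sum_nonneg fun p _ => (CO_len_pos p).le
    have h2 : len (0, 0) = 1 := by simp [len]
    rw [h2, mul_one] at h0
    linarith

theorem test_of_pack {M : ℝ} (hM : 0 ≤ M) {J : Finset Nd} (hJ : Pack M J) {z : ℂ} (hz : 0 < z.im) :
    ∑ p ∈ J, om z (cen p) ≤ 40 * M := by
  classical
  rcases J.eq_empty_or_nonempty with rfl | ⟨p₀, hp₀⟩
  · simp only [Finset.sum_empty]; positivity
  have hM1 : 1 ≤ M := by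
    have h1 := hJ.2 p₀ (hJ.1 p₀ hp₀)
    have h2 : p₀ ∈ J.filter (fun p => anc p₀ p) := by
      rw [Finset.mem_filter]
      exact ⟨hp₀, le_rfl, by simp⟩
    have h3 : len p₀ ≤ ∑ p ∈ J.filter (fun p => anc p₀ p), len p :=
      Finset.single_le_sum (f := len) (fun p _ => (CO_len_pos p).le) h2
    have h4 := CO_len_pos p₀
    have h5 : len p₀ ≤ M * len p₀ := by
      refine h3.trans ?_
      convert h1
    by_contra hlt
    push Not at hlt
    nlinarith
  have hpi := Real.pi_lt_d2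
  by_cases hz1 : z.im ≤ 1
  · rw [← Finset.sum_filter_add_sum_filter_not J (fun p => z.im ≤ len p)]
    have h1 := CO_partA hz J hJ.1
    have h2 := CO_partB2 hJ hz hz1
    have h3 : 9 / 2 * M * Real.pi ≤ 9 / 2 * M * 3.15 := by gcongr
    linarith
  · have h2 := CO_partB1 hJ (z := z) (by linarith)
    linarith

end

end Cor
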