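import Mathlib

/-!
# Corona project, part 1: stopping times on the dyadic forest (module CO-Tree)

Nodes are pairs `(l, I)` with `l : ℕ` and `I : ℤ`; the parent of `(l + 1, I)` is `(l, I / 2)` and the
children of `(l, I)` are `(l + 1, 2 I)`, `(l + 1, 2 I + 1)`.  A martingale is a function
`a : ℕ → ℤ → E` with `a l I = (a (l+1) (2I) + a (l+1) (2I+1)) / 2`.

`stp ε a` is the stopped function: it keeps the value of the parent as long as `a` differs from that
value by at most `ε` and jumps to the value of `a` otherwise (then the node is a stop).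

## `norm_sub_stp_le`, `norm_stp_le`: induction on `l`.

## `stop_pack`
For `b ∈ E`, a node `(l, I)` and `d : ℕ` put
`V d l I b = (1/2)^d * ∑ K ∈ Ico (2^d I) (2^d (I+1)), ‖a (l+d) K - b‖^2` (mean of `‖a - b‖²` over the
descendants of relative depth `d`).  Then
(1) `V 0 l I b = ‖a l I - b‖²`, `V (d+1) l I b = (V d (l+1) (2I) b + V d (l+1) (2I+1) b) / 2`;
(2) `V d l I b = V d l I (a l I) + ‖a l I - b‖²` (martingale property: the mean of the descendants is
`a l I`; induction on `d` from (1), or: expand the square, `∑ (a (l+d) K - a l I) = 0`);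
(3) claim: with `C d l I = ∑ j ∈ range d, (1/2)^(j+1) * #{K ∈ Ico (2^(j+1) I) (2^(j+1) (I+1)) | StopS ε a (l+j) K}`
we have `C d l I * ε² ≤ V d l I (stp ε a l I)`, for all `l, I`.
Induction on `d`: `C (d+1) l I = (1/2) ∑_{K child} (1_{StopS ε a l K} + C d (l+1) K)`.  If `K` is not
a stop then `stp (l+1) K = stp l I` and the claim for `K` gives `C d (l+1) K * ε² ≤ V d (l+1) K (stp l I)`.
If `K` is a stop then `stp (l+1) K = a (l+1) K`, and by (2)
`(1 + C d (l+1) K) ε² ≤ ε² + V d (l+1) K (a (l+1) K) = ε² + V d (l+1) K (stp l I) - ‖a (l+1) K - stp l I‖²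
≤ V d (l+1) K (stp l I)`.  Add the two children and use (1).
(4) `V d l I b ≤ (2K)²` when `‖a‖ ≤ K`, `‖b‖ ≤ K`.
-/

namespace Cor

open Finset
open scoped Classical

noncomputable section

variable {E : Type*} [NormedAddCommGroup E]

/-- the stopped function -/
def stp (ε : ℝ) (a : ℕ → ℤ → E) : ℕ → ℤ → E
  | 0, I => a 0 I
  | l + 1, I => if ‖a (l + 1) I - stp ε a l (I / 2)‖ ≤ ε then stp ε a l (I / 2) else a (l + 1) I

/-- the node `(l + 1, I)` is a stop -/
def StopS (ε : ℝ) (a : ℕ → ℤ → E) (l : ℕ) (I : ℤ) : Prop := ε < ‖a (l + 1) I - stp ε a l (I / 2)‖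

theorem stp_of_not_stop {ε : ℝ} {a : ℕ → ℤ → E} {l : ℕ} {I : ℤ} (h : ¬ StopS ε a l I) :
    stp ε a (l + 1) I = stp ε a l (I / 2) := by
  unfold StopS at h
  rw [stp, if_pos (not_lt.1 h)]

theorem stp_of_stop {ε : ℝ} {a : ℕ → ℤ → E} {l : ℕ} {I : ℤ} (h : StopS ε a l I) :
    stp ε a (l + 1) I = a (l + 1) I := by
  unfold StopS at h
  rw [stp, if_neg (not_le.2 h)]

theorem norm_sub_stp_le {ε : ℝ} (hε : 0 ≤ ε) (a : ℕ → ℤ → E) (l : ℕ) (I : ℤ) :
    ‖a l I - stp ε a l I‖ ≤ ε := by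
  cases l with
  | zero =>
    rw [stp, sub_self, norm_zero]
    exact hε
  | succ l =>
    by_cases h : StopS ε a l I
    · rw [stp_of_stop h, sub_self, norm_zero]
      exact hε
    · rw [stp_of_not_stop h]
      exact not_lt.1 h

theorem norm_stp_le {ε K : ℝ} {a : ℕ → ℤ → E} (hK : ∀ l I, ‖a l I‖ ≤ K) (l : ℕ) (I : ℤ) :
    ‖stp ε a l I‖ ≤ K := by
  induction l generalizing I with
  | zero =>
    rw [stp]
    exact hK 0 I
  | succ l ih =>
    by_cases h : StopS ε a l I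
    · rw [stp_of_stop h]
      exact hK _ _
    · rw [stp_of_not_stop h]
      exact ih _

/-- mean square distance to `b` of the descendants of relative depth `d` -/
def COV (a : ℕ → ℤ → E) : ℕ → ℕ → ℤ → E → ℝ
  | 0, l, I, b => ‖a l I - b‖ ^ 2
  | d + 1, l, I, b => (COV a d (l + 1) (2 * I) b + COV a d (l + 1) (2 * I + 1) b) / 2

theorem COV_id [InnerProductSpace ℝ E] {a : ℕ → ℤ → E}
    (hmart : ∀ l I, a l I = (1 / 2 : ℝ) • (a (l + 1) (2 * I) + a (l + 1) (2 * I + 1)))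
    (d l : ℕ) (I : ℤ) (b : E) : COV a d l I b = COV a d l I (a l I) + ‖a l I - b‖ ^ 2 := by
  induction d generalizing l I b with
  | zero => simp [COV]
  | succ d ih =>
    have e1 := ih (l + 1) (2 * I) b
    have e2 := ih (l + 1) (2 * I + 1) b
    have e3 := ih (l + 1) (2 * I) (a l I)
    have e4 := ih (l + 1) (2 * I + 1) (a l I)
    rw [COV, COV, e1, e2, e3, e4]
    have p1 := parallelogram_law_with_norm ℝ (a (l + 1) (2 * I) - b) (a (l + 1) (2 * I + 1) - b)
    have h1 : a l I - b = (1 / 2 : ℝ) •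
        ((a (l + 1) (2 * I) - b) + (a (l + 1) (2 * I + 1) - b)) := by
      rw [hmart l I]
      module
    have h2 : a (l + 1) (2 * I) - a l I = (1 / 2 : ℝ) •
        ((a (l + 1) (2 * I) - b) - (a (l + 1) (2 * I + 1) - b)) := by
      rw [hmart l I]
      module
    have h3 : a (l + 1) (2 * I + 1) - a l I = -((1 / 2 : ℝ) •
        ((a (l + 1) (2 * I) - b) - (a (l + 1) (2 * I + 1) - b))) := by
      rw [hmart l I]
      module
    have n1 : ‖a l I - b‖ = 1 / 2 *
        ‖(a (l + 1) (2 * I) - b) + (a (l + 1) (2 * I + 1) - b)‖ := by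
      rw [h1, norm_smul]; norm_num
    have n2 : ‖a (l + 1) (2 * I) - a l I‖ = 1 / 2 *
        ‖(a (l + 1) (2 * I) - b) - (a (l + 1) (2 * I + 1) - b)‖ := by
      rw [h2, norm_smul]; norm_num
    have n3 : ‖a (l + 1) (2 * I + 1) - a l I‖ = 1 / 2 *
        ‖(a (l + 1) (2 * I) - b) - (a (l + 1) (2 * I + 1) - b)‖ := by
      rw [h3, norm_neg, norm_smul]; norm_num
    rw [n1, n2, n3]
    nlinarith [p1]

theorem COV_le {a : ℕ → ℤ → E} {K : ℝ} (hK : ∀ l I, ‖a l I‖ ≤ K) (d l : ℕ) (I : ℤ) {b : E}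
    (hb : ‖b‖ ≤ K) : COV a d l I b ≤ (2 * K) ^ 2 := by
  induction d generalizing l I with
  | zero =>
    rw [COV]
    have h1 : ‖a l I - b‖ ≤ 2 * K := (norm_sub_le _ _).trans (by linarith [hK l I])
    exact pow_le_pow_left₀ (norm_nonneg _) h1 2
  | succ d ih =>
    rw [COV]
    linarith [ih (l + 1) (2 * I), ih (l + 1) (2 * I + 1)]

/-- the weighted number of stops -/
def COC (ε : ℝ) (a : ℕ → ℤ → E) (d l : ℕ) (I : ℤ) : ℝ :=
  ∑ j ∈ range d, (1 / 2 : ℝ) ^ (j + 1) *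
      (((Ico (2 ^ (j + 1) * I) (2 ^ (j + 1) * (I + 1))).filter (StopS ε a (l + j))).card : ℝ)

theorem COC_split (P : ℤ → Prop) (j : ℕ) (I : ℤ) :
    (((Ico ((2 : ℤ) ^ (j + 1) * I) (2 ^ (j + 1) * (I + 1))).filter P).card : ℝ) =
      (((Ico ((2 : ℤ) ^ j * (2 * I)) (2 ^ j * (2 * I + 1))).filter P).card : ℝ) +
      (((Ico ((2 : ℤ) ^ j * (2 * I + 1)) (2 ^ j * (2 * I + 1 + 1))).filter P).card : ℝ) := by
  have h2 : (0 : ℤ) < 2 ^ j := by positivity
  have e1 : (2 : ℤ) ^ (j + 1) * I = 2 ^ j * (2 * I) := by ring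
  have e2 : (2 : ℤ) ^ (j + 1) * (I + 1) = 2 ^ j * (2 * I + 1 + 1) := by ring
  rw [e1, e2]
  have h3 : (2 : ℤ) ^ j * (2 * I) ≤ 2 ^ j * (2 * I + 1) :=
    mul_le_mul_of_nonneg_left (by linarith) h2.le
  have h4 : (2 : ℤ) ^ j * (2 * I + 1) ≤ 2 ^ j * (2 * I + 1 + 1) :=
    mul_le_mul_of_nonneg_left (by linarith) h2.le
  rw [← Ico_union_Ico_eq_Ico h3 h4, filter_union, card_union_of_disjoint]
  · push_cast
    rfl
  · exact disjoint_filter_filter (Ico_disjoint_Ico_consecutive _ _ _)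

theorem COC_succ (ε : ℝ) (a : ℕ → ℤ → E) (d l : ℕ) (I : ℤ) :
    COC ε a (d + 1) l I = 1 / 2 * ((if StopS ε a l (2 * I) then 1 else 0) + COC ε a d (l + 1) (2 * I)) +
      1 / 2 * ((if StopS ε a l (2 * I + 1) then 1 else 0) + COC ε a d (l + 1) (2 * I + 1)) := by
  unfold COC
  rw [sum_range_succ']
  have h0 : ((1 : ℝ) / 2) ^ (0 + 1) *
      (((Ico ((2 : ℤ) ^ (0 + 1) * I) (2 ^ (0 + 1) * (I + 1))).filter (StopS ε a (l + 0))).card : ℝ) =
      1 / 2 * (if StopS ε a l (2 * I) then 1 else 0) +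
      1 / 2 * (if StopS ε a l (2 * I + 1) then 1 else 0) := by
    rw [COC_split, pow_zero, one_mul, one_mul, one_mul]
    have s1 : ∀ x : ℤ, Ico x (x + 1) = {x} := by
      intro x
      ext y
      rw [mem_Ico, mem_singleton]
      omega
    rw [s1, s1, filter_singleton, filter_singleton]
    by_cases c1 : StopS ε a l (2 * I) <;> by_cases c2 : StopS ε a l (2 * I + 1) <;>
      simp [c1, c2] <;> norm_num
  have hs : ∀ j ∈ range d, ((1 : ℝ) / 2) ^ (j + 1 + 1) *
      (((Ico ((2 : ℤ) ^ (j + 1 + 1) * I) (2 ^ (j + 1 + 1) * (I + 1))).filter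
        (StopS ε a (l + (j + 1)))).card : ℝ) =
      1 / 2 * ((1 / 2) ^ (j + 1) *
        (((Ico ((2 : ℤ) ^ (j + 1) * (2 * I)) (2 ^ (j + 1) * (2 * I + 1))).filter
        (StopS ε a (l + 1 + j))).card : ℝ)) +
      1 / 2 * ((1 / 2) ^ (j + 1) *
        (((Ico ((2 : ℤ) ^ (j + 1) * (2 * I + 1)) (2 ^ (j + 1) * (2 * I + 1 + 1))).filter
        (StopS ε a (l + 1 + j))).card : ℝ)) := by
    intro j _
    rw [COC_split, show l + (j + 1) = l + 1 + j by ring]
    ring
  rw [sum_congr rfl hs, h0, sum_add_distrib, ← mul_sum, ← mul_sum]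
  ring

theorem COC_le [InnerProductSpace ℝ E] {ε : ℝ} (hε : 0 < ε) {a : ℕ → ℤ → E}
    (hmart : ∀ l I, a l I = (1 / 2 : ℝ) • (a (l + 1) (2 * I) + a (l + 1) (2 * I + 1)))
    (d l : ℕ) (I : ℤ) : COC ε a d l I * ε ^ 2 ≤ COV a d l I (stp ε a l I) := by
  induction d generalizing l I with
  | zero =>
    simp only [COC, range_zero, sum_empty, zero_mul, COV]
    positivity
  | succ d ih =>
    have key : ∀ K : ℤ, K / 2 = I →
        ((if StopS ε a l K then 1 else 0) + COC ε a d (l + 1) K) * ε ^ 2 ≤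
          COV a d (l + 1) K (stp ε a l I) := by
      intro K hK
      have h1 := ih (l + 1) K
      by_cases hs : StopS ε a l K
      · rw [if_pos hs]
        rw [stp_of_stop hs] at h1
        have h2 := COV_id hmart d (l + 1) K (stp ε a l I)
        have h3 : ε ^ 2 ≤ ‖a (l + 1) K - stp ε a l I‖ ^ 2 := by
          refine pow_le_pow_left₀ hε.le ?_ 2
          have := hs
          unfold StopS at this
          rw [hK] at this
          exact this.le
        rw [h2]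
        nlinarith
      · rw [if_neg hs, zero_add]
        rw [stp_of_not_stop hs, hK] at h1
        exact h1
    have k1 := key (2 * I) (by omega)
    have k2 := key (2 * I + 1) (by omega)
    rw [COC_succ, COV]
    nlinarith

theorem stop_pack [InnerProductSpace ℝ E] {ε K : ℝ} (hε : 0 < ε) {a : ℕ → ℤ → E}
    (hmart : ∀ l I, a l I = (1 / 2 : ℝ) • (a (l + 1) (2 * I) + a (l + 1) (2 * I + 1)))
    (hK : ∀ l I, ‖a l I‖ ≤ K) (l : ℕ) (I : ℤ) (d : ℕ) :
    ∑ j ∈ range d, (1 / 2 : ℝ) ^ (j + 1) *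
      (((Ico (2 ^ (j + 1) * I) (2 ^ (j + 1) * (I + 1))).filter (StopS ε a (l + j))).card : ℝ) ≤
        (2 * K) ^ 2 / ε ^ 2 := by
  rw [le_div_iff₀ (by positivity)]
  have h1 := COC_le hε hmart d l I
  unfold COC at h1
  exact h1.trans (COV_le hK d l I (norm_stp_le hK l I))

end

end Cor
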